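import Pool.Agent.TH652.Dual5

set_option autoImplicit false
set_option linter.unusedSectionVars false

/-!
# Exactness of the vertical differential
-/

namespace Pool.Agent.H77CM

open Pool.Agent.W907.SG Pool.Agent.W907.SM Pool.Agent.TH652.Dual Module

section Abs

variable {V X : Type} [Fintype V] [LinearOrder V] {G : SimpleGraph V} {a : V → X → X}

/-- families of functions indexed by pairs of sets -/
abbrev Fm (V X : Type) : Type := Finset V → Finset V → X → ℝ

/-- the vertical differential as a linear map -/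
noncomputable def D2L (a : V → X → X) : Fm V X →ₗ[ℝ] Fm V X where
  toFun w := D2 a w
  map_add' w w' := by
    funext S R
    rw [Pi.add_apply, Pi.add_apply, D2_apply, D2_apply, D2_apply, ← Finset.sum_add_distrib]
    refine Finset.sum_congr rfl fun s _ => ?_
    rw [Pi.add_apply, Pi.add_apply, map_add, smul_add]
  map_smul' r w := by
    funext S R
    rw [RingHom.id_apply, Pi.smul_apply, Pi.smul_apply, D2_apply, D2_apply, Finset.smul_sum]
    refine Finset.sum_congr rfl fun s _ => ?_
    rw [Pi.smul_apply, Pi.smul_apply, map_smul, smul_comm]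

theorem D2L_apply (w : Fm V X) : D2L a w = D2 a w := rfl

/-- the horizontal differential as a linear map -/
noncomputable def D1L : Fm V X →ₗ[ℝ] Fm V X where
  toFun w := D1 w
  map_add' w w' := by
    funext S
    exact map_add (bd ℝ) _ _
  map_smul' r w := by
    funext S
    exact map_smul (bd ℝ) _ _

theorem D1L_apply (w : Fm V X) : D1L w = D1 w := rfl

/-- the contraction as a linear map -/
noncomputable def hh : Fm V X →ₗ[ℝ] Fm V X where
  toFun w S R := ∑ u ∈ R \ S, sg u (R.erase u) • w (insert u S) (R.erase u)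
  map_add' w w' := by
    funext S R
    rw [Pi.add_apply, Pi.add_apply, ← Finset.sum_add_distrib]
    refine Finset.sum_congr rfl fun u _ => ?_
    rw [Pi.add_apply, Pi.add_apply, smul_add]
  map_smul' r w := by
    funext S R
    rw [RingHom.id_apply, Pi.smul_apply, Pi.smul_apply, Finset.smul_sum]
    refine Finset.sum_congr rfl fun u _ => ?_
    rw [Pi.smul_apply, Pi.smul_apply, smul_comm]

theorem hh_apply (w : Fm V X) (S R : Finset V) :
    hh w S R = ∑ u ∈ R \ S, sg u (R.erase u) • w (insert u S) (R.erase u) := rfl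

theorem lay_hh {j i : ℕ} {w : Fm V X} (h : Lay G a (j + 1) i w) : Lay G a j (i + 1) (hh w) := by
  refine ⟨fun S R hn => ?_, fun S R t ht => ?_⟩
  · rw [hh_apply]
    refine Finset.sum_eq_zero fun u hu => ?_
    rw [Finset.mem_sdiff] at hu
    by_cases h0 : w (insert u S) (R.erase u) = 0
    · rw [h0, smul_zero]
    · exfalso
      have h1 : Disjoint (insert u S) (R.erase u) ∧ G.IsClique ((insert u S ∪ R.erase u : Finset V) : Set V) ∧
          (insert u S).card = j + 1 ∧ (R.erase u).card = i := by
        by_contra hh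
        exact h0 (h.1 _ _ hh)
      obtain ⟨h1, h2, h3, h4⟩ := h1
      refine hn ⟨?_, ?_, ?_, ?_⟩
      · rw [Finset.disjoint_left] at h1 ⊢
        intro t ht htR
        by_cases e : t = u
        · exact hu.2 (e ▸ ht)
        · exact h1 (Finset.mem_insert_of_mem ht) (Finset.mem_erase.2 ⟨e, htR⟩)
      · have e : insert u S ∪ R.erase u = S ∪ R := by
          ext t
          simp only [Finset.mem_union, Finset.mem_erase, Finset.mem_insert]
          by_cases e : t = u
          · subst e; simp [hu.1]
          · simp [e]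
        rwa [e] at h2
      · rw [Finset.card_insert_of_notMem hu.2] at h3
        omega
      · rw [Finset.card_erase_of_mem hu.1] at h4
        have := Finset.card_pos.2 ⟨u, hu.1⟩
        omega
  · rw [hh_apply, map_sum]
    refine Finset.sum_congr rfl fun u hu => ?_
    rw [map_zsmul, h.2 _ _ t (Finset.mem_insert_of_mem ht)]

/-- the operator homotopic to zero -/
noncomputable def NN (a : V → X → X) (w : Fm V X) : Fm V X :=
  fun S R => S.card • w S R + ∑ u ∈ R, pp a u (w S R)

theorem hom_eq {j i : ℕ} {w : Fm V X} (h : Lay G a j i w) : D2 a (hh w) + hh (D2 a w) = NN a w := by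
  funext S R
  rw [Pi.add_apply, Pi.add_apply]
  show _ = S.card • w S R + ∑ u ∈ R, pp a u (w S R)
  by_cases hd : Disjoint S R
  · have hSR : S \ R = S := Finset.sdiff_eq_self_of_disjoint hd
    have hRS : R \ S = R := Finset.sdiff_eq_self_of_disjoint hd.symm
    have h1 : D2 a (hh w) S R = S.card • w S R + ∑ s ∈ S, ∑ u ∈ R,
        (sg s R * sg u (insert s (R.erase u))) • pp a s (w (insert u (S.erase s)) (insert s (R.erase u))) := by
      rw [D2_apply, hSR, ← Finset.sum_const, ← Finset.sum_add_distrib]
      refine Finset.sum_congr rfl fun s hs => ?_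
      have hsR : s ∉ R := Finset.disjoint_left.1 hd hs
      have e1 : insert s R \ S.erase s = insert s R := by
        refine Finset.sdiff_eq_self_of_disjoint ?_
        rw [Finset.disjoint_left] at hd ⊢
        intro t ht ht2
        rcases Finset.mem_insert.1 ht with rfl | ht
        · exact Finset.notMem_erase _ _ ht2
        · exact hd (Finset.mem_of_mem_erase ht2) ht
      rw [hh_apply, e1, Finset.sum_insert hsR, Finset.erase_insert hsR, Finset.insert_erase hs, map_add, smul_add,
        map_zsmul, smul_smul, sg_mul_self, one_smul, pp_of_inv s _ (h.2 S R s hs), map_sum, Finset.smul_sum]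
      congr 1
      refine Finset.sum_congr rfl fun u hu => ?_
      have hus : s ≠ u := fun e => hsR (e ▸ hu)
      rw [Finset.erase_insert_of_ne hus, map_zsmul, smul_smul]
    have h2 : hh (D2 a w) S R = ∑ u ∈ R, pp a u (w S R) + ∑ u ∈ R, ∑ s ∈ S,
        (sg u (R.erase u) * sg s (R.erase u)) • pp a s (w (insert u (S.erase s)) (insert s (R.erase u))) := by
      rw [hh_apply, hRS, ← Finset.sum_add_distrib]
      refine Finset.sum_congr rfl fun u hu => ?_
      have huS : u ∉ S := Finset.disjoint_right.1 hd hu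
      have e1 : insert u S \ R.erase u = insert u S := by
        refine Finset.sdiff_eq_self_of_disjoint ?_
        rw [Finset.disjoint_left] at hd ⊢
        intro t ht ht2
        rcases Finset.mem_insert.1 ht with rfl | ht
        · exact Finset.notMem_erase _ _ ht2
        · exact hd ht (Finset.mem_of_mem_erase ht2)
      rw [D2_apply, e1, Finset.sum_insert huS, Finset.erase_insert huS, Finset.insert_erase hu, smul_add,
        smul_smul, sg_mul_self, one_smul, Finset.smul_sum]
      congr 1
      refine Finset.sum_congr rfl fun s hs => ?_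
      have hus : u ≠ s := fun e => huS (e ▸ hs)
      rw [Finset.erase_insert_of_ne hus, smul_smul]
    have h3 : ∑ s ∈ S, ∑ u ∈ R,
        (sg s R * sg u (insert s (R.erase u))) • pp a s (w (insert u (S.erase s)) (insert s (R.erase u))) +
        ∑ u ∈ R, ∑ s ∈ S,
        (sg u (R.erase u) * sg s (R.erase u)) • pp a s (w (insert u (S.erase s)) (insert s (R.erase u))) = 0 := by
      rw [Finset.sum_comm, ← Finset.sum_add_distrib]
      refine Finset.sum_eq_zero fun u hu => ?_
      rw [← Finset.sum_add_distrib]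
      refine Finset.sum_eq_zero fun s hs => ?_
      have huS : u ∉ S := Finset.disjoint_right.1 hd hu
      have hsR : s ∉ R := Finset.disjoint_left.1 hd hs
      have hus : u ≠ s := fun e => huS (e ▸ hs)
      rw [← add_smul]
      have h4 := sg_swap u s (R.erase u) hus (Finset.notMem_erase u R) (fun h => hsR (Finset.mem_of_mem_erase h))
      rw [Finset.insert_erase hu] at h4
      have h5 := sg_mul_self u (insert s (R.erase u))
      have h6 := sg_mul_self u (R.erase u)
      have h7 : sg s R * sg u (insert s (R.erase u)) + sg u (R.erase u) * sg s (R.erase u) = 0 := by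
        have h8 : sg u (insert s (R.erase u)) * sg s (R.erase u) * sg u (R.erase u) = - sg s R := by
          rw [h4, neg_mul, mul_assoc, h6, mul_one]
        have h9 : sg s R = - (sg u (insert s (R.erase u)) * sg s (R.erase u) * sg u (R.erase u)) := by
          rw [h8, neg_neg]
        rw [h9]
        linear_combination (- sg s (R.erase u) * sg u (R.erase u)) * h5
      rw [h7, zero_smul]
    rw [h1, h2]
    have h4 : ∀ A B C D : X → ℝ, B + D = 0 → A + B + (C + D) = A + C := by
      intro A B C D hBD
      rw [add_add_add_comm, hBD, add_zero]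
    exact h4 _ _ _ _ h3
  · have hw : w S R = 0 := h.1 S R fun hh => hd hh.1
    rw [hw, smul_zero, zero_add, Finset.sum_eq_zero (fun u _ => map_zero _)]
    obtain ⟨t, htS, htR⟩ := Finset.not_disjoint_iff.1 hd
    have h1 : D2 a (hh w) S R = 0 := by
      rw [D2_apply]
      refine Finset.sum_eq_zero fun s hs => ?_
      rw [Finset.mem_sdiff] at hs
      have hts : t ≠ s := fun e => hs.2 (e ▸ htR)
      rw [hh_apply, Finset.sum_eq_zero, map_zero, smul_zero]
      intro u hu
      rw [Finset.mem_sdiff] at hu
      have htu : t ≠ u := fun e => hu.2 (e ▸ Finset.mem_erase.2 ⟨hts, htS⟩)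
      rw [h.1, smul_zero]
      rintro ⟨h2, _⟩
      exact Finset.disjoint_left.1 h2 (Finset.mem_insert_of_mem (Finset.mem_erase.2 ⟨hts, htS⟩))
        (Finset.mem_erase.2 ⟨htu, Finset.mem_insert_of_mem htR⟩)
    have h2 : hh (D2 a w) S R = 0 := by
      rw [hh_apply]
      refine Finset.sum_eq_zero fun u hu => ?_
      rw [Finset.mem_sdiff] at hu
      have htu : t ≠ u := fun e => hu.2 (e ▸ htS)
      rw [D2_apply, Finset.sum_eq_zero, smul_zero]
      intro s hs
      rw [Finset.mem_sdiff] at hs
      have hts : t ≠ s := fun e => hs.2 (e ▸ Finset.mem_erase.2 ⟨htu, htR⟩)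
      rw [h.1, map_zero, smul_zero]
      rintro ⟨h3, _⟩
      exact Finset.disjoint_left.1 h3 (Finset.mem_erase.2 ⟨hts, Finset.mem_insert_of_mem htS⟩)
        (Finset.mem_insert_of_mem (Finset.mem_erase.2 ⟨htu, htR⟩))
    rw [h1, h2, add_zero]

variable [Fintype X]

theorem pp_nonneg (hi : ∀ v x, a v (a v x) = x) (s : V) (f : X → ℝ) : 0 ≤ ∑ x : X, pp a s f x * f x := by
  have h1 := pp_adj hi s f (pp a s f) (pp_inv hi s f)
  have h2 : ∑ x : X, pp a s f x * f x = ∑ x : X, f x * pp a s f x :=
    Finset.sum_congr rfl fun x _ => mul_comm _ _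
  rw [h2, ← h1]
  exact Finset.sum_nonneg fun x _ => mul_self_nonneg _

theorem NN_inj (hi : ∀ v x, a v (a v x) = x) {j i : ℕ} {w : Fm V X} (h : Lay G a (j + 1) i w)
    (h0 : NN a w = 0) : w = 0 := by
  funext S R
  by_cases hS : S.card = j + 1
  · have h1 : S.card • w S R + ∑ u ∈ R, pp a u (w S R) = 0 := congrFun (congrFun h0 S) R
    have h2 : (S.card : ℝ) * ∑ x : X, w S R x * w S R x + ∑ u ∈ R, ∑ x : X, pp a u (w S R) x * w S R x = 0 := by
      rw [Finset.sum_comm, Finset.mul_sum, ← Finset.sum_add_distrib]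
      refine Finset.sum_eq_zero fun x _ => ?_
      have h3 := congrFun h1 x
      rw [Pi.add_apply, Finset.sum_apply, Pi.zero_apply] at h3
      have h4 : (S.card • w S R) x = (S.card : ℝ) * w S R x := by
        rw [Pi.smul_apply, nsmul_eq_mul]
      rw [h4] at h3
      rw [← Finset.sum_mul]
      linear_combination (w S R x) * h3
    have h3 : 0 ≤ ∑ u ∈ R, ∑ x : X, pp a u (w S R) x * w S R x :=
      Finset.sum_nonneg fun u _ => pp_nonneg hi u _
    have h4 : 0 ≤ ∑ x : X, w S R x * w S R x := Finset.sum_nonneg fun x _ => mul_self_nonneg _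
    have h5 : (1 : ℝ) ≤ S.card := by
      rw [hS]
      push_cast
      linarith [Nat.cast_nonneg (α := ℝ) j]
    have h6 : ∑ x : X, w S R x * w S R x = 0 := by nlinarith
    rw [Finset.sum_eq_zero_iff_of_nonneg fun x _ => mul_self_nonneg _] at h6
    funext x
    exact mul_self_eq_zero.1 (h6 x (Finset.mem_univ _))
  · exact h.1 S R fun hh => hS hh.2.2.1

/-- the families in one bidegree -/
def LayM (G : SimpleGraph V) (a : V → X → X) (j i : ℕ) : Submodule ℝ (Fm V X) where
  carrier := {w | Lay G a j i w}
  add_mem' := by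
    intro w w' h h'
    refine ⟨fun S R hn => ?_, fun S R s hs => ?_⟩
    · rw [Pi.add_apply, Pi.add_apply, h.1 S R hn, h'.1 S R hn, add_zero]
    · rw [Pi.add_apply, Pi.add_apply, map_add, h.2 S R s hs, h'.2 S R s hs]
  zero_mem' := by
    refine ⟨fun S R hn => rfl, fun S R s hs => ?_⟩
    rw [Pi.zero_apply, Pi.zero_apply, map_zero]
  smul_mem' := by
    intro r w h
    refine ⟨fun S R hn => ?_, fun S R s hs => ?_⟩
    · rw [Pi.smul_apply, Pi.smul_apply, h.1 S R hn, smul_zero]
    · rw [Pi.smul_apply, Pi.smul_apply, map_smul, h.2 S R s hs]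

theorem mem_LayM {j i : ℕ} {w : Fm V X} : w ∈ LayM G a j i ↔ Lay G a j i w := Iff.rfl

theorem D2_exact (hi : ∀ v x, a v (a v x) = x) (hc : ∀ u v, G.Adj u v → ∀ x, a u (a v x) = a v (a u x))
    {j i : ℕ} {w : Fm V X} (h : Lay G a (j + 1) i w) (h0 : D2 a w = 0) :
    ∃ y, Lay G a j (i + 1) y ∧ D2 a y = w := by
  set K : Submodule ℝ (Fm V X) := LayM G a (j + 1) i ⊓ LinearMap.ker (D2L a) with hK
  have hmap : ∀ x ∈ K, (D2L a ∘ₗ hh) x ∈ K := by
    rintro x ⟨h1, _⟩
    refine ⟨lay_D2 hi hc (lay_hh h1), ?_⟩
    exact D2_D2 hc (lay_hh h1).good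
  have hinj : Function.Injective ((D2L a ∘ₗ hh).restrict hmap) := by
    rw [injective_iff_map_eq_zero]
    rintro ⟨x, h1, h2⟩ hx
    have h3 : D2 a (hh x) = 0 := congrArg Subtype.val hx
    have h2' : D2 a x = 0 := h2
    have h4 := hom_eq (mem_LayM.1 h1)
    rw [h3, h2', map_zero, add_zero] at h4
    exact Subtype.ext (NN_inj hi h1 h4.symm)
  have hsurj := LinearMap.surjective_of_injective hinj
  obtain ⟨⟨x, h1, h2⟩, hx⟩ := hsurj ⟨w, h, h0⟩
  exact ⟨hh x, lay_hh h1, congrArg Subtype.val hx⟩

end Abs

end Pool.Agent.H77CM
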