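import Pool.Agent.H77CM.A9

set_option autoImplicit false
set_option linter.unusedSectionVars false

/-!
# The inequality for homology manifolds with boundary
-/

namespace Pool.Agent.H77CM

open Pool.Agent.W907.SG Pool.Agent.W907.SM Pool.Agent.TH652.Dual Module
open Pool.Agent.W397.SG (euler KK_big beta_big)

open Classical in
/-- the Euler characteristic of the flag complex of `G` -/
noncomputable def chiF {V : Type} [Fintype V] (G : SimpleGraph V) : ℤ :=
  ∑ T : Finset V, if T.Nonempty ∧ G.IsClique (T : Set V) then (-1 : ℤ) ^ (T.card + 1) else 0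

section Abs

variable {V : Type} [Fintype V] [LinearOrder V] {G : SimpleGraph V} {B : Set V}

open Classical in
/-- the chains are the functions on the cliques -/
noncomputable def KKe (G : SimpleGraph V) (i : ℕ) :
    KK G (triv V) Set.univ ∅ i ≃ₗ[ℝ] ({T : Finset V // G.IsClique (T : Set V) ∧ T.card = i} → ℝ) where
  toFun c T := c.1 T.1
  invFun f := ⟨fun T => if h : G.IsClique (T : Set V) ∧ T.card = i then f ⟨T, h⟩ else 0, by
    rw [mem_KK_triv]
    intro T hT
    exact dif_neg fun hh => hT ⟨hh.1, Set.subset_univ _, hh.2⟩⟩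
  map_add' c d := rfl
  map_smul' r c := rfl
  left_inv c := by
    refine Subtype.ext (funext fun T => ?_)
    show (if h : G.IsClique (T : Set V) ∧ T.card = i then c.1 T else 0) = c.1 T
    split_ifs with h
    · rfl
    · exact (mem_KK_triv.1 c.2 T fun hh => h ⟨hh.1, hh.2.2⟩).symm
  right_inv f := by
    funext T
    exact dif_pos T.2

open Classical in
theorem dim_KK (G : SimpleGraph V) (i : ℕ) : finrank ℝ (KK G (triv V) Set.univ ∅ i) =
    (Finset.univ.filter fun T : Finset V => G.IsClique (T : Set V) ∧ T.card = i).card := by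
  rw [(KKe G i).finrank_eq, Module.finrank_fintype_fun_eq_card, Fintype.card_subtype]

theorem euler_triv (G : SimpleGraph V) : ∑ i ∈ Finset.range (Fintype.card V + 1), (-1 : ℤ) ^ i *
    (beta G (triv V) Set.univ ∅ i : ℤ) = 1 - chiF G := by
  classical
  rw [euler G (triv V) Set.univ ∅ (Fintype.card V)]
  have hBB : finrank ℝ (BB G (triv V) Set.univ ∅ (Fintype.card V)) = 0 := by
    unfold BB
    rw [KK_big G _ Set.univ ∅ (by omega : Fintype.card V < Fintype.card V + 1),
      Submodule.map_bot, finrank_bot]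
  rw [hBB, Nat.cast_zero, mul_zero, sub_zero]
  have h1 : ∀ i ∈ Finset.range (Fintype.card V + 1), (-1 : ℤ) ^ i * (finrank ℝ (KK G (triv V) Set.univ ∅ i) : ℤ) =
      ∑ T : Finset V, if G.IsClique (T : Set V) ∧ T.card = i then (-1 : ℤ) ^ T.card else 0 := by
    intro i _
    rw [dim_KK, ← Finset.sum_filter, Finset.card_eq_sum_ones, Nat.cast_sum, Finset.mul_sum]
    refine Finset.sum_congr rfl fun T hT => ?_
    rw [(Finset.mem_filter.1 hT).2.2]
    simp
  rw [Finset.sum_congr rfl h1, Finset.sum_comm]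
  have h2 : ∀ T : Finset V, ∑ i ∈ Finset.range (Fintype.card V + 1),
      (if G.IsClique (T : Set V) ∧ T.card = i then (-1 : ℤ) ^ T.card else 0) =
      if G.IsClique (T : Set V) then (-1 : ℤ) ^ T.card else 0 := by
    intro T
    by_cases h : G.IsClique (T : Set V)
    · rw [if_pos h, Finset.sum_eq_single T.card]
      · rw [if_pos ⟨h, rfl⟩]
      · intro i _ hi
        exact if_neg fun hh => hi hh.2.symm
      · intro hn
        exfalso
        apply hn
        rw [Finset.mem_range]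
        have := Finset.card_le_univ T
        omega
    · rw [if_neg h]
      exact Finset.sum_eq_zero fun i _ => if_neg fun hh => h hh.1
  rw [Finset.sum_congr rfl fun T _ => h2 T]
  have hchi : chiF G = ∑ T ∈ Finset.univ.erase (∅ : Finset V), if G.IsClique (T : Set V) then
      (-1 : ℤ) ^ (T.card + 1) else 0 := by
    unfold chiF
    rw [← Finset.add_sum_erase Finset.univ _ (Finset.mem_univ (∅ : Finset V)),
      if_neg (fun h => Finset.not_nonempty_empty h.1), zero_add]
    refine Finset.sum_congr rfl fun T hT => ?_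
    have hne : T.Nonempty := Finset.nonempty_iff_ne_empty.2 (Finset.ne_of_mem_erase hT)
    by_cases h : G.IsClique (T : Set V)
    · rw [if_pos ⟨hne, h⟩, if_pos h]
    · rw [if_neg fun hh => h hh.2, if_neg h]
  rw [hchi, ← Finset.add_sum_erase Finset.univ _ (Finset.mem_univ (∅ : Finset V))]
  have h3 : (if G.IsClique ((∅ : Finset V) : Set V) then (-1 : ℤ) ^ (∅ : Finset V).card else 0) = 1 := by
    rw [if_pos (by simp)]
    simp
  rw [h3, sub_eq_add_neg, ← Finset.sum_neg_distrib]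
  congr 1
  refine Finset.sum_congr rfl fun T _ => ?_
  by_cases h : G.IsClique (T : Set V)
  · rw [if_pos h, if_pos h, pow_succ]
    ring
  · rw [if_neg h, if_neg h, neg_zero]

theorem beta_top {n : ℕ} (hS : ∀ T : Finset V, G.IsClique (T : Set V) → T.card ≤ n) {i : ℕ} (hi : n < i) :
    beta G (triv V) Set.univ ∅ i = 0 := by
  have h : KK G (triv V) Set.univ ∅ i = ⊥ := by
    rw [eq_bot_iff]
    intro c hc
    rw [mem_KK_triv] at hc
    rw [Submodule.mem_bot]
    funext T
    refine hc T ?_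
    rintro ⟨h1, _, h3⟩
    have := hS T h1
    omega
  unfold beta ZZ
  rw [h, bot_inf_eq, finrank_bot, Nat.zero_sub]

theorem alt_chiF {m : ℕ} (hS : ∀ T : Finset V, G.IsClique (T : Set V) → T.card ≤ 2 * m + 1) :
    (-1 : ℤ) ^ m * (chiF G - 1) = - tbA G Set.univ m + (beta G (triv V) Set.univ ∅ (m + 1) : ℤ) -
      ∑ j ∈ Finset.range m, (-1 : ℤ) ^ j * (beta G (triv V) Set.univ ∅ (m + 2 + j) : ℤ) := by
  have h1 := euler_triv G
  have h2 : ∑ i ∈ Finset.range (Fintype.card V + 1), (-1 : ℤ) ^ i * (beta G (triv V) Set.univ ∅ i : ℤ) =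
      ∑ i ∈ Finset.range ((m + 1) + (m + 1)), (-1 : ℤ) ^ i * (beta G (triv V) Set.univ ∅ i : ℤ) := by
    have h3 : ∀ K, Fintype.card V + 1 ≤ K → ∑ i ∈ Finset.range (Fintype.card V + 1), (-1 : ℤ) ^ i *
        (beta G (triv V) Set.univ ∅ i : ℤ) = ∑ i ∈ Finset.range K, (-1 : ℤ) ^ i *
        (beta G (triv V) Set.univ ∅ i : ℤ) := by
      intro K hK
      refine Finset.sum_subset (Finset.range_subset_range.2 hK) fun i _ hi => ?_
      rw [Finset.mem_range] at hi
      rw [beta_big G _ Set.univ ∅ (by omega)]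
      simp
    have h4 : ∀ K, (m + 1) + (m + 1) ≤ K → ∑ i ∈ Finset.range ((m + 1) + (m + 1)), (-1 : ℤ) ^ i *
        (beta G (triv V) Set.univ ∅ i : ℤ) = ∑ i ∈ Finset.range K, (-1 : ℤ) ^ i *
        (beta G (triv V) Set.univ ∅ i : ℤ) := by
      intro K hK
      refine Finset.sum_subset (Finset.range_subset_range.2 hK) fun i _ hi => ?_
      rw [Finset.mem_range] at hi
      rw [beta_top hS (by omega)]
      simp
    rw [h3 (Fintype.card V + 1 + ((m + 1) + (m + 1))) (by omega),
      h4 (Fintype.card V + 1 + ((m + 1) + (m + 1))) (by omega)]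
  rw [h2, Finset.sum_range_add, Finset.sum_range_succ' (fun x => (-1 : ℤ) ^ (m + 1 + x) *
    (beta G (triv V) Set.univ ∅ (m + 1 + x) : ℤ)) m] at h1
  have h5 : chiF G - 1 = - (1 - chiF G) := by ring
  rw [h5, ← h1]
  unfold tbA
  rw [mul_neg, mul_add, mul_add, Finset.mul_sum, Finset.mul_sum]
  have e1 : ∑ i ∈ Finset.range (m + 1), (-1 : ℤ) ^ m * ((-1 : ℤ) ^ i * (beta G (triv V) Set.univ ∅ i : ℤ)) =
      ∑ i ∈ Finset.range (m + 1), (-1 : ℤ) ^ (m + i) * (beta G (triv V) Set.univ ∅ i : ℤ) := by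
    refine Finset.sum_congr rfl fun i _ => ?_
    rw [pow_add]; ring
  have e2 : ∑ i ∈ Finset.range m, (-1 : ℤ) ^ m * ((-1 : ℤ) ^ (m + 1 + (i + 1)) *
      (beta G (triv V) Set.univ ∅ (m + 1 + (i + 1)) : ℤ)) =
      ∑ j ∈ Finset.range m, (-1 : ℤ) ^ j * (beta G (triv V) Set.univ ∅ (m + 2 + j) : ℤ) := by
    refine Finset.sum_congr rfl fun i _ => ?_
    have e3 : m + 1 + (i + 1) = m + 2 + i := by omega
    rw [e3, ← mul_assoc, ← pow_add]
    have e4 : m + (m + 2 + i) = 2 * (m + 1) + i := by omega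
    rw [e4, pow_add, pow_mul]
    norm_num
  have e3 : (-1 : ℤ) ^ m * ((-1 : ℤ) ^ (m + 1 + 0) * (beta G (triv V) Set.univ ∅ (m + 1 + 0) : ℤ)) =
      - (beta G (triv V) Set.univ ∅ (m + 1) : ℤ) := by
    rw [add_zero, ← mul_assoc, ← pow_add]
    have e4 : m + (m + 1) = 2 * m + 1 := by omega
    rw [e4, pow_add, pow_mul]
    norm_num
  rw [e1, e2, e3]
  ring

/-- the local contribution of a homology manifold with boundary -/
noncomputable def kap (G : SimpleGraph V) (B : Set V) [Fintype ↥B] : ℚ := (chiF G : ℚ) - 1 + chiW (G.induce B)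

/-- the inequality for a homology manifold with boundary -/
theorem piece_ineq {m : ℕ} (hm : 1 ≤ m) [Fintype ↥B] (hS : MB (2 * m + 1) G B) {o : Finset V → ℝ}
    (ho : OB (2 * m + 1) G B o) (hne : ∀ v ∈ B, ∃ T : Finset V, v ∈ T ∧ bd ℝ o T ≠ 0)
    (hL : Mfd (2 * m) (G.induce B)) (h : ∀ i : ℕ, m < i → L2Van (G.induce B) i) :
    (beta G (triv V) Set.univ ∅ (m + 1) : ℚ) -
      2 * ∑ j ∈ Finset.range m, (beta G (triv V) Set.univ ∅ (m + 2 + j) : ℚ) ≤ (-1 : ℚ) ^ m * kap G B := by
  have h1 := cd_manifold hm hL (ori_boundary ho hne) h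
  have h2 : tb (G.induce B) m = tbA G B m := by
    unfold tb tbA
    refine Finset.sum_congr rfl fun i _ => ?_
    rw [beta_induce]
  rw [h2] at h1
  have h3 := tb_boundary hS ho
  have h4 := alt_chiF hS.big
  have h5 : ∑ i ∈ Finset.range m, (beta G (triv V) Set.univ ∅ (2 * m + 1 - i) : ℤ) =
      ∑ j ∈ Finset.range m, (beta G (triv V) Set.univ ∅ (m + 2 + j) : ℤ) := by
    rw [← Finset.sum_range_reflect]
    refine Finset.sum_congr rfl fun j hj => ?_
    rw [Finset.mem_range] at hj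
    congr 2
    omega
  have h6 : ∑ j ∈ Finset.range m, (-1 : ℤ) ^ j * (beta G (triv V) Set.univ ∅ (m + 2 + j) : ℤ) ≤
      ∑ j ∈ Finset.range m, (beta G (triv V) Set.univ ∅ (m + 2 + j) : ℤ) := by
    refine Finset.sum_le_sum fun j _ => ?_
    have h7 : (0 : ℤ) ≤ (beta G (triv V) Set.univ ∅ (m + 2 + j) : ℤ) := Nat.cast_nonneg _
    rcases neg_one_pow_eq_or ℤ j with h8 | h8
    · rw [h8]; linarith
    · rw [h8]; linarith
  rw [h5] at h3
  have h7 : (beta G (triv V) Set.univ ∅ (m + 1) : ℤ) -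
      2 * ∑ j ∈ Finset.range m, (beta G (triv V) Set.univ ∅ (m + 2 + j) : ℤ) ≤
      (-1 : ℤ) ^ m * (chiF G - 1) + tbA G B m := by
    rw [h4]
    linarith
  have h8 : (beta G (triv V) Set.univ ∅ (m + 1) : ℚ) -
      2 * ∑ j ∈ Finset.range m, (beta G (triv V) Set.univ ∅ (m + 2 + j) : ℚ) ≤
      (-1 : ℚ) ^ m * ((chiF G : ℚ) - 1) + (tbA G B m : ℚ) := by exact_mod_cast h7
  unfold kap
  rw [mul_add]
  linarith

end Abs

end Pool.Agent.H77CM
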