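import Pool.Agent.H77CM.A10

set_option autoImplicit false
set_option linter.unusedSectionVars false

/-!
# Finite coverings
-/

namespace Pool.Agent.H77CM

open Pool.Agent.W907.SG Pool.Agent.W907.SM Pool.Agent.TH652.Dual Module

/-- `q` is a covering with `d` sheets from the flag complex of `G'` to the flag complex of `G` -/
structure IsCov {V' V : Type} (G' : SimpleGraph V') (G : SimpleGraph V) (q : V' → V) (d : ℕ) : Prop where
  deg : ∀ v : V, {x : V' | q x = v}.ncard = d
  adj : ∀ x y : V', G'.Adj x y → G.Adj (q x) (q y)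
  lift : ∀ (x : V') (v : V), G.Adj (q x) v → ∃! y : V', G'.Adj x y ∧ q y = v
  flag : ∀ x y z : V', G'.Adj x y → G'.Adj x z → G.Adj (q y) (q z) → G'.Adj y z

section Cov

variable {V' V : Type} [Fintype V'] [Fintype V] [DecidableEq V'] [DecidableEq V] {G' : SimpleGraph V'}
  {G : SimpleGraph V} {q : V' → V} {d : ℕ}

theorem cov_inj (h : IsCov G' G q d) {T : Finset V'} (hT : G'.IsClique (T : Set V')) : Set.InjOn q (T : Set V') := by
  intro x hx y hy hxy
  by_contra hne
  have h1 := h.adj x y (hT hx hy hne)
  rw [hxy] at h1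
  exact G.irrefl h1

theorem cov_clique (h : IsCov G' G q d) {T : Finset V'} (hT : G'.IsClique (T : Set V')) :
    G.IsClique ((T.image q : Finset V) : Set V) := by
  intro u hu v hv huv
  rw [Finset.coe_image] at hu hv
  obtain ⟨x, hx, rfl⟩ := hu
  obtain ⟨y, hy, rfl⟩ := hv
  exact h.adj x y (hT hx hy (fun e => huv (congrArg q e)))

open Classical in
/-- cliques containing a vertex -/
noncomputable def star (G : SimpleGraph V) (v : V) : Finset (Finset V) :=
  Finset.univ.filter fun T => G.IsClique (T : Set V) ∧ v ∈ T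

theorem mem_star {v : V} {T : Finset V} : T ∈ star G v ↔ G.IsClique (T : Set V) ∧ v ∈ T := by
  classical
  simp [star]

/-- the stars of a vertex and of its image -/
theorem star_sum (h : IsCov G' G q d) (x : V') (F : Finset V → ℚ) :
    ∑ T ∈ star G' x, F (T.image q) = ∑ T ∈ star G (q x), F T := by
  classical
  refine Finset.sum_bij (fun T _ => T.image q) ?_ ?_ ?_ ?_
  · intro T hT
    rw [mem_star] at hT ⊢
    exact ⟨cov_clique h hT.1, Finset.mem_image_of_mem q hT.2⟩
  · intro T hT T' hT' he
    rw [mem_star] at hT hT'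
    have key : ∀ T T' : Finset V', G'.IsClique (T : Set V') → x ∈ T → G'.IsClique (T' : Set V') → x ∈ T' →
        T.image q = T'.image q → T ⊆ T' := by
      intro T T' hT hx hT' hx' he y hy
      have h1 : q y ∈ T'.image q := he ▸ Finset.mem_image_of_mem q hy
      obtain ⟨z, hz, hzy⟩ := Finset.mem_image.1 h1
      by_cases hyx : y = x
      · rw [hyx]; exact hx'
      · have hxy : G'.Adj x y := hT hx hy (fun e => hyx e.symm)
        have hzx : z ≠ x := by
          rintro rfl
          have h2 := h.adj z y hxy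
          rw [hzy] at h2
          exact G.irrefl h2
        have hxz : G'.Adj x z := hT' hx' hz (fun e => hzx e.symm)
        obtain ⟨w, _, hw⟩ := h.lift x (q y) (h.adj x y hxy)
        have h2 := hw y ⟨hxy, rfl⟩
        have h3 := hw z ⟨hxz, hzy⟩
        rw [h2, ← h3]
        exact hz
    exact Finset.Subset.antisymm (key T T' hT.1 hT.2 hT'.1 hT'.2 he) (key T' T hT'.1 hT'.2 hT.1 hT.2 he.symm)
  · intro S hS
    rw [mem_star] at hS
    have hl : ∀ v ∈ S, v ≠ q x → ∃ y, G'.Adj x y ∧ q y = v := by
      intro v hv hne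
      obtain ⟨y, hy, _⟩ := h.lift x v (hS.1 hS.2 hv (fun e => hne e.symm))
      exact ⟨y, hy⟩
    have : Nonempty V' := ⟨x⟩
    choose! y hy using hl
    refine ⟨insert x ((S.erase (q x)).image y), ?_, ?_⟩
    · rw [mem_star]
      refine ⟨?_, Finset.mem_insert_self _ _⟩
      have h1 : ∀ u ∈ S.erase (q x), G'.Adj x (y u) := fun u hu =>
        (hy u (Finset.mem_of_mem_erase hu) (Finset.ne_of_mem_erase hu)).1
      have h2 : ∀ u ∈ S.erase (q x), ∀ v ∈ S.erase (q x), y u ≠ y v → G'.Adj (y u) (y v) := by
        intro u hu v hv hne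
        refine h.flag x _ _ (h1 u hu) (h1 v hv) ?_
        rw [(hy u (Finset.mem_of_mem_erase hu) (Finset.ne_of_mem_erase hu)).2,
          (hy v (Finset.mem_of_mem_erase hv) (Finset.ne_of_mem_erase hv)).2]
        exact hS.1 (Finset.mem_of_mem_erase hu) (Finset.mem_of_mem_erase hv) (fun e => hne (congrArg y e))
      intro a ha b hb hab
      rw [Finset.mem_coe, Finset.mem_insert, Finset.mem_image] at ha hb
      rcases ha with rfl | ⟨u, hu, rfl⟩ <;> rcases hb with rfl | ⟨v, hv, rfl⟩
      · exact absurd rfl hab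
      · exact h1 v hv
      · exact (h1 u hu).symm
      · exact h2 u hu v hv hab
    · rw [Finset.image_insert, Finset.image_image]
      have h1 : (S.erase (q x)).image (q ∘ y) = S.erase (q x) := by
        have h2 : ∀ u ∈ S.erase (q x), (q ∘ y) u = u := fun u hu =>
          (hy u (Finset.mem_of_mem_erase hu) (Finset.ne_of_mem_erase hu)).2
        rw [Finset.image_congr (g := id) (fun u hu => h2 u hu), Finset.image_id]
      rw [h1, Finset.insert_erase hS.2]
  · intro T _
    rfl

open Classical in
/-- sums over the nonempty cliques -/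
noncomputable def cs (G : SimpleGraph V) (F : Finset V → ℚ) : ℚ :=
  ∑ T : Finset V, if T.Nonempty ∧ G.IsClique (T : Set V) then F T else 0

theorem cs_star (F : Finset V → ℚ) : cs G F = ∑ v : V, ∑ T ∈ star G v, F T / T.card := by
  classical
  have h1 : ∀ v : V, ∑ T ∈ star G v, F T / T.card = ∑ T : Finset V,
      if v ∈ T then (if G.IsClique (T : Set V) then F T / T.card else 0) else 0 := by
    intro v
    unfold star
    rw [Finset.sum_filter]
    refine Finset.sum_congr rfl fun T _ => ?_
    by_cases h1 : G.IsClique (T : Set V) <;> by_cases h2 : v ∈ T <;> simp [h1, h2]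
  rw [Finset.sum_congr rfl fun v _ => h1 v, Finset.sum_comm]
  unfold cs
  refine Finset.sum_congr rfl fun T _ => ?_
  rw [← Finset.sum_filter]
  have h2 : Finset.univ.filter (fun v => v ∈ T) = T := by ext; simp
  rw [h2, Finset.sum_const, nsmul_eq_mul]
  by_cases h : G.IsClique (T : Set V)
  · rcases T.eq_empty_or_nonempty with h3 | h3
    · subst h3
      simp
    · rw [if_pos ⟨h3, h⟩, if_pos h]
      have h4 : (T.card : ℚ) ≠ 0 := by
        have := Finset.card_pos.2 h3
        exact_mod_cast this.ne'
      field_simp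
  · rw [if_neg fun hh => h hh.2, if_neg h, mul_zero]

/-- sums over the nonempty cliques of a covering -/
theorem cs_cov (h : IsCov G' G q d) (F : Finset V → ℚ) : cs G' (fun T => F (T.image q)) = d * cs G F := by
  classical
  rw [cs_star, cs_star, Finset.mul_sum]
  have h1 : ∀ x : V', ∑ T ∈ star G' x, F (T.image q) / T.card = ∑ T ∈ star G (q x), F T / T.card := by
    intro x
    rw [← star_sum h x (fun T => F T / T.card)]
    refine Finset.sum_congr rfl fun T hT => ?_
    rw [Finset.card_image_of_injOn (cov_inj h (mem_star.1 hT).1)]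
  rw [Finset.sum_congr rfl fun x _ => h1 x]
  rw [← Finset.sum_fiberwise_of_maps_to (s := Finset.univ) (t := Finset.univ) (g := q)
    (fun x _ => Finset.mem_univ _) (fun x => ∑ T ∈ star G (q x), F T / T.card)]
  refine Finset.sum_congr rfl fun v _ => ?_
  have h2 : ∀ x ∈ Finset.univ.filter (fun x => q x = v), ∑ T ∈ star G (q x), F T / T.card =
      ∑ T ∈ star G v, F T / T.card := by
    intro x hx
    rw [(Finset.mem_filter.1 hx).2]
  rw [Finset.sum_congr rfl h2, Finset.sum_const, nsmul_eq_mul]
  congr 2
  rw [← h.deg v, Set.ncard_eq_toFinset_card']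
  congr 1
  ext x
  simp

end Cov

section Kap

variable {V : Type} [Fintype V] [LinearOrder V] {G : SimpleGraph V} {B : Set V} [Fintype ↥B]

open Classical in
theorem chiW_induce : chiW (G.induce B) =
    1 + ∑ T : Finset V, if T.Nonempty ∧ G.IsClique (T : Set V) then
      (if (T : Set V) ⊆ B then (-1 / 2 : ℚ) ^ T.card else 0) else 0 := by
  have h1 : chiW (G.induce B) = ∑ T : Finset V, if G.IsClique (T : Set V) then
      (if (T : Set V) ⊆ B then (-1 / 2 : ℚ) ^ T.card else 0) else 0 := by
    unfold chiW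
    refine Finset.sum_bij_ne_zero (fun T _ _ => T.map (emb B)) (fun _ _ _ => Finset.mem_univ _) ?_ ?_ ?_
    · intro T _ _ T' _ _ h
      exact Finset.map_injective _ h
    · intro T _ hT
      have hcl : G.IsClique (T : Set V) := by
        by_contra hn
        exact hT (if_neg hn)
      have hB : (T : Set V) ⊆ B := by
        by_contra hn
        exact hT (by rw [if_pos hcl, if_neg hn])
      refine ⟨cap B T, Finset.mem_univ _, ?_, map_cap hB⟩
      rw [if_pos ((clique_cap hB).2 hcl)]
      positivity
    · intro T _ hT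
      have hcl : (G.induce B).IsClique (T : Set ↥B) := by
        by_contra hn
        exact hT (if_neg hn)
      rw [if_pos hcl, if_pos ((clique_map T).2 hcl), if_pos (map_sub T), Finset.card_map]
  rw [h1, ← Finset.add_sum_erase Finset.univ _ (Finset.mem_univ (∅ : Finset V)),
    ← Finset.add_sum_erase (a := (∅ : Finset V)) (s := Finset.univ) (f := fun T : Finset V =>
      if T.Nonempty ∧ G.IsClique (T : Set V) then
      (if (T : Set V) ⊆ B then (-1 / 2 : ℚ) ^ T.card else 0) else 0) (h := Finset.mem_univ _)]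
  have h3 : (if G.IsClique ((∅ : Finset V) : Set V) then (if ((∅ : Finset V) : Set V) ⊆ B then
      (-1 / 2 : ℚ) ^ (∅ : Finset V).card else 0) else 0) = 1 := by
    rw [if_pos (by simp), if_pos (by simp)]
    simp
  rw [h3, if_neg (fun h => Finset.not_nonempty_empty h.1), zero_add]
  congr 1
  refine Finset.sum_congr rfl fun T hT => ?_
  have hne : T.Nonempty := Finset.nonempty_iff_ne_empty.2 (Finset.ne_of_mem_erase hT)
  by_cases h : G.IsClique (T : Set V)
  · rw [if_pos h]
    exact (if_pos ⟨hne, h⟩).symm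
  · rw [if_neg h]
    exact (if_neg fun hh => h hh.2).symm

open Classical in
/-- the weight of a simplex -/
noncomputable def wt (B : Set V) (T : Finset V) : ℚ :=
  (-1 : ℚ) ^ (T.card + 1) + if (T : Set V) ⊆ B then (-1 / 2 : ℚ) ^ T.card else 0

theorem kap_eq : kap G B = cs G (wt B) := by
  classical
  unfold kap
  rw [chiW_induce]
  have h1 : (chiF G : ℚ) = ∑ T : Finset V, if T.Nonempty ∧ G.IsClique (T : Set V) then (-1 : ℚ) ^ (T.card + 1)
      else 0 := by
    unfold chiF
    push_cast
    rfl
  rw [h1]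
  unfold cs wt
  have h2 : ∀ T : Finset V, (if T.Nonempty ∧ G.IsClique (T : Set V) then
      ((-1 : ℚ) ^ (T.card + 1) + if (T : Set V) ⊆ B then (-1 / 2 : ℚ) ^ T.card else 0) else 0) =
      (if T.Nonempty ∧ G.IsClique (T : Set V) then (-1 : ℚ) ^ (T.card + 1) else 0) +
      (if T.Nonempty ∧ G.IsClique (T : Set V) then
      (if (T : Set V) ⊆ B then (-1 / 2 : ℚ) ^ T.card else 0) else 0) := by
    intro T
    split_ifs <;> simp
  rw [Finset.sum_congr rfl fun T _ => h2 T, Finset.sum_add_distrib]
  ring

/-- the local contribution is multiplicative in coverings -/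
theorem kap_cov {V' : Type} [Fintype V'] [LinearOrder V'] {G' : SimpleGraph V'} {q : V' → V} {d : ℕ}
    (h : IsCov G' G q d) [Fintype ↥(q ⁻¹' B)] : kap G' (q ⁻¹' B) = d * kap G B := by
  classical
  rw [kap_eq, kap_eq, ← cs_cov h]
  unfold cs
  refine Finset.sum_congr rfl fun T _ => ?_
  by_cases hT : T.Nonempty ∧ G'.IsClique (T : Set V')
  · rw [if_pos hT, if_pos hT]
    unfold wt
    show _ = (-1 : ℚ) ^ ((T.image q).card + 1) + if ((T.image q : Finset V) : Set V) ⊆ B then
      (-1 / 2 : ℚ) ^ (T.image q).card else 0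
    rw [Finset.card_image_of_injOn (cov_inj h hT.2)]
    congr 1
    have h3 : ((T : Set V') ⊆ q ⁻¹' B) ↔ (((T.image q : Finset V) : Set V) ⊆ B) := by
      rw [Finset.coe_image, Set.image_subset_iff]
    by_cases h4 : (T : Set V') ⊆ q ⁻¹' B
    · rw [if_pos h4, if_pos (h3.1 h4)]
    · rw [if_neg h4, if_neg (fun hh => h4 (h3.2 hh))]
  · rw [if_neg hT, if_neg hT]

end Kap

end Pool.Agent.H77CM
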