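import Pool.Agent.H77CM.A11

set_option autoImplicit false
set_option linter.unusedSectionVars false

/-!
# Betti numbers of isomorphic complexes and of coverings
-/

namespace Pool.Agent.H77CM

open Pool.Agent.W907.SG Pool.Agent.W907.SM Pool.Agent.TH652.Dual Module
open Pool.Agent.W397.SG (rank_null)

section Eps

variable {V' V : Type} [LinearOrder V'] [LinearOrder V]

/-- the factor of a pair -/
def hp (q : V' → V) (x y : V') : ℤ := if x < y ∧ ¬ q x < q y then -1 else 1

/-- the sign comparing two orders -/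
def eps (q : V' → V) (T : Finset V') : ℤ := ∏ x ∈ T, ∏ y ∈ T, hp q x y

theorem hp_mul_self (q : V' → V) (x y : V') : hp q x y * hp q x y = 1 := by
  unfold hp
  split_ifs <;> norm_num

theorem eps_mul_self (q : V' → V) (T : Finset V') : eps q T * eps q T = 1 := by
  unfold eps
  rw [← Finset.prod_mul_distrib]
  refine Finset.prod_eq_one fun x _ => ?_
  rw [← Finset.prod_mul_distrib]
  exact Finset.prod_eq_one fun y _ => hp_mul_self q x y

theorem eps_insert (q : V' → V) {v : V'} {T : Finset V'} (hv : v ∉ T) :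
    eps q (insert v T) = eps q T * ∏ t ∈ T, (hp q v t * hp q t v) := by
  unfold eps
  have h1 : hp q v v = 1 := if_neg fun h => lt_irrefl v h.1
  rw [Finset.prod_insert hv, Finset.prod_insert hv, h1, one_mul, Finset.prod_mul_distrib]
  have h2 : ∀ x ∈ T, ∏ y ∈ insert v T, hp q x y = hp q x v * ∏ y ∈ T, hp q x y := fun x _ =>
    Finset.prod_insert hv
  rw [Finset.prod_congr rfl h2, Finset.prod_mul_distrib]
  ring

theorem eps_sg [Fintype V'] [Fintype V] {q : V' → V} {v : V'} {T : Finset V'} (hv : v ∉ T)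
    (hq : Set.InjOn q ((insert v T : Finset V') : Set V')) :
    eps q (insert v T) * sg v T = eps q T * sg (q v) (T.image q) := by
  have hinj : Set.InjOn q (T : Set V') := hq.mono (by simp)
  rw [eps_insert q hv, sg_prod, sg_prod, Finset.prod_image (fun x hx y hy h => hinj hx hy h), mul_assoc,
    ← Finset.prod_mul_distrib]
  congr 1
  refine Finset.prod_congr rfl fun t ht => ?_
  have hne : v ≠ t := fun e => hv (e ▸ ht)
  have hne2 : q v ≠ q t := fun e => hne (hq (by simp) (by simp [ht]) e)
  unfold hp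
  rcases lt_or_gt_of_ne hne with h | h <;> rcases lt_or_gt_of_ne hne2 with h' | h'
  · simp [h, h', not_lt.2 h.le, not_lt.2 h'.le]
  · simp [h, h', not_lt.2 h.le, not_lt.2 (le_of_lt h')]
  · simp [h, h', not_lt.2 (le_of_lt h), not_lt.2 h'.le]
  · simp [h, h', not_lt.2 (le_of_lt h), not_lt.2 (le_of_lt h')]

end Eps

section Bij

variable {V' V : Type} [Fintype V'] [Fintype V] [LinearOrder V'] [LinearOrder V] {G' : SimpleGraph V'}
  {G : SimpleGraph V} {q : V' → V} {A' : Set V'} {A : Set V}

open Classical in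
/-- the pull back of chains -/
noncomputable def pb (q : V' → V) (A' : Set V') : (Finset V → ℝ) →ₗ[ℝ] (Finset V' → ℝ) where
  toFun c T := if (T : Set V') ⊆ A' then (eps q T : ℝ) * c (T.image q) else 0
  map_add' c d := by
    funext T
    rw [Pi.add_apply, Pi.add_apply]
    split_ifs
    · ring
    · rw [add_zero]
  map_smul' r c := by
    funext T
    rw [RingHom.id_apply, Pi.smul_apply, Pi.smul_apply]
    split_ifs
    · rw [smul_eq_mul, smul_eq_mul]
      ring
    · rw [smul_zero]

theorem pb_pos {c : Finset V → ℝ} {T : Finset V'} (h : (T : Set V') ⊆ A') :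
    pb q A' c T = (eps q T : ℝ) * c (T.image q) := if_pos h

theorem pb_neg {c : Finset V → ℝ} {T : Finset V'} (h : ¬ (T : Set V') ⊆ A') : pb q A' c T = 0 := if_neg h

theorem eps_ne (q : V' → V) (T : Finset V') : (eps q T : ℝ) ≠ 0 := by
  intro h
  have h1 : (eps q T : ℝ) * (eps q T : ℝ) = 1 := by exact_mod_cast eps_mul_self q T
  rw [h] at h1
  norm_num at h1

theorem bd_pb (hq : Set.BijOn q A' A) {c : Finset V → ℝ} (hc : ∀ T : Finset V, ¬ (T : Set V) ⊆ A → c T = 0) :
    bd ℝ (pb q A' c) = pb q A' (bd ℝ c) := by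
  funext T
  rw [bd_apply]
  by_cases h : (T : Set V') ⊆ A'
  · rw [pb_pos h, bd_apply, Finset.mul_sum]
    refine Finset.sum_bij_ne_zero (fun v _ _ => q v) ?_ ?_ ?_ ?_
    · intro v hv h0
      rw [Finset.mem_compl] at hv
      have hvA : v ∈ A' := by
        by_contra hn
        apply h0
        rw [pb_neg, smul_zero]
        exact fun hh => hn (hh (by simp))
      rw [Finset.mem_compl, Finset.mem_image]
      rintro ⟨t, ht, htv⟩
      exact hv (hq.injOn (h ht) hvA htv ▸ ht)
    · intro v hv h0 u hu h0' huv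
      have key : ∀ w : V', sg w T • pb q A' c (insert w T) ≠ 0 → w ∈ A' := by
        intro w h0
        by_contra hn
        apply h0
        rw [pb_neg, smul_zero]
        exact fun hh => hn (hh (by simp))
      exact hq.injOn (key v h0) (key u h0') huv
    · intro v hv h0
      rw [Finset.mem_compl] at hv
      have hvA : v ∈ A := by
        by_contra hn
        apply h0
        rw [hc, smul_zero, mul_zero]
        exact fun hh => hn (hh (by simp))
      obtain ⟨w, hw, rfl⟩ := hq.surjOn hvA
      have hwT : w ∉ T := fun hh => hv (Finset.mem_image_of_mem q hh)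
      have hA : ((insert w T : Finset V') : Set V') ⊆ A' := by
        intro u hu
        rw [Finset.mem_coe, Finset.mem_insert] at hu
        rcases hu with rfl | hu
        · exact hw
        · exact h hu
      refine ⟨w, by rwa [Finset.mem_compl], ?_, rfl⟩
      rw [pb_pos hA, Finset.image_insert]
      intro h1
      apply h0
      have h2 : c (insert (q w) (T.image q)) = 0 := by
        rw [zsmul_eq_mul] at h1
        rcases mul_eq_zero.1 h1 with h3 | h3
        · rcases sg_eq_or w T with h4 | h4 <;> rw [h4] at h3 <;> norm_num at h3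
        · rcases mul_eq_zero.1 h3 with h4 | h4
          · exact absurd h4 (eps_ne q _)
          · exact h4
      rw [h2, smul_zero, mul_zero]
    · intro v hv h0
      rw [Finset.mem_compl] at hv
      have hA : ((insert v T : Finset V') : Set V') ⊆ A' := by
        by_contra hn
        apply h0
        rw [pb_neg hn, smul_zero]
      rw [pb_pos hA, Finset.image_insert, zsmul_eq_mul, zsmul_eq_mul]
      have h1 := eps_sg hv (hq.injOn.mono hA)
      have h2 : (eps q (insert v T) : ℝ) * (sg v T : ℝ) = (eps q T : ℝ) * (sg (q v) (T.image q) : ℝ) := by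
        exact_mod_cast h1
      linear_combination (c (insert (q v) (T.image q))) * h2
  · rw [pb_neg h]
    refine Finset.sum_eq_zero fun v _ => ?_
    rw [pb_neg, smul_zero]
    exact fun hh => h (Set.Subset.trans (by simp) hh)

theorem clique_image (hq : Set.BijOn q A' A) (hadj : ∀ x ∈ A', ∀ y ∈ A', G'.Adj x y ↔ G.Adj (q x) (q y))
    {T : Finset V'} (h : (T : Set V') ⊆ A') : G.IsClique ((T.image q : Finset V) : Set V) ↔ G'.IsClique (T : Set V') := by
  constructor
  · intro hc x hx y hy hxy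
    refine (hadj x (h hx) y (h hy)).2 (hc ?_ ?_ fun e => hxy (hq.injOn (h hx) (h hy) e))
    · exact Finset.mem_coe.2 (Finset.mem_image_of_mem q hx)
    · exact Finset.mem_coe.2 (Finset.mem_image_of_mem q hy)
  · intro hc u hu v hv huv
    rw [Finset.mem_coe, Finset.mem_image] at hu hv
    obtain ⟨x, hx, rfl⟩ := hu
    obtain ⟨y, hy, rfl⟩ := hv
    exact (hadj x (h hx) y (h hy)).1 (hc hx hy fun e => huv (congrArg q e))

theorem image_sub (hq : Set.BijOn q A' A) {T : Finset V'} (h : (T : Set V') ⊆ A') :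
    ((T.image q : Finset V) : Set V) ⊆ A := by
  intro u hu
  rw [Finset.mem_coe, Finset.mem_image] at hu
  obtain ⟨x, hx, rfl⟩ := hu
  exact hq.mapsTo (h hx)

theorem lift_finset (hq : Set.BijOn q A' A) {S : Finset V} (h : (S : Set V) ⊆ A) :
    ∃ T : Finset V', (T : Set V') ⊆ A' ∧ T.image q = S := by
  classical
  refine ⟨Finset.univ.filter fun x => x ∈ A' ∧ q x ∈ S, ?_, ?_⟩
  · intro x hx
    rw [Finset.mem_coe, Finset.mem_filter] at hx
    exact hx.2.1
  · ext v
    rw [Finset.mem_image]
    constructor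
    · rintro ⟨x, hx, rfl⟩
      exact (Finset.mem_filter.1 hx).2.2
    · intro hv
      obtain ⟨x, hx, rfl⟩ := hq.surjOn (h hv)
      exact ⟨x, Finset.mem_filter.2 ⟨Finset.mem_univ _, hx, hv⟩, rfl⟩

theorem pb_inj (hq : Set.BijOn q A' A) {c : Finset V → ℝ} (hc : ∀ T : Finset V, ¬ (T : Set V) ⊆ A → c T = 0)
    (h0 : pb q A' c = 0) : c = 0 := by
  funext S
  by_cases h : (S : Set V) ⊆ A
  · obtain ⟨T, hT, rfl⟩ := lift_finset hq h
    have h1 := congrFun h0 T
    rw [pb_pos hT, Pi.zero_apply] at h1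
    rcases mul_eq_zero.1 h1 with h2 | h2
    · exact absurd h2 (eps_ne q _)
    · exact h2
  · exact hc S h

theorem KK_pb (hq : Set.BijOn q A' A) (hadj : ∀ x ∈ A', ∀ y ∈ A', G'.Adj x y ↔ G.Adj (q x) (q y)) (i : ℕ) :
    KK G' (triv V') A' ∅ i = (KK G (triv V) A ∅ i).map (pb q A') := by
  classical
  ext c
  constructor
  · intro hc
    rw [mem_KK_triv] at hc
    have hl : ∀ S : Finset V, (S : Set V) ⊆ A → ∃ T : Finset V', (T : Set V') ⊆ A' ∧ T.image q = S :=
      fun S h => lift_finset hq h
    choose! L hL using hl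
    have hLq : ∀ T : Finset V', (T : Set V') ⊆ A' → L (T.image q) = T := by
      intro T hT
      have h1 := hL _ (image_sub hq hT)
      have h2 : ((L (T.image q) : Finset V') : Set V') = (T : Set V') := by
        refine (hq.injOn.image_eq_image_iff h1.1 hT).1 ?_
        rw [← Finset.coe_image, ← Finset.coe_image, h1.2]
      exact_mod_cast h2
    refine ⟨fun S => if (S : Set V) ⊆ A then (eps q (L S) : ℝ) * c (L S) else 0, ?_, ?_⟩
    · rw [SetLike.mem_coe, mem_KK_triv]
      intro S hS
      by_cases h : (S : Set V) ⊆ A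
      · have h1 := hL S h
        rw [if_pos h, hc (L S), mul_zero]
        rintro ⟨h2, _, h3⟩
        apply hS
        have h4 : (L S).image q = S := h1.2
        refine ⟨?_, h, ?_⟩
        · rw [← h4]
          exact (clique_image hq hadj h1.1).2 h2
        · rw [← h4, Finset.card_image_of_injOn (hq.injOn.mono h1.1)]
          exact h3
      · exact if_neg h
    · funext T
      by_cases h : (T : Set V') ⊆ A'
      · rw [pb_pos h, if_pos (image_sub hq h), hLq T h, ← mul_assoc]
        have h1 : (eps q T : ℝ) * (eps q T : ℝ) = 1 := by exact_mod_cast eps_mul_self q T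
        rw [h1, one_mul]
      · rw [pb_neg h, hc T fun hh => h hh.2.1]
  · rintro ⟨c, hc, rfl⟩
    rw [SetLike.mem_coe, mem_KK_triv] at hc
    rw [mem_KK_triv]
    intro T hT
    by_cases h : (T : Set V') ⊆ A'
    · rw [pb_pos h, hc (T.image q), mul_zero]
      rintro ⟨h2, _, h3⟩
      rw [Finset.card_image_of_injOn (hq.injOn.mono h)] at h3
      exact hT ⟨(clique_image hq hadj h).1 h2, h, h3⟩
    · exact pb_neg h

theorem KK_supp {i : ℕ} {c : Finset V → ℝ} (hc : c ∈ KK G (triv V) A ∅ i) (T : Finset V) (h : ¬ (T : Set V) ⊆ A) :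
    c T = 0 := (mem_KK_triv.1 hc) T fun hh => h hh.2.1

theorem beta_bij (hq : Set.BijOn q A' A) (hadj : ∀ x ∈ A', ∀ y ∈ A', G'.Adj x y ↔ G.Adj (q x) (q y)) (i : ℕ) :
    beta G' (triv V') A' ∅ i = beta G (triv V) A ∅ i := by
  have hZ : ZZ G' (triv V') A' ∅ i = (ZZ G (triv V) A ∅ i).map (pb q A') := by
    ext c
    constructor
    · rintro ⟨h1, h2⟩
      rw [SetLike.mem_coe, KK_pb hq hadj] at h1
      obtain ⟨d, hd, rfl⟩ := h1
      refine ⟨d, ⟨hd, ?_⟩, rfl⟩
      have h3 : bd ℝ (pb q A' d) = 0 := h2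
      rw [bd_pb hq (KK_supp hd)] at h3
      refine pb_inj hq (fun T hT => ?_) h3
      rw [bd_apply]
      refine Finset.sum_eq_zero fun v _ => ?_
      rw [KK_supp hd, smul_zero]
      exact fun hh => hT (Set.Subset.trans (by simp) hh)
    · rintro ⟨d, ⟨h1, h2⟩, rfl⟩
      refine ⟨?_, ?_⟩
      · rw [SetLike.mem_coe, KK_pb hq hadj]
        exact ⟨d, h1, rfl⟩
      · have h3 : bd ℝ d = 0 := h2
        show bd ℝ (pb q A' d) = 0
        rw [bd_pb hq (KK_supp h1), h3, map_zero]
  have hB : BB G' (triv V') A' ∅ i = (BB G (triv V) A ∅ i).map (pb q A') := by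
    unfold BB
    rw [KK_pb hq hadj]
    ext c
    constructor
    · rintro ⟨_, ⟨d, hd, rfl⟩, rfl⟩
      exact ⟨bd ℝ d, ⟨d, hd, rfl⟩, (bd_pb hq (KK_supp hd)).symm⟩
    · rintro ⟨_, ⟨d, hd, rfl⟩, rfl⟩
      exact ⟨pb q A' d, ⟨d, hd, rfl⟩, bd_pb hq (KK_supp hd)⟩
  have key : ∀ Z : Submodule ℝ (Finset V → ℝ), (∀ c ∈ Z, ∀ T : Finset V, ¬ (T : Set V) ⊆ A → c T = 0) →
      finrank ℝ (Z.map (pb q A')) = finrank ℝ Z := by
    intro Z hZ
    have h1 := rank_null (pb q A') Z
    have h2 : (Z ⊓ LinearMap.ker (pb q A') : Submodule ℝ (Finset V → ℝ)) = ⊥ := by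
      rw [eq_bot_iff]
      rintro c ⟨h3, h4⟩
      rw [Submodule.mem_bot]
      exact pb_inj hq (hZ c h3) h4
    rw [h2, finrank_bot] at h1
    omega
  unfold beta
  rw [hZ, hB, key, key]
  · intro c hc
    exact KK_supp ((BB_le_ZZ _ _ _ _ _) hc).1
  · intro c hc
    exact KK_supp hc.1

end Bij

end Pool.Agent.H77CM
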