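import Pool.Agent.H77CM.A12
import Pool.Agent.N504.RS.ClassC

set_option autoImplicit false
set_option linter.unusedSectionVars false

/-!
# Coverings of homology manifolds with boundary
-/

namespace Pool.Agent.H77CM

open Pool.Agent.W907.SG Pool.Agent.W907.SM Pool.Agent.TH652.Dual Module
open Pool.Agent.N504.RS.Cls (CR)

section Cov

variable {V' V : Type} [Fintype V'] [Fintype V] [LinearOrder V'] [LinearOrder V] {G' : SimpleGraph V'}
  {G : SimpleGraph V} {q : V' → V} {d : ℕ}

theorem cov_adj_iff (h : IsCov G' G q d) {x y z : V'} (hy : G'.Adj x y) (hz : G'.Adj x z) :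
    G'.Adj y z ↔ G.Adj (q y) (q z) := ⟨h.adj y z, h.flag x y z hy hz⟩

theorem cov_bij (h : IsCov G' G q d) {S : Finset V'} (hne : S.Nonempty) (hS : G'.IsClique (S : Set V')) :
    Set.BijOn q (lk G' S) (lk G (S.image q)) := by
  obtain ⟨x, hx⟩ := hne
  refine ⟨?_, ?_, ?_⟩
  · intro y hy u hu
    obtain ⟨s, hs, rfl⟩ := Finset.mem_image.1 hu
    exact h.adj y s (hy s hs)
  · intro y hy z hz hyz
    obtain ⟨w, _, hw⟩ := h.lift x (q y) (h.adj x y (hy x hx).symm)
    rw [hw y ⟨(hy x hx).symm, rfl⟩, hw z ⟨(hz x hx).symm, hyz.symm⟩]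
  · intro v hv
    obtain ⟨y, ⟨hy, rfl⟩, _⟩ := h.lift x v (hv (q x) (Finset.mem_image_of_mem q hx)).symm
    refine ⟨y, ?_, rfl⟩
    intro s hs
    by_cases e : s = x
    · rw [e]; exact hy.symm
    · exact h.flag x y s hy (hS hx hs (fun e' => e e'.symm)) (hv (q s) (Finset.mem_image_of_mem q hs))

theorem cov_beta (h : IsCov G' G q d) {S : Finset V'} (hne : S.Nonempty) (hS : G'.IsClique (S : Set V')) (i : ℕ) :
    beta G' (triv V') (lk G' S) ∅ i = beta G (triv V) (lk G (S.image q)) ∅ i := by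
  obtain ⟨x, hx⟩ := hne
  exact beta_bij (cov_bij h ⟨x, hx⟩ hS) (fun y hy z hz => cov_adj_iff h (hy x hx).symm (hz x hx).symm) i

theorem cov_Mfd (h : IsCov G' G q d) {n : ℕ} (hM : Mfd n G) : Mfd n G' := by
  intro S hne hS i
  rw [cov_beta h hne hS, hM (S.image q) (hne.image q) (cov_clique h hS), Finset.card_image_of_injOn (cov_inj h hS)]

theorem cov_MB (h : IsCov G' G q d) {n : ℕ} {B : Set V} (hM : MB n G B) : MB n G' (q ⁻¹' B) where
  big T hT := by
    rw [← Finset.card_image_of_injOn (cov_inj h hT)]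
    exact hM.big _ (cov_clique h hT)
  sph S hS hne i := by
    have hne1 : S.Nonempty := by
      rw [Finset.nonempty_iff_ne_empty]
      rintro rfl
      exact hne (by simp)
    rw [cov_beta h hne1 hS, hM.sph (S.image q) (cov_clique h hS), Finset.card_image_of_injOn (cov_inj h hS)]
    rw [Finset.coe_image, Set.image_subset_iff]
    exact hne
  col S hne hS hB i := by
    rw [cov_beta h hne hS]
    refine hM.col (S.image q) (hne.image q) (cov_clique h hS) ?_ i
    rw [Finset.coe_image, Set.image_subset_iff]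
    exact hB

theorem star_lift (h : IsCov G' G q d) (x : V') {S : Finset V} (hS : G.IsClique (S : Set V)) (hx : q x ∈ S) :
    ∃ T : Finset V', G'.IsClique (T : Set V') ∧ x ∈ T ∧ T.image q = S := by
  classical
  have hl : ∀ v ∈ S, v ≠ q x → ∃ y, G'.Adj x y ∧ q y = v := by
    intro v hv hne
    obtain ⟨y, hy, _⟩ := h.lift x v (hS hx hv (fun e => hne e.symm))
    exact ⟨y, hy⟩
  have : Nonempty V' := ⟨x⟩
  choose! y hy using hl
  have h1 : ∀ u ∈ S.erase (q x), G'.Adj x (y u) := fun u hu =>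
    (hy u (Finset.mem_of_mem_erase hu) (Finset.ne_of_mem_erase hu)).1
  have h2 : ∀ u ∈ S.erase (q x), ∀ v ∈ S.erase (q x), y u ≠ y v → G'.Adj (y u) (y v) := by
    intro u hu v hv hne
    refine h.flag x _ _ (h1 u hu) (h1 v hv) ?_
    rw [(hy u (Finset.mem_of_mem_erase hu) (Finset.ne_of_mem_erase hu)).2,
      (hy v (Finset.mem_of_mem_erase hv) (Finset.ne_of_mem_erase hv)).2]
    exact hS (Finset.mem_of_mem_erase hu) (Finset.mem_of_mem_erase hv) (fun e => hne (congrArg y e))
  refine ⟨insert x ((S.erase (q x)).image y), ?_, Finset.mem_insert_self _ _, ?_⟩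
  · intro a ha b hb hab
    rw [Finset.mem_coe, Finset.mem_insert, Finset.mem_image] at ha hb
    rcases ha with rfl | ⟨u, hu, rfl⟩ <;> rcases hb with rfl | ⟨v, hv, rfl⟩
    · exact absurd rfl hab
    · exact h1 v hv
    · exact (h1 u hu).symm
    · exact h2 u hu v hv hab
  · rw [Finset.image_insert, Finset.image_image]
    have h3 : (S.erase (q x)).image (q ∘ y) = S.erase (q x) := by
      have h4 : ∀ u ∈ S.erase (q x), (q ∘ y) u = u := fun u hu =>
        (hy u (Finset.mem_of_mem_erase hu) (Finset.ne_of_mem_erase hu)).2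
      rw [Finset.image_congr (g := id) (fun u hu => h4 u hu), Finset.image_id]
    rw [h3, Finset.insert_erase hx]

open Classical in
/-- the lift of a chain to the covering -/
noncomputable def oc (G' : SimpleGraph V') (q : V' → V) (o : Finset V → ℝ) (T : Finset V') : ℝ :=
  if G'.IsClique (T : Set V') then (eps q T : ℝ) * o (T.image q) else 0

theorem oc_pos {o : Finset V → ℝ} {T : Finset V'} (h : G'.IsClique (T : Set V')) :
    oc G' q o T = (eps q T : ℝ) * o (T.image q) := if_pos h

theorem oc_neg {o : Finset V → ℝ} {T : Finset V'} (h : ¬ G'.IsClique (T : Set V')) : oc G' q o T = 0 := if_neg h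

theorem mem_lk_of_insert {S : Finset V} {v : V} (hv : v ∉ S) (h : G.IsClique ((insert v S : Finset V) : Set V)) :
    v ∈ lk G S := fun u hu => h (by simp) (by simp [hu]) (fun e => hv (e ▸ hu))

theorem insert_of_mem_lk {S : Finset V} {v : V} (hS : G.IsClique (S : Set V)) (h : v ∈ lk G S) :
    G.IsClique ((insert v S : Finset V) : Set V) := by
  rw [Finset.coe_insert]
  exact hS.insert fun u hu _ => h u hu

theorem bd_oc (h : IsCov G' G q d) {n : ℕ} {o : Finset V → ℝ} (ho : o ∈ KK G (triv V) Set.univ ∅ n)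
    {T : Finset V'} (hT : G'.IsClique (T : Set V')) (hne : T.Nonempty) :
    bd ℝ (oc G' q o) T = (eps q T : ℝ) * bd ℝ o (T.image q) := by
  rw [mem_KK_triv] at ho
  have hb := cov_bij h hne hT
  have hcl := cov_clique h hT
  rw [bd_apply, bd_apply, Finset.mul_sum]
  have hout : ∀ w : V', w ∉ T → w ∈ lk G' T → q w ∉ T.image q := by
    intro w _ hw hh
    exact G.irrefl (hb.mapsTo hw (q w) hh)
  refine Finset.sum_bij_ne_zero (fun v _ _ => q v) ?_ ?_ ?_ ?_
  · intro v hv h0
    rw [Finset.mem_compl] at hv ⊢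
    have h1 : G'.IsClique ((insert v T : Finset V') : Set V') := by
      by_contra hn
      apply h0
      rw [oc_neg hn, smul_zero]
    exact hout v hv (mem_lk_of_insert hv h1)
  · intro v hv h0 u hu h0' huv
    rw [Finset.mem_compl] at hv hu
    have key : ∀ w : V', w ∉ T → sg w T • oc G' q o (insert w T) ≠ 0 → w ∈ lk G' T := by
      intro w hw h0
      refine mem_lk_of_insert hw ?_
      by_contra hn
      apply h0
      rw [oc_neg hn, smul_zero]
    exact hb.injOn (key v hv h0) (key u hu h0') huv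
  · intro v hv h0
    rw [Finset.mem_compl] at hv
    have h1 : G.IsClique ((insert v (T.image q) : Finset V) : Set V) := by
      by_contra hn
      apply h0
      rw [ho _ fun hh => hn hh.1, smul_zero, mul_zero]
    obtain ⟨w, hw, rfl⟩ := hb.surjOn (mem_lk_of_insert hv h1)
    have hwT : w ∉ T := fun hh => hv (Finset.mem_image_of_mem q hh)
    refine ⟨w, by rwa [Finset.mem_compl], ?_, rfl⟩
    rw [oc_pos (insert_of_mem_lk hT hw), Finset.image_insert]
    intro h2
    apply h0
    have h3 : o (insert (q w) (T.image q)) = 0 := by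
      rw [zsmul_eq_mul] at h2
      rcases mul_eq_zero.1 h2 with h3 | h3
      · rcases sg_eq_or w T with h4 | h4 <;> rw [h4] at h3 <;> norm_num at h3
      · rcases mul_eq_zero.1 h3 with h4 | h4
        · exact absurd h4 (eps_ne q _)
        · exact h4
    rw [h3, smul_zero, mul_zero]
  · intro v hv h0
    rw [Finset.mem_compl] at hv
    have h1 : G'.IsClique ((insert v T : Finset V') : Set V') := by
      by_contra hn
      apply h0
      rw [oc_neg hn, smul_zero]
    rw [oc_pos h1, Finset.image_insert, zsmul_eq_mul, zsmul_eq_mul]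
    have h2 := eps_sg hv (cov_inj h h1)
    have h3 : (eps q (insert v T) : ℝ) * (sg v T : ℝ) = (eps q T : ℝ) * (sg (q v) (T.image q) : ℝ) := by
      exact_mod_cast h2
    linear_combination (o (insert (q v) (T.image q))) * h3

theorem cov_OB (h : IsCov G' G q d) {n : ℕ} {B : Set V} {o : Finset V → ℝ} (ho : OB n G B o) :
    OB n G' (q ⁻¹' B) (oc G' q o) where
  mem := by
    have h1 := ho.mem
    rw [mem_KK_triv] at h1 ⊢
    intro T hT
    by_cases hcl : G'.IsClique (T : Set V')
    · rw [oc_pos hcl, h1 (T.image q), mul_zero]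
      rintro ⟨_, _, h2⟩
      rw [Finset.card_image_of_injOn (cov_inj h hcl)] at h2
      exact hT ⟨hcl, Set.subset_univ _, h2⟩
    · exact oc_neg hcl
  bdy T hT := by
    by_cases hcl : G'.IsClique (T : Set V')
    · have hne : T.Nonempty := by
        rw [Finset.nonempty_iff_ne_empty]
        rintro rfl
        exact hT (by simp)
      rw [bd_oc h ho.mem hcl hne, ho.bdy (T.image q), mul_zero]
      rw [Finset.coe_image, Set.image_subset_iff]
      exact hT
    · rw [bd_apply]
      refine Finset.sum_eq_zero fun v _ => ?_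
      rw [oc_neg, smul_zero]
      exact fun hh => hcl (hh.subset (by simp))
  ne v hv := by
    intro h0
    apply ho.ne (q v) hv
    funext R
    by_cases hR : q v ∈ R
    · exact if_pos hR
    · have e : Lv (q v) o R = (sg (q v) R : ℝ) * o (insert (q v) R) := if_neg hR
      rw [e, Pi.zero_apply]
      by_cases hcl : G.IsClique ((insert (q v) R : Finset V) : Set V)
      · obtain ⟨T, hT, hvT, hTq⟩ := star_lift h v hcl (Finset.mem_insert_self _ _)
        have h1 := congrFun h0 (T.erase v)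
        have e2 : Lv v (oc G' q o) (T.erase v) = (sg v (T.erase v) : ℝ) * oc G' q o (insert v (T.erase v)) :=
          if_neg (Finset.notMem_erase v T)
        rw [e2, Finset.insert_erase hvT, oc_pos hT, hTq, Pi.zero_apply] at h1
        rcases mul_eq_zero.1 h1 with h2 | h2
        · rcases sg_eq_or v (T.erase v) with h3 | h3 <;> rw [h3] at h2 <;> norm_num at h2
        · rcases mul_eq_zero.1 h2 with h3 | h3
          · exact absurd h3 (eps_ne q _)
          · rw [h3, mul_zero]
      · rw [(mem_KK_triv.1 ho.mem) _ fun hh => hcl hh.1, mul_zero]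

theorem cov_neB (h : IsCov G' G q d) {n : ℕ} {B : Set V} {o : Finset V → ℝ} (ho : o ∈ KK G (triv V) Set.univ ∅ (n + 1))
    (hB : ∀ v ∈ B, ∃ T : Finset V, v ∈ T ∧ bd ℝ o T ≠ 0) :
    ∀ v ∈ q ⁻¹' B, ∃ T : Finset V', v ∈ T ∧ bd ℝ (oc G' q o) T ≠ 0 := by
  intro v hv
  obtain ⟨S, hvS, hS⟩ := hB (q v) hv
  have hcl : G.IsClique (S : Set V) := by
    by_contra hn
    exact hS ((mem_KK_triv.1 (bd_mem_KK ho)) S fun hh => hn hh.1)
  obtain ⟨T, hT, hvT, hTq⟩ := star_lift h v hcl hvS
  refine ⟨T, hvT, ?_⟩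
  rw [bd_oc h ho hT ⟨v, hvT⟩, hTq]
  exact mul_ne_zero (eps_ne q _) hS

/-- the covering of a full subcomplex -/
theorem cov_induce (h : IsCov G' G q d) (B : Set V) :
    IsCov (G'.induce (q ⁻¹' B)) (G.induce B) (fun x => (⟨q x.1, x.2⟩ : ↥B)) d where
  deg v := by
    rw [← h.deg v.1, ← Set.ncard_image_of_injective _ Subtype.val_injective]
    congr 1
    ext x
    constructor
    · rintro ⟨y, hy, rfl⟩
      exact congrArg Subtype.val hy
    · intro hx
      have hx' : q x = v.1 := hx
      refine ⟨⟨x, ?_⟩, Subtype.ext hx', rfl⟩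
      rw [Set.mem_preimage, hx']
      exact v.2
  adj x y hxy := h.adj x.1 y.1 hxy
  lift x v hxv := by
    obtain ⟨y, ⟨hy1, hy2⟩, hy3⟩ := h.lift x.1 v.1 hxv
    refine ⟨⟨y, by rw [Set.mem_preimage, hy2]; exact v.2⟩, ⟨hy1, Subtype.ext hy2⟩, ?_⟩
    rintro z ⟨hz1, hz2⟩
    exact Subtype.ext (hy3 z.1 ⟨hz1, congrArg Subtype.val hz2⟩)
  flag x y z hxy hxz hyz := h.flag x.1 y.1 z.1 hxy hxz hyz

/-- the links of the vertices of a covering -/
theorem cov_link (h : IsCov G' G q d) (x : V') :
    Nonempty ((G.induce (G.neighborSet (q x))) ≃g (G'.induce (G'.neighborSet x))) := by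
  have hbij : Function.Bijective (fun y : ↥(G'.neighborSet x) => (⟨q y.1, h.adj x y.1 y.2⟩ : ↥(G.neighborSet (q x)))) := by
    constructor
    · intro y z hyz
      obtain ⟨w, _, hw⟩ := h.lift x (q y.1) (h.adj x y.1 y.2)
      refine Subtype.ext ?_
      rw [hw y.1 ⟨y.2, rfl⟩, hw z.1 ⟨z.2, (congrArg Subtype.val hyz).symm⟩]
    · intro v
      obtain ⟨y, ⟨hy1, hy2⟩, _⟩ := h.lift x v.1 v.2
      exact ⟨⟨y, hy1⟩, Subtype.ext hy2⟩
  refine ⟨SimpleGraph.Iso.symm ⟨Equiv.ofBijective _ hbij, ?_⟩⟩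
  intro y z
  exact (cov_adj_iff h y.2 z.2).symm

theorem cov_CR (h : IsCov G' G q d) {k : ℕ} (hC : ∀ v : V, CR k (G.induce (G.neighborSet v))) (x : V') :
    CR k (G'.induce (G'.neighborSet x)) :=
  CR.iso _ _ (cov_link h x) (hC (q x))

end Cov

end Pool.Agent.H77CM
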