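import Pool.Agent.H77CM.A13

set_option autoImplicit false
set_option linter.unusedSectionVars false

/-!
# Pieces
-/

namespace Pool.Agent.H77CM

open Pool.Agent.W907.SG Pool.Agent.W907.SM Pool.Agent.TH652.Dual Module
open Pool.Agent.N504.RS.Cls (CR above_CR)

/-- the reduced real Betti number of degree `i - 1` of the full subcomplex on `A` of the flag complex of `J` -/
noncomputable def rb {U : Type} [Fintype U] [LinearOrder U] (J : SimpleGraph U) (A : Set U) (i : ℕ) : ℕ :=
  beta J (triv U) A ∅ i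

/-- The flag complex of the finite graph `J` is a compact real homology manifold of dimension `2 m`, whose
boundary is the full subcomplex on `B`. The links of the vertices of the boundary are in the class `CR (2 m - 1)`. -/
structure Piece (m : ℕ) {U : Type} [Fintype U] [LinearOrder U] (J : SimpleGraph U) (B : Set U) : Prop where
  /-- the simplices have at most `2 m + 1` vertices -/
  big : ∀ T : Finset U, J.IsClique (T : Set U) → T.card ≤ 2 * m + 1
  /-- the links of the interior simplices are homology spheres -/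
  sph : ∀ S : Finset U, J.IsClique (S : Set U) → ¬ (S : Set U) ⊆ B → ∀ i : ℕ,
    rb J (lk J S) i = if i + S.card = 2 * m + 1 then 1 else 0
  /-- the links of the simplices of the boundary are acyclic -/
  col : ∀ S : Finset U, S.Nonempty → J.IsClique (S : Set U) → (S : Set U) ⊆ B → ∀ i : ℕ, rb J (lk J S) i = 0
  /-- the links of the simplices of the boundary in the boundary are homology spheres -/
  bdr : ∀ S : Finset U, S.Nonempty → J.IsClique (S : Set U) → (S : Set U) ⊆ B → ∀ i : ℕ,
    rb J (lk J S ∩ B) i = if i + S.card = 2 * m then 1 else 0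
  /-- the links of the vertices of the boundary -/
  cls : ∀ b : ↥B, CR (2 * m - 1) ((J.induce B).induce ((J.induce B).neighborSet b))

/-- an orientation: a relative cycle of degree `2 m` which does not vanish near any vertex, and whose boundary does
not vanish near any vertex of `B` -/
def Oriented (m : ℕ) {U : Type} [Fintype U] [LinearOrder U] (J : SimpleGraph U) (B : Set U) : Prop :=
  ∃ o : Finset U → ℝ, (∀ T : Finset U, ¬ (J.IsClique (T : Set U) ∧ T.card = 2 * m + 1) → o T = 0) ∧
    (∀ T : Finset U, ¬ (T : Set U) ⊆ B → bd ℝ o T = 0) ∧ (∀ v : U, ∃ T : Finset U, v ∈ T ∧ o T ≠ 0) ∧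
    ∀ v ∈ B, ∃ T : Finset U, v ∈ T ∧ bd ℝ o T ≠ 0

theorem Lv_ne_iff {V : Type} [Fintype V] [LinearOrder V] {v : V} {o : Finset V → ℝ} :
    Lv v o ≠ 0 ↔ ∃ T : Finset V, v ∈ T ∧ o T ≠ 0 := by
  constructor
  · intro h
    by_contra hn
    push Not at hn
    apply h
    funext R
    by_cases hv : v ∈ R
    · exact if_pos hv
    · have e : Lv v o R = (sg v R : ℝ) * o (insert v R) := if_neg hv
      rw [e, hn _ (Finset.mem_insert_self _ _), mul_zero]
      rfl
  · rintro ⟨T, hvT, hT⟩ h
    have h1 := congrFun h (T.erase v)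
    have e : Lv v o (T.erase v) = (sg v (T.erase v) : ℝ) * o (insert v (T.erase v)) :=
      if_neg (Finset.notMem_erase _ _)
    rw [e, Finset.insert_erase hvT, Pi.zero_apply] at h1
    rcases mul_eq_zero.1 h1 with h3 | h3
    · rcases sg_eq_or v (T.erase v) with h4 | h4 <;> rw [h4] at h3 <;> norm_num at h3
    · exact hT h3

/-- flag manifolds whose vertex links are in the class -/
theorem van_of_links {m : ℕ} (hm : 1 ≤ m) {V : Type} [Fintype V] [LinearOrder V] {G : SimpleGraph V}
    (h : ∀ v : V, CR (2 * m - 1) (G.induce (G.neighborSet v))) (i : ℕ) (hi : m < i) : L2Van G i := by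
  obtain ⟨k, rfl⟩ := Nat.exists_eq_add_of_le' hm
  have h1 : CR (2 * k + 2) G := by
    refine CR.loc G ∅ (fun T _ hT => ?_) fun v _ => h v
    have : T = ∅ := by
      rw [Finset.eq_empty_iff_forall_notMem]
      exact fun x hx => hT hx
    rw [this, Finset.card_empty]
    omega
  exact above_CR h1 i (by omega)

section Main

variable {U : Type} [Fintype U] [LinearOrder U] {J : SimpleGraph U} {B : Set U} {m : ℕ}

theorem piece_Mfd [Fintype ↥B] (h : Piece m J B) : Mfd (2 * m) (J.induce B) := by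
  intro S hne hS i
  have hmap : J.IsClique ((S.map (emb B) : Finset U) : Set U) := (clique_map S).2 hS
  have hb : Set.BijOn (Subtype.val : ↥B → U) (lk (J.induce B) S) (lk J (S.map (emb B)) ∩ B) := by
    refine ⟨?_, Subtype.val_injective.injOn, ?_⟩
    · intro y hy
      refine ⟨?_, y.2⟩
      intro u hu
      obtain ⟨s, hs, rfl⟩ := Finset.mem_map.1 hu
      exact hy s hs
    · rintro v ⟨hv, hvB⟩
      refine ⟨⟨v, hvB⟩, ?_, rfl⟩
      intro s hs
      exact hv s.1 (Finset.mem_map_of_mem (emb B) hs)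
  rw [beta_bij hb (fun x _ y _ => Iff.rfl) i]
  have h1 := h.bdr (S.map (emb B)) (hne.map) hmap (map_sub S) i
  rw [Finset.card_map] at h1
  exact h1

theorem piece_MB (h : Piece m J B) : MB (2 * m + 1) J B := ⟨h.big, h.sph, h.col⟩

theorem piece_cov (h : Piece m J B) {U' : Type} [Fintype U'] [LinearOrder U'] {J' : SimpleGraph U'} {q : U' → U}
    {d : ℕ} (hq : IsCov J' J q d) [Fintype ↥B] [Fintype ↥(q ⁻¹' B)] (ho : Oriented m J' (q ⁻¹' B)) (hm : 1 ≤ m) :
    (rb J' Set.univ (m + 1) : ℚ) - 2 * ∑ j ∈ Finset.range m, (rb J' Set.univ (m + 2 + j) : ℚ) ≤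
      (-1 : ℚ) ^ m * (d * kap J B) := by
  obtain ⟨o, ho1, ho2, ho3, ho4⟩ := ho
  have hOB : OB (2 * m + 1) J' (q ⁻¹' B) o := by
    refine ⟨?_, ho2, fun v _ => Lv_ne_iff.2 (ho3 v)⟩
    rw [mem_KK_triv]
    exact fun T hT => ho1 T fun hh => hT ⟨hh.1, Set.subset_univ _, hh.2⟩
  have hcov2 := cov_induce hq B
  have h1 := piece_ineq hm (cov_MB hq (piece_MB h)) hOB ho4
    (cov_Mfd hcov2 (piece_Mfd h)) (van_of_links hm (cov_CR hcov2 h.cls))
  rw [kap_cov hq] at h1
  exact h1

/-- the local contribution of a piece -/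
theorem piece_bound (hm : 1 ≤ m) [Fintype ↥B] (h : Piece m J B) {t : ℚ}
    (ht : ∀ ε : ℚ, 0 < ε → ∃ (U' : Type) (_ : Fintype U') (_ : LinearOrder U') (J' : SimpleGraph U') (q : U' → U)
      (d : ℕ), 0 < d ∧ IsCov J' J q d ∧ Oriented m J' (q ⁻¹' B) ∧ (t - ε) * d ≤ (rb J' Set.univ (m + 1) : ℚ) -
        2 * ∑ j ∈ Finset.range m, (rb J' Set.univ (m + 2 + j) : ℚ)) : t ≤ (-1 : ℚ) ^ m * kap J B := by
  classical
  refine le_of_forall_pos_le_add fun ε hε => ?_
  obtain ⟨U', _, _, J', q, d, hd, hcov, ho, hineq⟩ := ht ε hε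
  have h1 := piece_cov h hcov ho hm
  have h2 : (t - ε) * d ≤ (-1 : ℚ) ^ m * (d * kap J B) := hineq.trans h1
  have h3 : (0 : ℚ) < d := by exact_mod_cast hd
  have h4 : (t - ε) * d ≤ ((-1 : ℚ) ^ m * kap J B) * d := by
    calc (t - ε) * d ≤ (-1 : ℚ) ^ m * (d * kap J B) := h2
      _ = ((-1 : ℚ) ^ m * kap J B) * d := by ring
  have h5 := le_of_mul_le_mul_right h4 h3
  linarith

end Main

end Pool.Agent.H77CM
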