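import Pool.Agent.H77CM.A1

set_option autoImplicit false
set_option linter.unusedSectionVars false

/-!
# The total complex: the staircase and the zigzag for homology manifolds
-/

namespace Pool.Agent.H77CM

open Pool.Agent.W907.SG Pool.Agent.W907.SM Pool.Agent.TH652.Dual Module

section Abs

variable {V X : Type} [Fintype V] [LinearOrder V] {G : SimpleGraph V} {a : V → X → X}

/-- the total complex in degree `i` -/
def Tot (G : SimpleGraph V) (a : V → X → X) (i : ℕ) : Submodule ℝ (Fm V X) where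
  carrier := {w | (∀ S R : Finset V, ¬ (Disjoint S R ∧ G.IsClique ((S ∪ R : Finset V) : Set V) ∧ R.card = i) →
    w S R = 0) ∧ (∀ S R : Finset V, ∀ s ∈ S, pull ℝ a s (w S R) = w S R)}
  add_mem' := by
    intro w w' h h'
    refine ⟨fun S R hn => ?_, fun S R s hs => ?_⟩
    · rw [Pi.add_apply, Pi.add_apply, h.1 S R hn, h'.1 S R hn, add_zero]
    · rw [Pi.add_apply, Pi.add_apply, map_add, h.2 S R s hs, h'.2 S R s hs]
  zero_mem' := by
    refine ⟨fun S R hn => rfl, fun S R s hs => ?_⟩
    rw [Pi.zero_apply, Pi.zero_apply, map_zero]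
  smul_mem' := by
    intro r w h
    refine ⟨fun S R hn => ?_, fun S R s hs => ?_⟩
    · rw [Pi.smul_apply, Pi.smul_apply, h.1 S R hn, smul_zero]
    · rw [Pi.smul_apply, Pi.smul_apply, map_smul, h.2 S R s hs]

theorem mem_Tot {i : ℕ} {w : Fm V X} : w ∈ Tot G a i ↔
    (∀ S R : Finset V, ¬ (Disjoint S R ∧ G.IsClique ((S ∪ R : Finset V) : Set V) ∧ R.card = i) → w S R = 0) ∧
    (∀ S R : Finset V, ∀ s ∈ S, pull ℝ a s (w S R) = w S R) := Iff.rfl

theorem Tot_good {i : ℕ} {w : Fm V X} (h : w ∈ Tot G a i) : Good G w := by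
  intro S R hn
  exact h.1 S R fun hh => hn ⟨hh.1, hh.2.1⟩

theorem lay_Tot {j i : ℕ} {w : Fm V X} (h : Lay G a j i w) : w ∈ Tot G a i :=
  ⟨fun S R hn => h.1 S R fun hh => hn ⟨hh.1, hh.2.1, hh.2.2.2⟩, h.2⟩

/-- the total differential -/
noncomputable def DT (a : V → X → X) : Fm V X →ₗ[ℝ] Fm V X := D1L + D2L a

theorem DT_apply (w : Fm V X) : DT a w = D1 w + D2 a w := rfl

theorem D2_neg (w : Fm V X) : D2 a (-w) = - D2 a w := map_neg (D2L a) w

theorem D1_neg (w : Fm V X) : D1 (-w) = - D1 w := map_neg D1L w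

theorem DT_DT (hc : ∀ u v, G.Adj u v → ∀ x, a u (a v x) = a v (a u x)) {w : Fm V X} (hw : Good G w) :
    DT a (DT a w) = 0 := by
  rw [DT_apply w, map_add, DT_apply, DT_apply, D1_D1, D1_D2, D2_D2 hc hw]
  abel

theorem rr_mem' (hi : ∀ v x, a v (a v x) = x) (hc : ∀ u v, G.Adj u v → ∀ x, a u (a v x) = a v (a u x)) {i : ℕ}
    {w : Fm V X} (h : w ∈ Tot G a i) : rr hc w ∈ KK G (pull ℝ a) Set.univ ∅ i := by
  rw [mem_KK]
  refine ⟨fun R hn => ?_, fun R t ht => ?_⟩
  · rw [rr_apply]
    have h1 : ∀ S : Finset V, ((-1 : ℤ) ^ S.card) • w S R = 0 := by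
      intro S
      rw [h.1 S R, smul_zero]
      rintro ⟨_, h2, h3⟩
      exact hn ⟨h2.subset (by simp), Set.subset_univ _, h3⟩
    rw [Finset.sum_eq_zero fun S _ => h1 S, map_zero]
  · rcases ht with ht | ht
    · exact PR_anti hc hi ht _
    · exact absurd ht (Set.notMem_empty _)

/-- one layer -/
def cut (k : ℕ) (w : Fm V X) : Fm V X := fun S R => if S.card = k then w S R else 0

theorem cut_lay {i : ℕ} {w : Fm V X} (h : w ∈ Tot G a i) (k : ℕ) : Lay G a k i (cut k w) := by
  refine ⟨fun S R hn => ?_, fun S R s hs => ?_⟩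
  · unfold cut
    split_ifs with h1
    · exact h.1 S R fun hh => hn ⟨hh.1, hh.2.1, h1, hh.2.2⟩
    · rfl
  · unfold cut
    split_ifs with h1
    · exact h.2 S R s hs
    · rw [map_zero]

theorem stair_aux (hi : ∀ v x, a v (a v x) = x) (hc : ∀ u v, G.Adj u v → ∀ x, a u (a v x) = a v (a u x))
    [Fintype X] {i : ℕ} : ∀ (k : ℕ) (w : Fm V X), w ∈ Tot G a i → DT a w = 0 →
    (∀ S R : Finset V, k < S.card → w S R = 0) →
    ∃ Y ∈ Tot G a (i + 1), w - DT a Y ∈ Tot G a i ∧ DT a (w - DT a Y) = 0 ∧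
      ∀ S R : Finset V, 0 < S.card → (w - DT a Y) S R = 0 := by
  intro k
  induction k with
  | zero =>
    intro w hw h0 hs
    refine ⟨0, Submodule.zero_mem _, ?_⟩
    rw [map_zero, sub_zero]
    exact ⟨hw, h0, hs⟩
  | succ k ih =>
    intro w hw h0 hs
    have hl := cut_lay hw (k + 1)
    have h2 : D2 a (cut (k + 1) w) = 0 := by
      funext S R
      rw [Pi.zero_apply, Pi.zero_apply]
      by_cases hc : S.card = k + 2
      · have h3 : D2 a (cut (k + 1) w) S R = D2 a w S R := by
          rw [D2_apply, D2_apply]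
          refine Finset.sum_congr rfl fun s hs => ?_
          have h4 : (S.erase s).card = k + 1 := by
            rw [Finset.card_erase_of_mem (Finset.mem_sdiff.1 hs).1, hc]; rfl
          unfold cut
          rw [if_pos h4]
        have h4 : D1 w S R = 0 := by
          rw [D1_apply]
          refine Finset.sum_eq_zero fun v _ => ?_
          rw [hs S _ (by omega), smul_zero]
        have h5 : D1 w S R + D2 a w S R = 0 := congrFun (congrFun h0 S) R
        rw [h3]
        rwa [h4, zero_add] at h5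
      · rw [D2_apply]
        refine Finset.sum_eq_zero fun s hs => ?_
        have hsS := (Finset.mem_sdiff.1 hs).1
        have h4 : ¬ (S.erase s).card = k + 1 := by
          rw [Finset.card_erase_of_mem hsS]
          have := Finset.card_pos.2 ⟨s, hsS⟩
          omega
        unfold cut
        rw [if_neg h4, map_zero, smul_zero]
    obtain ⟨y, hy, hy2⟩ := D2_exact hi hc hl h2
    have hyT := lay_Tot hy
    have hDy : DT a y ∈ Tot G a i := by
      rw [DT_apply, hy2]
      refine Submodule.add_mem _ ?_ (lay_Tot hl)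
      refine ⟨fun S R hn => ?_, fun S R s hs => ?_⟩
      · rw [D1_apply]
        refine Finset.sum_eq_zero fun v hv => ?_
        rw [hy.1, smul_zero]
        rintro ⟨h3, h4, _, h5⟩
        refine hn ⟨?_, h4.subset ?_, ?_⟩
        · exact h3.mono_right (Finset.subset_insert v R)
        · exact_mod_cast Finset.union_subset_union_right (Finset.subset_insert v R)
        · rw [Finset.card_insert_of_notMem (by simpa using hv)] at h5
          omega
      · rw [D1_apply, map_sum]
        refine Finset.sum_congr rfl fun v _ => ?_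
        rw [map_zsmul, hy.2 _ _ s hs]
    have hw' : w - DT a y ∈ Tot G a i := Submodule.sub_mem _ hw hDy
    have h0' : DT a (w - DT a y) = 0 := by
      rw [map_sub, h0, DT_DT hc hy.good, sub_zero]
    have hs' : ∀ S R : Finset V, k < S.card → (w - DT a y) S R = 0 := by
      intro S R hk
      have e : (w - DT a y) S R = w S R - (D1 y S R + D2 a y S R) := rfl
      have h3 : D1 y S R = 0 := by
        rw [D1_apply]
        refine Finset.sum_eq_zero fun v _ => ?_
        rw [hy.1, smul_zero]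
        rintro ⟨_, _, h4, _⟩
        omega
      rw [e, h3, hy2, zero_add]
      unfold cut
      split_ifs with h4
      · rw [sub_self]
      · rw [hs S R (by omega), sub_zero]
    obtain ⟨Y, hY, h3, h4, h5⟩ := ih _ hw' h0' hs'
    have e : w - DT a (y + Y) = w - DT a y - DT a Y := by
      rw [map_add]; abel
    refine ⟨y + Y, Submodule.add_mem _ hyT hY, ?_⟩
    rw [e]
    exact ⟨h3, h4, h5⟩

theorem anti_of_pp {s : V} {f : X → ℝ} (h : pp a s f = 0) : pull ℝ a s f = - f := by
  funext x
  have h1 := congrFun h x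
  rw [pp_apply, Pi.zero_apply] at h1
  rw [pull_apply, Pi.neg_apply]
  linarith

/-- every cycle of the total complex is homologous to one coming from the anti-invariants -/
theorem stair (hi : ∀ v x, a v (a v x) = x) (hc : ∀ u v, G.Adj u v → ∀ x, a u (a v x) = a v (a u x))
    [Fintype X] {i : ℕ} {w : Fm V X} (hw : w ∈ Tot G a i) (h0 : DT a w = 0) :
    ∃ Y ∈ Tot G a (i + 1), ∃ z ∈ ZZ G (pull ℝ a) Set.univ ∅ i, w = DT a Y + fam0 z := by
  obtain ⟨Y, hY, h1, h2, h3⟩ := stair_aux hi hc (Fintype.card V) w hw h0 (fun S R hk => by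
    have := Finset.card_le_univ S
    omega)
  set w' := w - DT a Y with hw'
  have hf : w' = fam0 (w' ∅) := by
    funext S R
    unfold fam0
    split_ifs with h
    · rw [h]
    · exact h3 S R (Finset.card_pos.2 (Finset.nonempty_iff_ne_empty.2 h))
  refine ⟨Y, hY, w' ∅, ⟨?_, ?_⟩, ?_⟩
  · rw [SetLike.mem_coe, mem_KK]
    refine ⟨fun T hT => h1.1 ∅ T ?_, fun T t ht => ?_⟩
    · rintro ⟨_, h4, h5⟩
      rw [Finset.empty_union] at h4
      exact hT ⟨h4, Set.subset_univ _, h5⟩
    · rcases ht with ht | ht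
      · refine anti_of_pp ?_
        have h4 : D1 w' {t} (T.erase t) + D2 a w' {t} (T.erase t) = 0 := congrFun (congrFun h2 {t}) (T.erase t)
        have h5 : D1 w' {t} (T.erase t) = 0 := by
          rw [D1_apply]
          refine Finset.sum_eq_zero fun v _ => ?_
          rw [h3 {t} _ (by simp), smul_zero]
        have h6 : ({t} : Finset V) \ T.erase t = {t} :=
          Finset.sdiff_eq_self_of_disjoint (by simp)
        rw [h5, zero_add, D2_apply, h6, Finset.sum_singleton, Finset.erase_singleton, Finset.insert_erase ht] at h4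
        rcases sg_eq_or t (T.erase t) with h7 | h7
        · rwa [h7, one_smul] at h4
        · rw [h7, neg_smul, one_smul, neg_eq_zero] at h4
          exact h4
      · exact absurd ht (Set.notMem_empty _)
  · show bd ℝ (w' ∅) = 0
    funext R
    have h4 : D1 w' ∅ R + D2 a w' ∅ R = 0 := congrFun (congrFun h2 ∅) R
    have h5 : D2 a w' ∅ R = 0 := by
      rw [D2_apply, Finset.empty_sdiff, Finset.sum_empty]
    rw [h5, add_zero] at h4
    exact h4
  · rw [← hf, hw']
    abel

/-! ### homology manifolds -/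

/-- the condition on the links of the nonempty simplices -/
def Mfd (n : ℕ) (G : SimpleGraph V) : Prop :=
  ∀ S : Finset V, S.Nonempty → G.IsClique (S : Set V) → ∀ i : ℕ,
    beta G (triv V) (lk G S) ∅ i = if i + S.card = n then 1 else 0

theorem lay_exact' {n : ℕ} (hS : Mfd n G) {j i : ℕ} (hj : 1 ≤ j) (hij : i + j < n)
    {w : Fm V X} (h : Lay G a j i w) (h1 : D1 w = 0) :
    ∃ y, Lay G a j (i + 1) y ∧ D1 y = w := by
  classical
  have hex : ∀ (S : Finset V) (x : X), G.IsClique (S : Set V) → S.card = j →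
      ∃ y ∈ KK G (triv V) (lk G S) ∅ (i + 1), bd ℝ y = fun R => w S R x := by
    intro S x hcl hcard
    have h2 : (fun R => w S R x) ∈ ZZ G (triv V) (lk G S) ∅ i := by
      refine ⟨?_, ?_⟩
      · rw [SetLike.mem_coe, mem_KK_triv]
        intro T hT
        rw [h.1 S T, Pi.zero_apply]
        rintro ⟨h3, h4, _, h5⟩
        have h6 := (lk_iff hcl T).2 ⟨h3, h4⟩
        exact hT ⟨h6.1, h6.2, h5⟩
      · show bd ℝ (fun R => w S R x) = 0
        funext R
        have h3 := congrFun (congrFun (congrFun h1 S) R) x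
        rw [D1_apply] at h3
        rw [bd_apply, Pi.zero_apply]
        rw [Pi.zero_apply, Pi.zero_apply, Pi.zero_apply, Finset.sum_apply] at h3
        exact h3
    rw [← exact_of_beta (by rw [hS S (Finset.card_pos.1 (by omega)) hcl i, if_neg (by omega)])] at h2
    obtain ⟨y, hy, hy2⟩ := h2
    exact ⟨y, hy, hy2⟩
  refine ⟨primF G j i w, ⟨?_, ?_⟩, ?_⟩
  · intro S R hn
    funext x
    rw [Pi.zero_apply, primF_apply]
    by_cases hcl : G.IsClique (S : Set V) ∧ S.card = j
    · rw [if_pos hcl]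
      have h2 := (prim_spec (hex S x hcl.1 hcl.2)).1
      rw [mem_KK_triv] at h2
      refine h2 R ?_
      rintro ⟨h3, h4, h5⟩
      have h6 := (lk_iff hcl.1 R).1 ⟨h3, h4⟩
      exact hn ⟨h6.1, h6.2, hcl.2, h5⟩
    · rw [if_neg hcl]
  · intro S R s hs
    funext x
    rw [pull_apply, primF_apply, primF_apply]
    have h2 : (fun R => w S R (a s x)) = fun R => w S R x := by
      funext R
      have h3 := congrFun (h.2 S R s hs) x
      rwa [pull_apply] at h3
    rw [h2]
  · funext S R x
    rw [D1_apply, Finset.sum_apply]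
    by_cases hcl : G.IsClique (S : Set V) ∧ S.card = j
    · have h2 := congrFun (prim_spec (hex S x hcl.1 hcl.2)).2 R
      rw [bd_apply] at h2
      rw [← h2]
      refine Finset.sum_congr rfl fun v _ => ?_
      rw [Pi.smul_apply, primF_apply, if_pos hcl]
    · rw [h.1 S R]
      · rw [Pi.zero_apply]
        refine Finset.sum_eq_zero fun v _ => ?_
        rw [Pi.smul_apply, primF_apply, if_neg hcl, smul_zero]
      · rintro ⟨_, h3, h4, _⟩
        exact hcl ⟨h3.subset (by simp), h4⟩

theorem zigzag' (hi : ∀ v x, a v (a v x) = x) (hc : ∀ u v, G.Adj u v → ∀ x, a u (a v x) = a v (a u x)) {n : ℕ}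
    (hS : Mfd n G) (i : ℕ) : ∀ (k j : ℕ) (w : Fm V X), 1 ≤ j → i + j + k = n → Lay G a j i w →
    D1 w = 0 → D2 a w = 0 → ∃ w', Lay G a (j + k) i w' ∧ D1 w' = 0 ∧ D2 a w' = 0 ∧
      ∃ Y ∈ Tot G a (i + 1), Y ∅ = 0 ∧ w = w' + DT a Y := by
  intro k
  induction k with
  | zero =>
    intro j w _ _ h h1 h2
    exact ⟨w, h, h1, h2, 0, Submodule.zero_mem _, rfl, by rw [map_zero, add_zero]⟩
  | succ k ih =>
    intro j w hj hk h h1 h2
    obtain ⟨y, hy, hy1⟩ := lay_exact' hS hj (by omega) h h1
    have hy2 := lay_D2 hi hc hy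
    have h3 : D1 (- D2 a y) = 0 := by
      rw [D1_neg, D1_D2, neg_neg, hy1, h2]
    have h5 : D2 a (- D2 a y) = 0 := by
      rw [D2_neg, D2_D2 hc hy.good, neg_zero]
    have h6 : Lay G a (j + 1) i (- D2 a y) := (LayM G a (j + 1) i).neg_mem hy2
    obtain ⟨w', hw1, hw2, hw3, Y, hY, hY0, hw4⟩ := ih (j + 1) (- D2 a y) (by omega) (by omega) h6 h3 h5
    refine ⟨w', ?_, hw2, hw3, y + Y, Submodule.add_mem _ (lay_Tot hy) hY, ?_, ?_⟩
    · have e : j + (k + 1) = j + 1 + k := by omega
      rw [e]
      exact hw1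
    · rw [Pi.add_apply, hY0, add_zero]
      funext R
      refine hy.1 ∅ R ?_
      rintro ⟨_, _, h7, _⟩
      rw [Finset.card_empty] at h7
      omega
    · rw [map_add, DT_apply y, hy1]
      have e : w = - (- D2 a y) - D2 a y + w := by abel
      calc w = D2 a y + (- D2 a y) + w := by abel
        _ = D2 a y + (w' + DT a Y) + w := by rw [hw4]
        _ = w' + (w + D2 a y + DT a Y) := by abel

end Abs

end Pool.Agent.H77CM
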