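import Pool.Agent.H77CM.A2

set_option autoImplicit false
set_option linter.unusedSectionVars false

/-!
# Orientations of homology manifolds
-/

namespace Pool.Agent.H77CM

open Pool.Agent.W907.SG Pool.Agent.W907.SM Pool.Agent.TH652.Dual Module

section Abs

variable {V : Type} [Fintype V] [LinearOrder V] {G : SimpleGraph V}

/-- no cliques with `n + 1` vertices -/
theorem no_big' {n : ℕ} (hn1 : 1 ≤ n) (hS : Mfd n G) {T : Finset V} (hT : G.IsClique (T : Set V)) : T.card ≤ n := by
  by_contra hn
  push Not at hn
  obtain ⟨T', hT', hc'⟩ := Finset.exists_subset_card_eq (Nat.succ_le_of_lt hn)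
  have hcl : G.IsClique (T' : Set V) := hT.subset (by exact_mod_cast hT')
  obtain ⟨v, hv⟩ : T'.Nonempty := Finset.card_pos.1 (by omega)
  have h1 := hS (T'.erase v) (Finset.card_pos.1 (by rw [Finset.card_erase_of_mem hv]; omega)) (hcl.subset (by exact_mod_cast Finset.erase_subset v T')) 0
  rw [Finset.card_erase_of_mem hv, hc'] at h1
  rw [if_pos (by omega)] at h1
  have hvl : v ∈ lk G (T'.erase v) := fun u hu =>
    hcl hv (Finset.mem_coe.2 (Finset.mem_of_mem_erase hu)) (Finset.ne_of_mem_erase hu).symm
  have h2 : BB G (triv V) (lk G (T'.erase v)) ∅ 0 = ZZ G (triv V) (lk G (T'.erase v)) ∅ 0 := by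
    refine le_antisymm (BB_le_ZZ _ _ _ _ _) ?_
    rintro z ⟨hz, _⟩
    rw [SetLike.mem_coe, mem_KK_triv] at hz
    refine ⟨fun T => if T = {v} then z ∅ else 0, ?_, ?_⟩
    · rw [SetLike.mem_coe, mem_KK_triv]
      intro T hT
      refine if_neg ?_
      rintro rfl
      refine hT ⟨by simp, by simpa using hvl, by simp⟩
    · funext T
      rw [bd_apply]
      by_cases hT : T = ∅
      · subst hT
        rw [Finset.sum_eq_single v]
        · have e : (insert v ∅ : Finset V) = {v} := rfl
          have e2 : (sg v (∅ : Finset V) : ℤ) = 1 := by simp [sg]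
          rw [e, if_pos rfl, e2, one_smul]
        · intro u _ hu
          rw [if_neg, smul_zero]
          intro h
          have : u ∈ ({v} : Finset V) := h ▸ Finset.mem_insert_self u ∅
          exact hu (Finset.mem_singleton.1 this)
        · intro h
          exact absurd (by simp) h
      · rw [hz T (fun h => hT (Finset.card_eq_zero.1 h.2.2))]
        refine Finset.sum_eq_zero fun u hu => ?_
        rw [if_neg, smul_zero]
        intro h
        have h3 := congrArg Finset.card h
        rw [Finset.card_insert_of_notMem (by simpa using hu), Finset.card_singleton] at h3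
        exact hT (Finset.card_eq_zero.1 (by omega))
  unfold beta at h1
  rw [h2] at h1
  omega

theorem top_KK' {n : ℕ} (hn1 : 1 ≤ n) (hS : Mfd n G) {S : Finset V} (hcl : G.IsClique (S : Set V)) {d : ℕ} (hd : n < d + S.card) :
    KK G (triv V) (lk G S) ∅ d = ⊥ := by
  rw [eq_bot_iff]
  intro c hc
  rw [mem_KK_triv] at hc
  rw [Submodule.mem_bot]
  funext T
  refine hc T ?_
  rintro ⟨h1, h2, h3⟩
  have h4 := (lk_iff hcl T).1 ⟨h1, h2⟩
  have h5 := no_big' hn1 hS h4.2
  rw [Finset.card_union_of_disjoint h4.1] at h5
  omega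

theorem top_dim' {n : ℕ} (hn1 : 1 ≤ n) (hS : Mfd n G) {S : Finset V} (hne : S.Nonempty) (hcl : G.IsClique (S : Set V)) {d : ℕ} (hd : d + S.card = n) :
    finrank ℝ (ZZ G (triv V) (lk G S) ∅ d) = 1 := by
  have h1 := hS S hne hcl d
  rw [if_pos hd] at h1
  have h2 : BB G (triv V) (lk G S) ∅ d = ⊥ := by
    unfold BB
    rw [top_KK' hn1 hS hcl (by omega), Submodule.map_bot]
  unfold beta at h1
  rw [h2, finrank_bot] at h1
  omega

theorem top_span' {n : ℕ} (hn1 : 1 ≤ n) (hS : Mfd n G) {S : Finset V} (hne : S.Nonempty) (hcl : G.IsClique (S : Set V)) {d : ℕ} (hd : d + S.card = n)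
    {z c : Finset V → ℝ} (hz : z ∈ ZZ G (triv V) (lk G S) ∅ d) (hz0 : z ≠ 0)
    (hc : c ∈ ZZ G (triv V) (lk G S) ∅ d) : ∃ r : ℝ, c = r • z := by
  have h1 := top_dim' hn1 hS hne hcl hd
  have h2 : (⟨z, hz⟩ : ZZ G (triv V) (lk G S) ∅ d) ≠ 0 := by
    intro h
    exact hz0 (congrArg Subtype.val h)
  obtain ⟨r, hr⟩ := (finrank_eq_one_iff_of_nonzero' _ h2).1 h1 ⟨c, hc⟩
  exact ⟨r, (congrArg Subtype.val hr).symm⟩

theorem Lv_ne' {n : ℕ} (hn1 : 1 ≤ n) (hS : Mfd n G) : ∀ (d : ℕ) (S : Finset V), S.Nonempty → G.IsClique (S : Set V) → d + S.card = n →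
    ∀ z ∈ ZZ G (triv V) (lk G S) ∅ d, z ≠ 0 → ∀ v ∈ lk G S, Lv v z ≠ 0 := by
  classical
  intro d
  induction d with
  | zero =>
    intro S hne0 hcl hd z _ _ v hv
    exfalso
    have h1 : G.IsClique ((S ∪ {v} : Finset V) : Set V) :=
      ((lk_iff hcl {v}).1 ⟨by simp, by simpa using hv⟩).2
    have h2 : Disjoint S {v} := ((lk_iff hcl {v}).1 ⟨by simp, by simpa using hv⟩).1
    have h3 := no_big' hn1 hS h1
    rw [Finset.card_union_of_disjoint h2, Finset.card_singleton] at h3
    omega
  | succ d ih =>
    intro S hne0 hcl hd z hz hz0 v hv hL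
    -- a good vertex
    obtain ⟨T, hT⟩ : ∃ T, z T ≠ 0 := by
      by_contra h
      push Not at h
      exact hz0 (funext h)
    have hzK := hz.1
    rw [SetLike.mem_coe, mem_KK_triv] at hzK
    have hT2 : G.IsClique (T : Set V) ∧ (T : Set V) ⊆ lk G S ∧ T.card = d + 1 := by
      by_contra h
      exact hT (hzK T h)
    obtain ⟨u, hu⟩ : T.Nonempty := Finset.card_pos.1 (by omega)
    have hu2 : u ∈ lk G S := hT2.2.1 hu
    have hLu : Lv u z ≠ 0 := by
      intro h
      have h1 := congrFun h (T.erase u)
      have e : Lv u z (T.erase u) = (sg u (T.erase u) : ℝ) * z (insert u (T.erase u)) :=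
        if_neg (Finset.notMem_erase u T)
      rw [e, Finset.insert_erase hu, Pi.zero_apply] at h1
      rcases mul_eq_zero.1 h1 with h2 | h2
      · rcases sg_eq_or u (T.erase u) with h3 | h3 <;> rw [h3] at h2 <;> norm_num at h2
      · exact hT h2
    have huv : u ≠ v := by
      rintro rfl
      exact hLu hL
    have hdv := dv_mem huv hu2 hv
    -- the functional
    have key : ∀ c ∈ ZZ G (triv V) (lk G S) ∅ 1,
        ∑ w : V, (if Lv w z ≠ 0 ∧ w ∈ lk G S then c {w} else 0) = 0 := by
      rcases Nat.eq_zero_or_pos d with h0 | h0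
      · subst h0
        intro c hc
        obtain ⟨r, rfl⟩ := top_span' hn1 hS hne0 hcl hd hz hz0 hc
        have h1 : ∀ w : V, (if Lv w z ≠ 0 ∧ w ∈ lk G S then (r • z) {w} else 0) = r * z {w} := by
          intro w
          split_ifs with h
          · rfl
          · by_cases hw : w ∈ lk G S
            · have h2 : Lv w z = 0 := by
                by_contra h3
                exact h ⟨h3, hw⟩
              have h3 := congrFun h2 ∅
              have e : Lv w z ∅ = (sg w (∅ : Finset V) : ℝ) * z (insert w ∅) := if_neg (Finset.notMem_empty w)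
              have e2 : (sg w (∅ : Finset V) : ℤ) = 1 := by simp [sg]
              have e3 : (insert w ∅ : Finset V) = {w} := rfl
              rw [e, e2, e3, Int.cast_one, one_mul, Pi.zero_apply] at h3
              rw [h3, mul_zero]
            · rw [hzK {w}, mul_zero]
              rintro ⟨_, h2, _⟩
              exact hw (h2 (by simp))
        rw [Finset.sum_congr rfl fun w _ => h1 w, ← Finset.mul_sum]
        have h2 := congrFun (show bd ℝ z = 0 from hz.2) ∅
        rw [bd_apply, Pi.zero_apply] at h2
        have h3 : ∑ w : V, z {w} = 0 := by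
          rw [← h2]
          refine Finset.sum_congr (by simp) fun w _ => ?_
          have e2 : (sg w (∅ : Finset V) : ℤ) = 1 := by simp [sg]
          have e3 : (insert w ∅ : Finset V) = {w} := rfl
          rw [e2, one_smul, e3]
        rw [h3, mul_zero]
      · intro c hc
        rw [← exact_of_beta (by rw [hS S hne0 hcl 1, if_neg (by omega)])] at hc
        obtain ⟨y, hy, rfl⟩ := hc
        rw [SetLike.mem_coe, mem_KK_triv] at hy
        have hadj : ∀ w x : V, y {w, x} ≠ 0 → w ≠ x → Lv w z ≠ 0 → Lv x z ≠ 0 := by
          intro w x hwx hne hw hx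
          have h1 : G.IsClique (({w, x} : Finset V) : Set V) ∧ (({w, x} : Finset V) : Set V) ⊆ lk G S ∧
              ({w, x} : Finset V).card = 1 + 1 := by
            by_contra h
            exact hwx (hy _ h)
          have hwS : w ∈ lk G S := h1.2.1 (by simp)
          have hxS : x ∈ lk G S := h1.2.1 (by simp)
          have hA : G.Adj w x := h1.1 (by simp) (by simp) hne
          have hwn : w ∉ S := fun h => G.irrefl (hwS w h)
          have hcl2 : G.IsClique ((insert w S : Finset V) : Set V) := by
            have h2 := ((lk_iff hcl {w}).1 ⟨by simp, by simpa using hwS⟩).2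
            rwa [Finset.union_comm] at h2
          have h3 := ih (insert w S) ⟨w, Finset.mem_insert_self w S⟩ hcl2 (by rw [Finset.card_insert_of_notMem hwn]; omega) (Lv w z)
            (Lv_mem w hz) hw x (by
              intro u hu
              rcases Finset.mem_insert.1 hu with rfl | hu
              · exact hA.symm
              · exact hxS u hu)
          refine h3 ?_
          funext R
          by_cases hxR : x ∈ R
          · exact if_pos hxR
          · have e : Lv x (Lv w z) R = (sg x R : ℝ) * Lv w z (insert x R) := if_neg hxR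
            rw [e]
            by_cases hwR : w ∈ R
            · have e2 : Lv w z (insert x R) = 0 := if_pos (Finset.mem_insert_of_mem hwR)
              rw [e2, mul_zero]
              rfl
            · have e2 : Lv w z (insert x R) = (sg w (insert x R) : ℝ) * z (insert w (insert x R)) := by
                refine if_neg ?_
                rw [Finset.mem_insert, not_or]
                exact ⟨hne, hwR⟩
              have h4 := congrFun hx (insert w R)
              have e3 : Lv x z (insert w R) = (sg x (insert w R) : ℝ) * z (insert x (insert w R)) := by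
                refine if_neg ?_
                rw [Finset.mem_insert, not_or]
                exact ⟨fun h => hne h.symm, hxR⟩
              rw [e3, Pi.zero_apply] at h4
              have h5 : z (insert x (insert w R)) = 0 := by
                rcases mul_eq_zero.1 h4 with h2 | h2
                · rcases sg_eq_or x (insert w R) with h3 | h3 <;> rw [h3] at h2 <;> norm_num at h2
                · exact h2
              rw [e2, Finset.insert_comm w x R, h5, mul_zero, mul_zero]
              rfl
        have h1 : ∀ w : V, (if Lv w z ≠ 0 ∧ w ∈ lk G S then bd ℝ y {w} else 0) =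
            ∑ x : V, (if Lv w z ≠ 0 ∧ w ≠ x then (sg x {w} : ℝ) * y {w, x} else 0) := by
          intro w
          split_ifs with h
          · rw [bd_apply, ← Finset.sum_subset (Finset.subset_univ ({w} : Finset V)ᶜ)]
            · refine Finset.sum_congr rfl fun x hx => ?_
              have hx' : x ≠ w := by simpa using hx
              rw [if_pos ⟨h.1, hx'.symm⟩, zsmul_eq_mul, Finset.pair_comm w x]
            · intro x _ hx
              have hx' : x = w := by simpa using hx
              rw [if_neg]
              rintro ⟨_, h2⟩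
              exact h2 hx'.symm
          · symm
            refine Finset.sum_eq_zero fun x _ => ?_
            split_ifs with h2
            · rw [hy {w, x}, mul_zero]
              rintro ⟨_, h3, _⟩
              exact h ⟨h2.1, h3 (by simp)⟩
            · rfl
        rw [Finset.sum_congr rfl fun w _ => h1 w]
        have h2 : ∑ w : V, ∑ x : V, (if Lv w z ≠ 0 ∧ w ≠ x then (sg x {w} : ℝ) * y {w, x} else 0) =
            - ∑ w : V, ∑ x : V, (if Lv w z ≠ 0 ∧ w ≠ x then (sg x {w} : ℝ) * y {w, x} else 0) := by
          conv_lhs => rw [Finset.sum_comm]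
          rw [← Finset.sum_neg_distrib]
          refine Finset.sum_congr rfl fun w _ => ?_
          rw [← Finset.sum_neg_distrib]
          refine Finset.sum_congr rfl fun x _ => ?_
          by_cases hxw : w = x
          · subst hxw
            simp
          · by_cases h0' : y {w, x} = 0
            · have h0'' : y {x, w} = 0 := by rw [Finset.pair_comm]; exact h0'
              rw [h0', h0'']
              simp
            · have h4 : Lv w z ≠ 0 ↔ Lv x z ≠ 0 :=
                ⟨hadj w x h0' hxw, hadj x w (by rw [Finset.pair_comm]; exact h0') (fun h => hxw h.symm)⟩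
              by_cases h5 : Lv w z ≠ 0
              · rw [if_pos ⟨h4.1 h5, fun h => hxw h.symm⟩, if_pos ⟨h5, hxw⟩, Finset.pair_comm x w]
                have h6 := sg_swap w x ∅ hxw (by simp) (by simp)
                have e1 : (sg w (∅ : Finset V) : ℤ) = 1 := by simp [sg]
                have e2 : (sg x (∅ : Finset V) : ℤ) = 1 := by simp [sg]
                have e3 : (insert x ∅ : Finset V) = {x} := rfl
                have e4 : (insert w ∅ : Finset V) = {w} := rfl
                rw [e1, e2, e3, e4, mul_one, mul_one] at h6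
                rw [h6]
                push_cast
                ring
              · rw [if_neg fun h => h5 (h4.2 h.1), if_neg fun h => h5 h.1, neg_zero]
        linarith
    have h1 := key (dv u v) hdv
    rw [Finset.sum_eq_single u] at h1
    · rw [if_pos ⟨hLu, hu2⟩] at h1
      unfold dv at h1
      rw [if_neg, if_pos rfl] at h1
      · norm_num at h1
      · intro h
        exact huv (Finset.singleton_injective h)
    · intro w _ hw
      by_cases hwv : w = v
      · subst hwv
        exact if_neg fun h => h.1 hL
      · have h2 : dv u v {w} = 0 := by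
          unfold dv
          rw [if_neg, if_neg]
          · exact fun h => hw (Finset.singleton_injective h)
          · exact fun h => hwv (Finset.singleton_injective h)
        rw [h2, ite_self]
    · intro h
      exact absurd (Finset.mem_univ _) h

/-- an orientation: a cycle of top degree which does not vanish near any vertex -/
def Ori (n : ℕ) (G : SimpleGraph V) (o : Finset V → ℝ) : Prop :=
  o ∈ ZZ G (triv V) (lk G ∅) ∅ n ∧ ∀ v : V, Lv v o ≠ 0

/-- the orientations of the links are cycles -/
theorem oS_mem {n : ℕ} {o : Finset V → ℝ} (ho : o ∈ ZZ G (triv V) (lk G ∅) ∅ n)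
    (S : Finset V) : G.IsClique (S : Set V) → ∀ d, d + S.card = n → oS o S ∈ ZZ G (triv V) (lk G S) ∅ d := by
  induction S using Finset.induction_on with
  | empty =>
    intro _ d hd
    rw [Finset.card_empty, add_zero] at hd
    subst hd
    rw [oS_empty]
    exact ho
  | insert s S hs ih =>
    intro hcl d hd
    rw [Finset.card_insert_of_notMem hs] at hd
    have hcl' : G.IsClique (S : Set V) := hcl.subset (by simp)
    have h1 := ih hcl' (d + 1) (by omega)
    rw [oS_insert o hs]
    exact Submodule.smul_mem _ _ (Lv_mem s h1)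

theorem ep_ne (s : V) (S : Finset V) : (ep s S : ℝ) ≠ 0 := by
  intro h4
  have h5 : (ep s S : ℝ) * (ep s S : ℝ) = 1 := by
    exact_mod_cast ep_mul_self s S
  rw [h4] at h5
  norm_num at h5

/-- the orientations of the links do not vanish -/
theorem oS_ne {n : ℕ} (hn1 : 1 ≤ n) (hS : Mfd n G) {o : Finset V → ℝ} (ho : Ori n G o)
    (S : Finset V) : S.Nonempty → G.IsClique (S : Set V) → oS o S ≠ 0 := by
  induction S using Finset.induction_on with
  | empty => exact fun h => absurd h Finset.not_nonempty_empty
  | insert s S hs ih =>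
    intro _ hcl
    have hcl' : G.IsClique (S : Set V) := hcl.subset (by simp)
    rw [oS_insert o hs]
    refine smul_ne_zero (ep_ne _ _) ?_
    rcases S.eq_empty_or_nonempty with h0 | h0
    · subst h0
      rw [oS_empty]
      exact ho.2 s
    · have hcard := no_big' hn1 hS hcl
      rw [Finset.card_insert_of_notMem hs] at hcard
      obtain ⟨d, hd⟩ := Nat.exists_eq_add_of_le hcard
      have h1 := oS_mem ho.1 S hcl' (d + 1) (by omega)
      have hsl : s ∈ lk G S := fun u hu =>
        hcl (by simp) (by simp [hu]) (fun e => hs (e ▸ hu))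
      exact Lv_ne' hn1 hS (d + 1) S h0 hcl' (by omega) _ h1 (ih h0 hcl') s hsl

/-! ### the families attached to cochains -/

variable {X : Type} {a : V → X → X}

theorem wm_D1' {n : ℕ} {o : Finset V → ℝ} (ho : o ∈ ZZ G (triv V) (lk G ∅) ∅ n)
    {i j : ℕ} (hij : i + j = n) {m : Finset V → X → ℝ} (hm : m ∈ KP G a j) : D1 (wm o m) = 0 := by
  rw [mem_KP] at hm
  funext S R
  rw [D1_apply]
  by_cases h1 : G.IsClique (S : Set V) ∧ S.card = j
  · have h2 := (oS_mem ho S h1.1 i (by omega)).2
    have h3 := congrFun (show bd ℝ (oS o S) = 0 from h2) R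
    rw [bd_apply, Pi.zero_apply] at h3
    have h4 : ∀ v ∈ Rᶜ, sg v R • wm o m S (insert v R) = (sg v R • oS o S (insert v R)) • m S := by
      intro v _
      unfold wm
      rw [smul_assoc]
    rw [Finset.sum_congr rfl h4, ← Finset.sum_smul, h3, zero_smul]
    rfl
  · refine Finset.sum_eq_zero fun v _ => ?_
    unfold wm
    rw [hm.1 S h1, smul_zero, smul_zero]

theorem dd_of_D2' {n : ℕ} (hn1 : 1 ≤ n) (hS : Mfd n G) {o : Finset V → ℝ} (ho : Ori n G o)
    {j : ℕ} {m : Finset V → X → ℝ} (hm : m ∈ KP G a j) (h : D2 a (wm o m) = 0) : dd G a m = 0 := by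
  rw [wm_D2 ho.1 hm] at h
  funext S
  by_cases hcl : G.IsClique (S : Set V)
  · rcases S.eq_empty_or_nonempty with h00 | h00
    · subst h00
      rw [dd_pos hcl, Finset.sum_empty]
      rfl
    have h1 := oS_ne hn1 hS ho S h00 hcl
    obtain ⟨R, hR⟩ : ∃ R, oS o S R ≠ 0 := by
      by_contra hn
      push Not at hn
      exact h1 (funext hn)
    have h2 := congrFun (congrFun h S) R
    have h3 : ((-1 : ℤ) ^ j) • (oS o S R • dd G a m S) = 0 := h2
    have h4 : oS o S R • dd G a m S = 0 := by
      rcases neg_one_pow_eq_or ℤ j with h5 | h5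
      · rwa [h5, one_smul] at h3
      · rw [h5, neg_smul, one_smul, neg_eq_zero] at h3
        exact h3
    rcases smul_eq_zero.1 h4 with h5 | h5
    · exact absurd h5 hR
    · rw [h5]; rfl
  · rw [dd_neg hcl]; rfl

theorem dd_dd' {n : ℕ} (hn1 : 1 ≤ n) (hi : ∀ v x, a v (a v x) = x) (hc : ∀ u v, G.Adj u v → ∀ x, a u (a v x) = a v (a u x))
    (hS : Mfd n G) {o : Finset V → ℝ} (ho : Ori n G o) {i j : ℕ}
    (hij : i + j = n) {m : Finset V → X → ℝ} (hm : m ∈ KP G a j) : dd G a (dd G a m) = 0 := by
  refine dd_of_D2' hn1 hS ho (dd_KP hi hc hm) ?_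
  have h1 : D2 a (D2 a (wm o m)) = 0 := D2_D2 hc (wm_lay ho.1 hij hm).good
  rw [wm_D2 ho.1 hm] at h1
  have h2 : D2 a (((-1 : ℤ) ^ j) • wm o (dd G a m)) = ((-1 : ℤ) ^ j) • D2 a (wm o (dd G a m)) := by
    funext S R
    rw [D2_apply]
    show _ = ((-1 : ℤ) ^ j) • D2 a (wm o (dd G a m)) S R
    rw [D2_apply, Finset.smul_sum]
    refine Finset.sum_congr rfl fun s _ => ?_
    show sg s R • pp a s (((-1 : ℤ) ^ j) • wm o (dd G a m) (S.erase s) (insert s R)) = _
    rw [map_zsmul, smul_comm]
  rw [h2] at h1
  rcases neg_one_pow_eq_or ℤ j with h5 | h5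
  · rwa [h5, one_smul] at h1
  · rw [h5, neg_smul, one_smul, neg_eq_zero] at h1
    exact h1

/-- the last step of the zigzag: a family of top cycles is of the form `wm o m` -/
theorem exists_m' {n : ℕ} (hn1 : 1 ≤ n) (hS : Mfd n G) {o : Finset V → ℝ} (ho : Ori n G o)
    {i j : ℕ} (hj : 1 ≤ j) (hij : i + j = n) {w : Finset V → Finset V → X → ℝ} (hw : Lay G a j i w) (h1 : D1 w = 0) :
    ∃ m ∈ KP G a j, w = wm o m := by
  classical
  have hR : ∀ S : Finset V, G.IsClique (S : Set V) → S.card = j → ∃ R, oS o S R ≠ 0 := by
    intro S hcl hcard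
    have h2 := oS_ne hn1 hS ho S (Finset.card_pos.1 (by omega)) hcl
    by_contra hn
    push Not at hn
    exact h2 (funext hn)
  choose! R hR using hR
  refine ⟨fun S => if G.IsClique (S : Set V) ∧ S.card = j then (oS o S (R S))⁻¹ • w S (R S) else 0, ?_, ?_⟩
  · rw [mem_KP]
    refine ⟨fun S hn => if_neg hn, fun S t ht => ?_⟩
    split_ifs with h
    · rw [map_smul, hw.2 _ _ t ht]
    · rw [map_zero]
  · funext S T
    show w S T = oS o S T •
      (if G.IsClique (S : Set V) ∧ S.card = j then (oS o S (R S))⁻¹ • w S (R S) else 0)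
    split_ifs with h
    · funext x
      rw [Pi.smul_apply, Pi.smul_apply, smul_eq_mul, smul_eq_mul]
      have h2 : (fun R => w S R x) ∈ ZZ G (triv V) (lk G S) ∅ i := by
        refine ⟨?_, ?_⟩
        · rw [SetLike.mem_coe, mem_KK_triv]
          intro T hT
          rw [hw.1 S T, Pi.zero_apply]
          rintro ⟨h3, h4, _, h5⟩
          have h6 := (lk_iff h.1 T).2 ⟨h3, h4⟩
          exact hT ⟨h6.1, h6.2, h5⟩
        · show bd ℝ (fun R => w S R x) = 0
          funext R
          have h3 := congrFun (congrFun (congrFun h1 S) R) x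
          rw [D1_apply] at h3
          rw [bd_apply, Pi.zero_apply]
          rw [Pi.zero_apply, Pi.zero_apply, Pi.zero_apply, Finset.sum_apply] at h3
          exact h3
      have hne : S.Nonempty := Finset.card_pos.1 (by omega)
      obtain ⟨r, hr⟩ := top_span' hn1 hS hne h.1 (by omega) (oS_mem ho.1 S h.1 i (by omega))
        (oS_ne hn1 hS ho S hne h.1) h2
      have h4 : ∀ T, w S T x = r * oS o S T := fun T => congrFun hr T
      rw [h4 T, h4 (R S)]
      have h5 := hR S h.1 h.2
      field_simp
    · rw [hw.1 S T, smul_zero]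
      rintro ⟨_, h2, h3, _⟩
      exact h ⟨h2.subset (by simp), h3⟩

end Abs

end Pool.Agent.H77CM
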