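import Pool.Agent.H77CM.A3

set_option autoImplicit false
set_option linter.unusedSectionVars false

/-!
# Comparison of the Betti numbers for finite sets with the homology of the manifold
-/

namespace Pool.Agent.H77CM

open Pool.Agent.W907.SG Pool.Agent.W907.SM Pool.Agent.TH652.Dual Module
open Pool.Agent.W397.SG (rank_null)

/-- a dimension count for relations -/
theorem rel_dim {A B : Type} [AddCommGroup A] [Module ℝ A] [FiniteDimensional ℝ A] [AddCommGroup B] [Module ℝ B]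
    [FiniteDimensional ℝ B] (A0 E : Submodule ℝ A) (B0 D : Submodule ℝ B) (R : Submodule ℝ (A × B)) (hD : D ≤ B0)
    (h1 : ∀ x ∈ A0, ∃ y ∈ B0, (x, y) ∈ R) (h2 : ∀ x y, (x, y) ∈ R → x ∈ A0 → y ∈ D → x ∈ E) :
    finrank ℝ A0 + finrank ℝ D ≤ finrank ℝ B0 + finrank ℝ E := by
  set R0 : Submodule ℝ (A × B) := R ⊓ A0.prod B0 with hR0
  have hfst : A0 = R0.map (LinearMap.fst ℝ A B) := by
    apply le_antisymm
    · intro x hx
      obtain ⟨y, hy, hxy⟩ := h1 x hx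
      exact ⟨(x, y), ⟨hxy, hx, hy⟩, rfl⟩
    · rintro _ ⟨p, ⟨_, hp⟩, rfl⟩
      exact hp.1
  have r1 := rank_null (LinearMap.fst ℝ A B) R0
  rw [← hfst] at r1
  set g : A × B →ₗ[ℝ] (B ⧸ D) := D.mkQ ∘ₗ LinearMap.snd ℝ A B with hg
  have r2 := rank_null g R0
  have r3 := rank_null D.mkQ B0
  have h3 : R0.map g ≤ B0.map D.mkQ := by
    rintro _ ⟨p, ⟨_, hp⟩, rfl⟩
    exact ⟨p.2, hp.2, rfl⟩
  have h4 := Submodule.finrank_mono h3
  have h5 : (B0 ⊓ LinearMap.ker D.mkQ : Submodule ℝ B) = D := by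
    rw [Submodule.ker_mkQ, inf_eq_right]
    exact hD
  rw [h5] at r3
  set N : Submodule ℝ (A × B) := R0 ⊓ LinearMap.ker g with hN
  have r4 := rank_null (LinearMap.fst ℝ A B) N
  have h6 : N.map (LinearMap.fst ℝ A B) ≤ E := by
    rintro _ ⟨⟨x, y⟩, ⟨⟨hp1, hp2⟩, hp3⟩, rfl⟩
    have h7 : D.mkQ y = 0 := hp3
    rw [Submodule.mkQ_apply, Submodule.Quotient.mk_eq_zero] at h7
    exact h2 x y hp1 hp2.1 h7
  have h7 := Submodule.finrank_mono h6
  have h8 : (N ⊓ LinearMap.ker (LinearMap.fst ℝ A B) : Submodule ℝ (A × B)) ≤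
      R0 ⊓ LinearMap.ker (LinearMap.fst ℝ A B) := inf_le_inf_right _ inf_le_left
  have h9 := Submodule.finrank_mono h8
  omega

section Abs

variable {V X : Type} [Fintype V] [LinearOrder V] {G : SimpleGraph V} {a : V → X → X}

/-- trivial coefficients -/
abbrev trivX (V X : Type) : V → (X → ℝ) →ₗ[ℝ] (X → ℝ) := fun _ => - LinearMap.id

theorem mem_KX {A : Set V} {i : ℕ} {c : Finset V → X → ℝ} :
    c ∈ KK G (trivX V X) A ∅ i ↔ ∀ T : Finset V, ¬ (G.IsClique (T : Set V) ∧ (T : Set V) ⊆ A ∧ T.card = i) → c T = 0 := by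
  rw [mem_KK]
  constructor
  · exact fun h => h.1
  · refine fun h => ⟨h, fun T t _ => ?_⟩
    simp

theorem ZZ_le_ZX (i : ℕ) : ZZ G (pull ℝ a) Set.univ ∅ i ≤ ZZ G (trivX V X) Set.univ ∅ i := by
  rintro z ⟨h1, h2⟩
  refine ⟨?_, h2⟩
  rw [SetLike.mem_coe, mem_KX]
  exact h1.1

theorem BB_le_BX (i : ℕ) : BB G (pull ℝ a) Set.univ ∅ i ≤ BB G (trivX V X) Set.univ ∅ i := by
  rintro _ ⟨c, hc, rfl⟩
  refine ⟨c, ?_, rfl⟩
  rw [SetLike.mem_coe, mem_KX]
  exact hc.1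

theorem fam0_lay' {i : ℕ} {y : Finset V → X → ℝ} (hy : y ∈ KK G (trivX V X) Set.univ ∅ i) :
    Lay G a 0 i (fam0 y) := by
  rw [mem_KX] at hy
  refine ⟨fun S R hn => ?_, fun S R s hs => ?_⟩
  · unfold fam0
    by_cases e : S = ∅
    · subst e
      rw [if_pos rfl]
      refine hy R ?_
      rintro ⟨h1, _, h2⟩
      refine hn ⟨Finset.disjoint_empty_left R, ?_, Finset.card_empty, h2⟩
      rwa [Finset.empty_union]
    · rw [if_neg e]
  · unfold fam0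
    have e : S ≠ ∅ := by rintro rfl; exact Finset.notMem_empty _ hs
    rw [if_neg e, map_zero]

theorem D1_fam0 (y : Finset V → X → ℝ) : D1 (fam0 y) = fam0 (bd ℝ y) := by
  funext S R
  rw [D1_apply]
  unfold fam0
  by_cases e : S = ∅
  · simp only [if_pos e]
    rw [bd_apply]
  · simp only [if_neg e, smul_zero, Finset.sum_const_zero]

theorem fam0_zero : fam0 (0 : Finset V → X → ℝ) = 0 := by
  funext S R
  unfold fam0
  split_ifs <;> rfl

/-- cycles as families, as a linear map -/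
def fam0L : (Finset V → X → ℝ) →ₗ[ℝ] Fm V X where
  toFun z := fam0 z
  map_add' z z' := by
    funext S R
    rw [Pi.add_apply, Pi.add_apply]
    unfold fam0
    split_ifs
    · rfl
    · rw [add_zero]
  map_smul' r z := by
    funext S R
    rw [RingHom.id_apply, Pi.smul_apply, Pi.smul_apply]
    unfold fam0
    split_ifs
    · rfl
    · rw [smul_zero]

/-- the families of multiples of the orientations, as a linear map -/
noncomputable def wmL (o : Finset V → ℝ) : (Finset V → X → ℝ) →ₗ[ℝ] Fm V X where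
  toFun m := wm o m
  map_add' m m' := by
    funext S R
    exact smul_add _ _ _
  map_smul' r m := by
    funext S R
    show oS o S R • (r • m S) = r • (oS o S R • m S)
    rw [smul_comm]

theorem rr_DT (hi : ∀ v x, a v (a v x) = x) (hc : ∀ u v, G.Adj u v → ∀ x, a u (a v x) = a v (a u x)) {i : ℕ}
    {Y : Fm V X} (h : Y ∈ Tot G a (i + 1)) : rr hc (DT a Y) ∈ BB G (pull ℝ a) Set.univ ∅ i := by
  rw [DT_apply, rr_chain hc (Tot_good h)]
  exact ⟨_, rr_mem' hi hc h, rfl⟩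

theorem Psi_dd (hi : ∀ v x, a v (a v x) = x) (hc : ∀ u v, G.Adj u v → ∀ x, a u (a v x) = a v (a u x)) {n : ℕ}
    {o : Finset V → ℝ} (ho : o ∈ ZZ G (triv V) (lk G ∅) ∅ n) {i k : ℕ} (hik : (i + 1) + k = n)
    {m : Finset V → X → ℝ} (hm : m ∈ KP G a k) : wm o (dd G a m) = DT a (((-1 : ℤ) ^ k) • wm o m) := by
  rw [DT_apply]
  have h1 : D1 (((-1 : ℤ) ^ k) • wm o m) = 0 := by
    have := map_zsmul (D1L (V := V) (X := X)) ((-1 : ℤ) ^ k) (wm o m)
    rw [D1L_apply, D1L_apply, wm_D1' ho hik hm, smul_zero] at this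
    exact this
  have h2 : D2 a (((-1 : ℤ) ^ k) • wm o m) = wm o (dd G a m) := by
    have := map_zsmul (D2L (V := V) (X := X) a) ((-1 : ℤ) ^ k) (wm o m)
    rw [D2L_apply, D2L_apply, wm_D2 ho hm, smul_smul, ← mul_pow] at this
    rw [this]
    norm_num
  rw [h1, h2, zero_add]

variable [Fintype X]

theorem DD_le_AA {n : ℕ} (hn1 : 1 ≤ n) (hi : ∀ v x, a v (a v x) = x)
    (hc : ∀ u v, G.Adj u v → ∀ x, a u (a v x) = a v (a u x)) (hS : Mfd n G) {o : Finset V → ℝ} (ho : Ori n G o)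
    {j : ℕ} (hj : 1 ≤ j) (hjn : j ≤ n) : DD G a j ≤ AA G a j := by
  rintro _ ⟨_, ⟨c, hcc, rfl⟩, rfl⟩
  obtain ⟨k, rfl⟩ := Nat.exists_eq_add_of_le' hj
  have hm : bd ℝ c ∈ KP G a k := bd_mem_KK hcc
  obtain ⟨i, hi'⟩ := Nat.exists_eq_add_of_le hjn
  exact ⟨dd_KP hi hc hm, dd_dd' hn1 hi hc hS ho (show (i + 1) + k = n by omega) hm⟩

theorem ker_le {n : ℕ} (hn1 : 1 ≤ n) (hi : ∀ v x, a v (a v x) = x)
    (hc : ∀ u v, G.Adj u v → ∀ x, a u (a v x) = a v (a u x)) (hS : Mfd n G) {o : Finset V → ℝ} (ho : Ori n G o)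
    {i j : ℕ} (hj : 1 ≤ j) (hij : i + j = n) :
    finrank ℝ (ZZ G (pull ℝ a) Set.univ ∅ i ⊓ BB G (trivX V X) Set.univ ∅ i : Submodule ℝ (Finset V → X → ℝ)) ≤
      finrank ℝ (BB G (pull ℝ a) Set.univ ∅ i) + beta G (fun v => - pull ℝ a v) Set.univ ∅ j := by
  set B := BB G (pull ℝ a) Set.univ ∅ i with hB
  set Kf : Submodule ℝ (Finset V → X → ℝ) := ZZ G (pull ℝ a) Set.univ ∅ i ⊓ BB G (trivX V X) Set.univ ∅ i with hKf
  set f : (Finset V → X → ℝ) →ₗ[ℝ] ((Finset V → X → ℝ) ⧸ B) := B.mkQ ∘ₗ Psi hc o with hf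
  obtain ⟨k, rfl⟩ := Nat.exists_eq_add_of_le' hj
  have h1 : Kf.map B.mkQ ≤ (AA G a (k + 1)).map f := by
    rintro _ ⟨z, ⟨hz, ⟨y, hy, hyz⟩⟩, rfl⟩
    have hz1 := hz.1
    have hl := fam0_lay' (a := a) hy
    have hD1 : D1 (fam0 y) = fam0 z := by rw [D1_fam0, hyz]
    have hl2 := lay_D2 hi hc hl
    have h3 : D1 (- D2 a (fam0 y)) = 0 := by
      rw [D1_neg, D1_D2, neg_neg, hD1, fam0_D2 hz1]
    have h5 : D2 a (- D2 a (fam0 y)) = 0 := by
      rw [D2_neg, D2_D2 hc hl.good, neg_zero]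
    have h6 : Lay G a (0 + 1) i (- D2 a (fam0 y)) := (LayM G a (0 + 1) i).neg_mem hl2
    obtain ⟨w', hw1, hw2, hw3, Y, hY, _, hw4⟩ := zigzag' hi hc hS i k 1 (- D2 a (fam0 y)) le_rfl (by omega) h6 h3 h5
    rw [add_comm 1 k] at hw1
    obtain ⟨m, hm, rfl⟩ := exists_m' hn1 hS ho (Nat.le_add_left 1 k) hij hw1 hw2
    refine ⟨m, ⟨hm, dd_of_D2' hn1 hS ho hm hw3⟩, ?_⟩
    have h7 : fam0 z = wm o m + DT a (fam0 y + Y) := by
      rw [map_add, DT_apply (fam0 y), hD1]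
      calc fam0 z = fam0 z + D2 a (fam0 y) + (- D2 a (fam0 y)) := by abel
        _ = fam0 z + D2 a (fam0 y) + (wm o m + DT a Y) := by rw [hw4]
        _ = wm o m + (fam0 z + D2 a (fam0 y) + DT a Y) := by abel
    have h8 : z = rr hc (wm o m) + rr hc (DT a (fam0 y + Y)) := by
      rw [← rr_add, ← h7, fam0_rr hc hz1]
    have h9 := rr_DT hi hc (Submodule.add_mem _ (lay_Tot hl) hY)
    show B.mkQ (rr hc (wm o m)) = B.mkQ z
    rw [eq_comm, ← sub_eq_zero, ← map_sub, Submodule.mkQ_apply, Submodule.Quotient.mk_eq_zero]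
    rw [h8, add_sub_cancel_left]
    exact h9
  have h2 : DD G a (k + 1) ≤ AA G a (k + 1) ⊓ LinearMap.ker f := by
    refine le_inf (DD_le_AA hn1 hi hc hS ho (Nat.le_add_left 1 k) (by omega)) ?_
    rintro _ ⟨_, ⟨c, hcc, rfl⟩, rfl⟩
    have hm : bd ℝ c ∈ KP G a k := bd_mem_KK hcc
    have hik : (i + 1) + k = n := by omega
    show B.mkQ (rr hc (wm o (dd G a (bd ℝ c)))) = 0
    rw [Submodule.mkQ_apply, Submodule.Quotient.mk_eq_zero, Psi_dd hi hc ho.1 hik hm]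
    exact rr_DT hi hc (lay_Tot ((LayM G a k (i + 1)).toAddSubgroup.zsmul_mem (wm_lay ho.1 hik hm) _))
  have r1 := rank_null B.mkQ Kf
  have r2 := rank_null f (AA G a (k + 1))
  have r3 : finrank ℝ (Kf ⊓ LinearMap.ker B.mkQ : Submodule ℝ (Finset V → X → ℝ)) ≤ finrank ℝ B := by
    rw [Submodule.ker_mkQ]
    exact Submodule.finrank_mono inf_le_right
  have r4 := Submodule.finrank_mono h1
  have r5 := Submodule.finrank_mono h2
  have r6 := rank_AA (G := G) hi (k + 1)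
  have r7 := rank_DD (G := G) hi (k + 1)
  unfold beta
  omega

theorem coker_le {n : ℕ} (hn1 : 1 ≤ n) (hi : ∀ v x, a v (a v x) = x)
    (hc : ∀ u v, G.Adj u v → ∀ x, a u (a v x) = a v (a u x)) (hS : Mfd n G) {o : Finset V → ℝ} (ho : Ori n G o)
    {i j : ℕ} (hj : 2 ≤ j) (hij : i + j = n) :
    finrank ℝ (ZZ G (trivX V X) Set.univ ∅ (i + 1)) ≤
      finrank ℝ (ZZ G (pull ℝ a) Set.univ ∅ (i + 1) ⊔ BB G (trivX V X) Set.univ ∅ (i + 1) :
        Submodule ℝ (Finset V → X → ℝ)) + beta G (fun v => - pull ℝ a v) Set.univ ∅ j := by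
  obtain ⟨k, rfl⟩ := Nat.exists_eq_add_of_le' hj
  set ev : Fm V X →ₗ[ℝ] (Finset V → X → ℝ) := LinearMap.proj ∅ with hev
  set T1 : Submodule ℝ (Fm V X) := (Tot G a (i + 1) ⊓ LinearMap.ker ev).map (DT a) with hT1
  set R : Submodule ℝ ((Finset V → X → ℝ) × (Finset V → X → ℝ)) :=
    T1.comap ((D2L a ∘ₗ fam0L) ∘ₗ LinearMap.fst ℝ _ _ - wmL o ∘ₗ LinearMap.snd ℝ _ _) with hR
  have hRm : ∀ c m, (c, m) ∈ R ↔ D2 a (fam0 c) - wm o m ∈ T1 := fun c m => Iff.rfl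
  have h1 : ∀ c ∈ ZZ G (trivX V X) Set.univ ∅ (i + 1), ∃ m ∈ AA G a (k + 2), (c, m) ∈ R := by
    rintro c ⟨hc1, hc2⟩
    have hl := fam0_lay' (a := a) hc1
    have hD1 : D1 (fam0 c) = 0 := by
      have : bd ℝ c = 0 := hc2
      rw [D1_fam0, this, fam0_zero]
    have hl2 := lay_D2 hi hc hl
    have h3 : D1 (D2 a (fam0 c)) = 0 := by
      have h4 : D2 a (D1 (fam0 c)) = 0 := by rw [hD1]; exact map_zero (D2L a)
      rw [D1_D2, h4, neg_zero]
    have h5 : D2 a (D2 a (fam0 c)) = 0 := D2_D2 hc hl.good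
    obtain ⟨w', hw1, hw2, hw3, Y, hY, hY0, hw4⟩ := zigzag' hi hc hS i (k + 1) 1 (D2 a (fam0 c)) le_rfl (by omega)
      hl2 h3 h5
    have e : 1 + (k + 1) = k + 2 := by omega
    rw [e] at hw1
    obtain ⟨m, hm, rfl⟩ := exists_m' hn1 hS ho (by omega) hij hw1 hw2
    refine ⟨m, ⟨hm, dd_of_D2' hn1 hS ho hm hw3⟩, ?_⟩
    rw [hRm, hw4, add_sub_cancel_left]
    exact ⟨Y, ⟨hY, hY0⟩, rfl⟩
  have h2 : ∀ c m, (c, m) ∈ R → c ∈ ZZ G (trivX V X) Set.univ ∅ (i + 1) → m ∈ DD G a (k + 2) →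
      c ∈ (ZZ G (pull ℝ a) Set.univ ∅ (i + 1) ⊔ BB G (trivX V X) Set.univ ∅ (i + 1) :
        Submodule ℝ (Finset V → X → ℝ)) := by
    rintro c _ hcm ⟨hc1, hc2⟩ ⟨_, ⟨c', hc', rfl⟩, rfl⟩
    rw [hRm] at hcm
    obtain ⟨Y, ⟨hY, hY0⟩, hYe⟩ := hcm
    have hY0' : Y ∅ = 0 := hY0
    have hm : bd ℝ c' ∈ KP G a (k + 1) := bd_mem_KK hc'
    have hik : (i + 1) + (k + 1) = n := by omega
    rw [Psi_dd hi hc ho.1 hik hm] at hYe
    have hlw : Lay G a (k + 1) (i + 1) (((-1 : ℤ) ^ (k + 1)) • wm o (bd ℝ c')) :=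
      (LayM G a (k + 1) (i + 1)).toAddSubgroup.zsmul_mem (wm_lay ho.1 hik hm) _
    set Y1 := ((-1 : ℤ) ^ (k + 1)) • wm o (bd ℝ c') + Y with hY1
    have hl := fam0_lay' (a := a) hc1
    have hY1T : Y1 ∈ Tot G a (i + 1) := Submodule.add_mem _ (lay_Tot hlw) hY
    have hY10 : Y1 ∅ = 0 := by
      rw [hY1, Pi.add_apply, hY0', add_zero]
      funext R
      refine hlw.1 ∅ R ?_
      rintro ⟨_, _, h7, _⟩
      rw [Finset.card_empty] at h7
      omega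
    have hD1 : D1 (fam0 c) = 0 := by
      have : bd ℝ c = 0 := hc2
      rw [D1_fam0, this, fam0_zero]
    have hDT : DT a (fam0 c - Y1) = 0 := by
      rw [map_sub, DT_apply (fam0 c), hD1, zero_add, hY1, map_add, hYe]
      abel
    obtain ⟨Y2, hY2, z, hz, he⟩ := stair hi hc (Submodule.sub_mem _ (lay_Tot hl) hY1T) hDT
    have h3 : c = z + bd ℝ (Y2 ∅) := by
      have h4 := congrFun he ∅
      have h5 : (fam0 c - Y1) ∅ = c := by
        rw [Pi.sub_apply, hY10, sub_zero]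
        funext R
        exact if_pos rfl
      have h6 : (DT a Y2 + fam0 z) ∅ = bd ℝ (Y2 ∅) + z := by
        funext R
        show D1 Y2 ∅ R + D2 a Y2 ∅ R + fam0 z ∅ R = bd ℝ (Y2 ∅) R + z R
        rw [D2_apply, Finset.empty_sdiff, Finset.sum_empty, add_zero]
        rfl
      rw [h5, h6, add_comm] at h4
      exact h4
    rw [h3]
    refine Submodule.add_mem_sup hz ⟨Y2 ∅, ?_, rfl⟩
    rw [SetLike.mem_coe, mem_KX]
    intro T hT
    refine hY2.1 ∅ T ?_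
    rintro ⟨_, h4, h5⟩
    rw [Finset.empty_union] at h4
    exact hT ⟨h4, Set.subset_univ _, h5⟩
  have h3 := rel_dim _ _ _ _ R (DD_le_AA hn1 hi hc hS ho (by omega) (by omega)) h1 h2
  have r6 := rank_AA (G := G) hi (k + 2)
  have r7 := rank_DD (G := G) hi (k + 2)
  unfold beta
  omega

/-- upper bound for the Betti numbers -/
theorem beta_le {n : ℕ} (hn1 : 1 ≤ n) (hi : ∀ v x, a v (a v x) = x)
    (hc : ∀ u v, G.Adj u v → ∀ x, a u (a v x) = a v (a u x)) (hS : Mfd n G) {o : Finset V → ℝ} (ho : Ori n G o)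
    {i j : ℕ} (hj : 1 ≤ j) (hij : i + j = n) :
    beta G (pull ℝ a) Set.univ ∅ i ≤
      beta G (trivX V X) Set.univ ∅ i + beta G (fun v => - pull ℝ a v) Set.univ ∅ j := by
  have h1 := ker_le hn1 hi hc hS ho hj hij
  have h2 := Submodule.finrank_sup_add_finrank_inf_eq (ZZ G (pull ℝ a) Set.univ ∅ i) (BB G (trivX V X) Set.univ ∅ i)
  have h3 : (ZZ G (pull ℝ a) Set.univ ∅ i ⊔ BB G (trivX V X) Set.univ ∅ i : Submodule ℝ (Finset V → X → ℝ)) ≤
      ZZ G (trivX V X) Set.univ ∅ i := sup_le (ZZ_le_ZX i) (BB_le_ZZ _ _ _ _ _)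
  have h4 := Submodule.finrank_mono h3
  have h5 := Submodule.finrank_mono (BB_le_ZZ G (pull ℝ a) Set.univ ∅ i)
  have h6 := Submodule.finrank_mono (BB_le_ZZ G (trivX V X) Set.univ ∅ i)
  set b := beta G (fun v => - pull ℝ a v) Set.univ ∅ j
  unfold beta
  omega

/-- lower bound for the Betti numbers -/
theorem le_beta {n : ℕ} (hn1 : 1 ≤ n) (hi : ∀ v x, a v (a v x) = x)
    (hc : ∀ u v, G.Adj u v → ∀ x, a u (a v x) = a v (a u x)) (hS : Mfd n G) {o : Finset V → ℝ} (ho : Ori n G o)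
    {i j : ℕ} (hj : 2 ≤ j) (hij : i + j = n) :
    beta G (trivX V X) Set.univ ∅ (i + 1) ≤
      beta G (pull ℝ a) Set.univ ∅ (i + 1) + beta G (fun v => - pull ℝ a v) Set.univ ∅ j := by
  have h1 := coker_le hn1 hi hc hS ho hj hij
  have h2 := Submodule.finrank_sup_add_finrank_inf_eq (ZZ G (pull ℝ a) Set.univ ∅ (i + 1))
    (BB G (trivX V X) Set.univ ∅ (i + 1))
  have h3 : BB G (pull ℝ a) Set.univ ∅ (i + 1) ≤ (ZZ G (pull ℝ a) Set.univ ∅ (i + 1) ⊓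
      BB G (trivX V X) Set.univ ∅ (i + 1) : Submodule ℝ (Finset V → X → ℝ)) :=
    le_inf (BB_le_ZZ _ _ _ _ _) (BB_le_BX _)
  have h4 := Submodule.finrank_mono h3
  have h5 := Submodule.finrank_mono (BB_le_ZZ G (pull ℝ a) Set.univ ∅ (i + 1))
  set b := beta G (fun v => - pull ℝ a v) Set.univ ∅ j
  unfold beta
  omega

/-- degree zero -/
theorem le_beta_zero : beta G (trivX V X) Set.univ ∅ 0 ≤ beta G (pull ℝ a) Set.univ ∅ 0 := by
  have h1 : ZZ G (trivX V X) Set.univ ∅ 0 ≤ ZZ G (pull ℝ a) Set.univ ∅ 0 := by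
    rintro z ⟨hz, hz2⟩
    refine ⟨?_, hz2⟩
    rw [SetLike.mem_coe, mem_KX] at hz
    rw [SetLike.mem_coe, mem_KK]
    refine ⟨hz, fun T t ht => ?_⟩
    rw [hz T, map_zero, neg_zero]
    rintro ⟨_, _, h3⟩
    rw [Finset.card_eq_zero] at h3
    subst h3
    rcases ht with ht | ht
    · exact Finset.notMem_empty _ ht
    · exact Set.notMem_empty _ ht
  have h2 := Submodule.finrank_mono h1
  have h3 := Submodule.finrank_mono (BB_le_BX (G := G) (a := a) 0)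
  unfold beta
  omega

end Abs

end Pool.Agent.H77CM
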