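import Pool.Agent.H77CM.A4
import Pool.Agent.TH652.Dual7

set_option autoImplicit false
set_option linter.unusedSectionVars false

/-!
# The inequality for homology manifolds
-/

namespace Pool.Agent.H77CM

open Pool.Agent.W907.SG Pool.Agent.W907.SM Pool.Agent.TH652.Dual Module
open Pool.Agent.W397.SG (beta_big)

section Abs

variable {V X : Type} [Fintype V] [LinearOrder V] [Fintype X] {G : SimpleGraph V}

/-- splitting of spaces of functions -/
noncomputable def splitE (Z : Submodule ℝ (Finset V → ℝ)) (ZX : Submodule ℝ (Finset V → X → ℝ))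
    (h : ∀ c, c ∈ ZX ↔ ∀ x, (fun T => c T x) ∈ Z) : ZX ≃ₗ[ℝ] (X → Z) where
  toFun c x := ⟨fun T => c.1 T x, (h c.1).1 c.2 x⟩
  invFun f := ⟨fun T x => (f x).1 T, (h _).2 fun x => (f x).2⟩
  map_add' c d := rfl
  map_smul' r c := rfl
  left_inv c := rfl
  right_inv f := rfl

theorem split_rank (Z : Submodule ℝ (Finset V → ℝ)) (ZX : Submodule ℝ (Finset V → X → ℝ))
    (h : ∀ c, c ∈ ZX ↔ ∀ x, (fun T => c T x) ∈ Z) : finrank ℝ ZX = Fintype.card X * finrank ℝ Z := by
  rw [(splitE Z ZX h).finrank_eq, Module.finrank_pi_fintype, Finset.sum_const, Finset.card_univ, smul_eq_mul]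

theorem bd_eval (c : Finset V → X → ℝ) (x : X) : (fun T => bd ℝ c T x) = bd ℝ (fun T => c T x) := by
  funext T
  rw [bd_apply, bd_apply, Finset.sum_apply]
  rfl

theorem KX_eval {A : Set V} {i : ℕ} (c : Finset V → X → ℝ) :
    c ∈ KK G (trivX V X) A ∅ i ↔ ∀ x, (fun T => c T x) ∈ KK G (triv V) A ∅ i := by
  rw [mem_KX]
  constructor
  · intro h x
    rw [mem_KK_triv]
    intro T hT
    rw [h T hT, Pi.zero_apply]
  · intro h T hT
    funext x
    have := h x
    rw [mem_KK_triv] at this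
    exact this T hT

theorem ZX_eval {A : Set V} {i : ℕ} (c : Finset V → X → ℝ) :
    c ∈ ZZ G (trivX V X) A ∅ i ↔ ∀ x, (fun T => c T x) ∈ ZZ G (triv V) A ∅ i := by
  constructor
  · rintro ⟨h1, h2⟩ x
    refine ⟨(KX_eval c).1 h1 x, ?_⟩
    have h3 : bd ℝ c = 0 := h2
    show bd ℝ (fun T => c T x) = 0
    rw [← bd_eval, h3]
    rfl
  · intro h
    refine ⟨(KX_eval c).2 fun x => (h x).1, ?_⟩
    show bd ℝ c = 0
    funext T x
    have h3 : bd ℝ (fun T => c T x) = 0 := (h x).2
    rw [← bd_eval] at h3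
    exact congrFun h3 T

theorem BX_eval {A : Set V} {i : ℕ} (c : Finset V → X → ℝ) :
    c ∈ BB G (trivX V X) A ∅ i ↔ ∀ x, (fun T => c T x) ∈ BB G (triv V) A ∅ i := by
  constructor
  · rintro ⟨y, hy, rfl⟩ x
    exact ⟨fun T => y T x, (KX_eval y).1 hy x, (bd_eval y x).symm⟩
  · intro h
    choose y hy hy2 using h
    refine ⟨fun T x => y x T, (KX_eval _).2 fun x => hy x, ?_⟩
    funext T x
    have h3 := congrFun (bd_eval (fun T x => y x T) x) T
    rw [h3]
    exact congrFun (hy2 x) T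

theorem beta_trivX (A : Set V) (i : ℕ) :
    beta G (trivX V X) A ∅ i = Fintype.card X * beta G (triv V) A ∅ i := by
  unfold beta
  rw [split_rank _ _ ZX_eval, split_rank _ _ BX_eval, Nat.mul_sub]

end Abs

/-- the truncated alternating sum of the reduced Betti numbers of the flag complex of `G` -/
noncomputable def tb {V : Type} [Fintype V] [LinearOrder V] (G : SimpleGraph V) (m : ℕ) : ℤ :=
  ∑ i ∈ Finset.range (m + 1), (-1 : ℤ) ^ (m + i) * (beta G (triv V) Set.univ ∅ i : ℤ)

/-- the Charney-Davis inequality for homology manifolds -/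
theorem cd_manifold {m : ℕ} (hm : 1 ≤ m) {V : Type} [Fintype V] [LinearOrder V] {G : SimpleGraph V}
    (hS : Mfd (2 * m) G) {o : Finset V → ℝ} (ho : Ori (2 * m) G o) (h : ∀ i : ℕ, m < i → L2Van G i) :
    (tb G m : ℚ) ≤ (-1 : ℚ) ^ m * chiW G := by
  classical
  by_contra hneg
  push Not at hneg
  set δ : ℚ := (tb G m : ℚ) - ((-1 : ℚ) ^ m * chiW G) with hδ
  have hδ0 : 0 < δ := by rw [hδ]; linarith
  set K := Fintype.card V + 2 * m + 2 with hK
  obtain ⟨N, hN⟩ := exists_nat_gt (((m + 2) * K : ℚ) / δ)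
  obtain ⟨Y, fY, neY, P, ev, e1, e2, e3, e4, e5⟩ := Pool.Agent.W723.SM.fam G N
    ((Finset.range K).filter (fun i => m < i)) (fun i hi => h i (Finset.mem_filter.1 hi).2) ∅ (Finset.notMem_empty _)
  have hs := Pool.Agent.W723.SM.beta_sum (two_ne_zero : (2 : ℝ) ≠ 0) G P.a P.sgn P.inv P.comm P.sgn_self
    P.sgn_other
  set B : ℕ → ℕ := fun i => beta G (pull ℝ P.a) Set.univ ∅ i with hB
  set L : ℕ → ℕ := fun i => beta G (triv V) Set.univ ∅ i with hL
  have hc : (0 : ℚ) < Fintype.card Y := by exact_mod_cast Fintype.card_pos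
  -- the bounds
  have hup : ∀ i, i < m → (B i : ℤ) ≤ Fintype.card Y * L i + B (2 * m - i) := by
    intro i hi
    have h1 := beta_le (X := Y) (by omega : 1 ≤ 2 * m) P.inv P.comm hS ho (i := i) (j := 2 * m - i) (by omega) (by omega)
    rw [beta_twist G P.sgn_self P.sgn_other, beta_trivX] at h1
    exact_mod_cast h1
  have hlo : ∀ i, i ≤ m → (Fintype.card Y * L i : ℤ) ≤ B i + B (2 * m + 1 - i) := by
    intro i hi
    rcases Nat.eq_zero_or_pos i with h0 | h0
    · subst h0
      have h1 := le_beta_zero (X := Y) (G := G) (a := P.a)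
      rw [beta_trivX] at h1
      have h2 : (Fintype.card Y * L 0 : ℤ) ≤ B 0 := by exact_mod_cast h1
      have h3 : (0 : ℤ) ≤ B (2 * m + 1 - 0) := Nat.cast_nonneg _
      linarith
    · obtain ⟨k, rfl⟩ := Nat.exists_eq_add_of_le' h0
      have h1 := le_beta (X := Y) (by omega : 1 ≤ 2 * m) P.inv P.comm hS ho (i := k) (j := 2 * m - k) (by omega)
        (by omega)
      rw [beta_twist G P.sgn_self P.sgn_other, beta_trivX] at h1
      have e : 2 * m + 1 - (k + 1) = 2 * m - k := by omega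
      rw [e]
      exact_mod_cast h1
  -- the alternating sum
  have h1 : (-1 : ℚ) ^ m * (Fintype.card Y * chiW G) =
      ∑ i ∈ Finset.range K, (-1 : ℚ) ^ (m + i) * (B i : ℚ) := by
    rw [← hs]
    push_cast
    rw [Finset.mul_sum]
    have h2 : ∑ i ∈ Finset.range K, (-1 : ℚ) ^ (m + i) * (B i : ℚ) =
        ∑ i ∈ Finset.range (Fintype.card V + 1), (-1 : ℚ) ^ (m + i) * (B i : ℚ) := by
      symm
      refine Finset.sum_subset (fun i hi => ?_) fun i _ hi => ?_
      · rw [Finset.mem_range] at hi ⊢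
        omega
      · rw [Finset.mem_range] at hi
        have h3 : B i = 0 := beta_big G _ Set.univ ∅ (by omega)
        rw [h3]
        simp
    rw [h2]
    refine Finset.sum_congr rfl fun i _ => ?_
    rw [pow_add]
    ring
  have h2 : ∑ i ∈ Finset.range K, (-1 : ℚ) ^ (m + i) * (B i : ℚ) =
      ∑ i ∈ Finset.range (m + 1), (-1 : ℚ) ^ (m + i) * (B i : ℚ) +
      ∑ i ∈ (Finset.range K).filter (fun i => m < i), (-1 : ℚ) ^ (m + i) * (B i : ℚ) := by
    have h3 : Finset.range (m + 1) = (Finset.range K).filter (fun i => ¬ m < i) := by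
      ext i
      rw [Finset.mem_filter, Finset.mem_range, Finset.mem_range]
      omega
    rw [h3, add_comm, Finset.sum_filter_add_sum_filter_not]
  set F := (Finset.range K).filter (fun i => m < i) with hF
  set Sm : ℚ := ∑ i ∈ F, (B i : ℚ) with hSm
  have h3 : - Sm ≤ ∑ i ∈ F, (-1 : ℚ) ^ (m + i) * (B i : ℚ) := by
    rw [hSm, ← Finset.sum_neg_distrib]
    refine Finset.sum_le_sum fun i _ => ?_
    have h4 : (0 : ℚ) ≤ (B i : ℚ) := Nat.cast_nonneg _
    rcases neg_one_pow_eq_or ℚ (m + i) with h5 | h5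
    · rw [h5]; linarith
    · rw [h5]; linarith
  have h4 : (Fintype.card Y : ℚ) * (tb G m : ℚ) - (m + 1) * Sm ≤
      ∑ i ∈ Finset.range (m + 1), (-1 : ℚ) ^ (m + i) * (B i : ℚ) := by
    have h5 : (Fintype.card Y : ℚ) * (tb G m : ℚ) = ∑ i ∈ Finset.range (m + 1),
        (-1 : ℚ) ^ (m + i) * (Fintype.card Y * L i : ℚ) := by
      unfold tb
      push_cast
      rw [Finset.mul_sum]
      refine Finset.sum_congr rfl fun i _ => ?_
      ring
    have h6 : ∑ i ∈ Finset.range (m + 1), (B (if Even (m + i) then 2 * m + 1 - i else 2 * m - i) : ℚ) ≤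
        (m + 1) * Sm := by
      have h7 : ∀ i ∈ Finset.range (m + 1), (B (if Even (m + i) then 2 * m + 1 - i else 2 * m - i) : ℚ) ≤ Sm := by
        intro i hi
        rw [Finset.mem_range] at hi
        rw [hSm]
        refine Finset.single_le_sum (f := fun k => (B k : ℚ)) (fun _ _ => Nat.cast_nonneg _) ?_
        rw [hF, Finset.mem_filter, Finset.mem_range]
        rcases Nat.even_or_odd' (m + i) with ⟨p, hp | hp⟩
        · rw [if_pos ⟨p, by omega⟩]
          omega
        · rw [if_neg (by rw [Nat.not_even_iff_odd]; exact ⟨p, by omega⟩)]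
          omega
      refine (Finset.sum_le_sum h7).trans ?_
      rw [Finset.sum_const, Finset.card_range, nsmul_eq_mul]
      push_cast
      exact le_rfl
    have h7 : ∑ i ∈ Finset.range (m + 1), ((-1 : ℚ) ^ (m + i) * (Fintype.card Y * L i : ℚ) -
        (B (if Even (m + i) then 2 * m + 1 - i else 2 * m - i) : ℚ)) ≤
        ∑ i ∈ Finset.range (m + 1), (-1 : ℚ) ^ (m + i) * (B i : ℚ) := by
      refine Finset.sum_le_sum fun i hi => ?_
      rw [Finset.mem_range] at hi
      rcases Nat.even_or_odd' (m + i) with ⟨p, hp | hp⟩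
      · have e1 : Even (m + i) := ⟨p, by omega⟩
        rw [if_pos e1, e1.neg_one_pow, one_mul, one_mul]
        have := hlo i (by omega)
        have h8 : (Fintype.card Y * L i : ℚ) ≤ B i + B (2 * m + 1 - i) := by exact_mod_cast this
        linarith
      · have e1 : Odd (m + i) := ⟨p, by omega⟩
        have hne : i ≠ m := by omega
        rw [if_neg (by rw [Nat.not_even_iff_odd]; exact e1), e1.neg_one_pow]
        have := hup i (by omega)
        have h8 : (B i : ℚ) ≤ Fintype.card Y * L i + B (2 * m - i) := by exact_mod_cast this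
        linarith
    rw [Finset.sum_sub_distrib, ← h5] at h7
    linarith
  have h5 : (N : ℚ) * Sm ≤ K * Fintype.card Y := by
    rw [hSm, Finset.mul_sum]
    calc ∑ i ∈ F, (N : ℚ) * (B i : ℚ)
        ≤ ∑ _i ∈ F, (Fintype.card Y : ℚ) := by
          refine Finset.sum_le_sum fun i hi => ?_
          exact_mod_cast e5 i hi
      _ ≤ ∑ _i ∈ Finset.range K, (Fintype.card Y : ℚ) :=
          Finset.sum_le_sum_of_subset_of_nonneg (Finset.filter_subset _ _) fun _ _ _ => hc.le
      _ = K * Fintype.card Y := by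
          rw [Finset.sum_const, Finset.card_range, nsmul_eq_mul]
  have h6 : δ * Fintype.card Y ≤ (m + 2) * Sm := by
    have h7 : δ * Fintype.card Y = (Fintype.card Y : ℚ) * (tb G m : ℚ) -
        (-1 : ℚ) ^ m * (Fintype.card Y * chiW G) := by
      rw [hδ]; ring
    rw [h7, h1, h2]
    linarith
  have h7 : (N : ℚ) * (δ * Fintype.card Y) ≤ (m + 2) * (K * Fintype.card Y) := by
    have h8 := mul_le_mul_of_nonneg_left h6 (Nat.cast_nonneg (α := ℚ) N)
    have h9 := mul_le_mul_of_nonneg_left h5 (show (0 : ℚ) ≤ (m : ℚ) + 2 by positivity)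
    linarith
  have h8 : (N : ℚ) * δ ≤ (m + 2) * K := by
    have h9 : ((N : ℚ) * δ) * Fintype.card Y ≤ ((m + 2) * K) * Fintype.card Y := by
      rw [mul_assoc, mul_assoc]; exact h7
    exact le_of_mul_le_mul_right h9 hc
  rw [div_lt_iff₀ hδ0] at hN
  linarith

end Pool.Agent.H77CM
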