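import Pool.Agent.H77CM.A5

set_option autoImplicit false
set_option linter.unusedSectionVars false

/-!
# Homology manifolds with boundary: orientations
-/

namespace Pool.Agent.H77CM

open Pool.Agent.W907.SG Pool.Agent.W907.SM Pool.Agent.TH652.Dual Module

section Abs

variable {V : Type} [Fintype V] [LinearOrder V] {G : SimpleGraph V} {B : Set V}

/-- the flag complex of `G` is a homology manifold of dimension `n - 1` with boundary the full subcomplex on `B` -/
structure MB (n : ℕ) (G : SimpleGraph V) (B : Set V) : Prop where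
  big : ∀ T : Finset V, G.IsClique (T : Set V) → T.card ≤ n
  sph : ∀ S : Finset V, G.IsClique (S : Set V) → ¬ (S : Set V) ⊆ B → ∀ i : ℕ,
    beta G (triv V) (lk G S) ∅ i = if i + S.card = n then 1 else 0
  col : ∀ S : Finset V, S.Nonempty → G.IsClique (S : Set V) → (S : Set V) ⊆ B → ∀ i : ℕ,
    beta G (triv V) (lk G S) ∅ i = 0

/-- an orientation: a relative cycle of top degree which does not vanish near any interior vertex -/
structure OB (n : ℕ) (G : SimpleGraph V) (B : Set V) (o : Finset V → ℝ) : Prop where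
  mem : o ∈ KK G (triv V) Set.univ ∅ n
  bdy : ∀ T : Finset V, ¬ (T : Set V) ⊆ B → bd ℝ o T = 0
  ne : ∀ v : V, v ∉ B → Lv v o ≠ 0

theorem top_KKB {n : ℕ} (hS : MB n G B) {S : Finset V} (hcl : G.IsClique (S : Set V)) {d : ℕ} (hd : n < d + S.card) :
    KK G (triv V) (lk G S) ∅ d = ⊥ := by
  rw [eq_bot_iff]
  intro c hc
  rw [mem_KK_triv] at hc
  rw [Submodule.mem_bot]
  funext T
  refine hc T ?_
  rintro ⟨h1, h2, h3⟩
  have h4 := (lk_iff hcl T).1 ⟨h1, h2⟩
  have h5 := hS.big _ h4.2
  rw [Finset.card_union_of_disjoint h4.1] at h5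
  omega

theorem top_dimB {n : ℕ} (hS : MB n G B) {S : Finset V} (hne : ¬ (S : Set V) ⊆ B) (hcl : G.IsClique (S : Set V)) {d : ℕ} (hd : d + S.card = n) :
    finrank ℝ (ZZ G (triv V) (lk G S) ∅ d) = 1 := by
  have h1 := hS.sph S hcl hne d
  rw [if_pos hd] at h1
  have h2 : BB G (triv V) (lk G S) ∅ d = ⊥ := by
    unfold BB
    rw [top_KKB hS hcl (by omega), Submodule.map_bot]
  unfold beta at h1
  rw [h2, finrank_bot] at h1
  omega

theorem top_spanB {n : ℕ} (hS : MB n G B) {S : Finset V} (hne : ¬ (S : Set V) ⊆ B) (hcl : G.IsClique (S : Set V)) {d : ℕ} (hd : d + S.card = n)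
    {z c : Finset V → ℝ} (hz : z ∈ ZZ G (triv V) (lk G S) ∅ d) (hz0 : z ≠ 0)
    (hc : c ∈ ZZ G (triv V) (lk G S) ∅ d) : ∃ r : ℝ, c = r • z := by
  have h1 := top_dimB hS hne hcl hd
  have h2 : (⟨z, hz⟩ : ZZ G (triv V) (lk G S) ∅ d) ≠ 0 := by
    intro h
    exact hz0 (congrArg Subtype.val h)
  obtain ⟨r, hr⟩ := (finrank_eq_one_iff_of_nonzero' _ h2).1 h1 ⟨c, hc⟩
  exact ⟨r, (congrArg Subtype.val hr).symm⟩

theorem Lv_neB {n : ℕ} (hS : MB n G B) : ∀ (d : ℕ) (S : Finset V), ¬ (S : Set V) ⊆ B → G.IsClique (S : Set V) → d + S.card = n →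
    ∀ z ∈ ZZ G (triv V) (lk G S) ∅ d, z ≠ 0 → ∀ v ∈ lk G S, Lv v z ≠ 0 := by
  classical
  intro d
  induction d with
  | zero =>
    intro S hne0 hcl hd z _ _ v hv
    exfalso
    have h1 : G.IsClique ((S ∪ {v} : Finset V) : Set V) :=
      ((lk_iff hcl {v}).1 ⟨by simp, by simpa using hv⟩).2
    have h2 : Disjoint S {v} := ((lk_iff hcl {v}).1 ⟨by simp, by simpa using hv⟩).1
    have h3 := hS.big _ h1
    rw [Finset.card_union_of_disjoint h2, Finset.card_singleton] at h3
    omega
  | succ d ih =>
    intro S hne0 hcl hd z hz hz0 v hv hL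
    -- a good vertex
    obtain ⟨T, hT⟩ : ∃ T, z T ≠ 0 := by
      by_contra h
      push Not at h
      exact hz0 (funext h)
    have hzK := hz.1
    rw [SetLike.mem_coe, mem_KK_triv] at hzK
    have hT2 : G.IsClique (T : Set V) ∧ (T : Set V) ⊆ lk G S ∧ T.card = d + 1 := by
      by_contra h
      exact hT (hzK T h)
    obtain ⟨u, hu⟩ : T.Nonempty := Finset.card_pos.1 (by omega)
    have hu2 : u ∈ lk G S := hT2.2.1 hu
    have hLu : Lv u z ≠ 0 := by
      intro h
      have h1 := congrFun h (T.erase u)
      have e : Lv u z (T.erase u) = (sg u (T.erase u) : ℝ) * z (insert u (T.erase u)) :=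
        if_neg (Finset.notMem_erase u T)
      rw [e, Finset.insert_erase hu, Pi.zero_apply] at h1
      rcases mul_eq_zero.1 h1 with h2 | h2
      · rcases sg_eq_or u (T.erase u) with h3 | h3 <;> rw [h3] at h2 <;> norm_num at h2
      · exact hT h2
    have huv : u ≠ v := by
      rintro rfl
      exact hLu hL
    have hdv := dv_mem huv hu2 hv
    -- the functional
    have key : ∀ c ∈ ZZ G (triv V) (lk G S) ∅ 1,
        ∑ w : V, (if Lv w z ≠ 0 ∧ w ∈ lk G S then c {w} else 0) = 0 := by
      rcases Nat.eq_zero_or_pos d with h0 | h0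
      · subst h0
        intro c hc
        obtain ⟨r, rfl⟩ := top_spanB hS hne0 hcl hd hz hz0 hc
        have h1 : ∀ w : V, (if Lv w z ≠ 0 ∧ w ∈ lk G S then (r • z) {w} else 0) = r * z {w} := by
          intro w
          split_ifs with h
          · rfl
          · by_cases hw : w ∈ lk G S
            · have h2 : Lv w z = 0 := by
                by_contra h3
                exact h ⟨h3, hw⟩
              have h3 := congrFun h2 ∅
              have e : Lv w z ∅ = (sg w (∅ : Finset V) : ℝ) * z (insert w ∅) := if_neg (Finset.notMem_empty w)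
              have e2 : (sg w (∅ : Finset V) : ℤ) = 1 := by simp [sg]
              have e3 : (insert w ∅ : Finset V) = {w} := rfl
              rw [e, e2, e3, Int.cast_one, one_mul, Pi.zero_apply] at h3
              rw [h3, mul_zero]
            · rw [hzK {w}, mul_zero]
              rintro ⟨_, h2, _⟩
              exact hw (h2 (by simp))
        rw [Finset.sum_congr rfl fun w _ => h1 w, ← Finset.mul_sum]
        have h2 := congrFun (show bd ℝ z = 0 from hz.2) ∅
        rw [bd_apply, Pi.zero_apply] at h2
        have h3 : ∑ w : V, z {w} = 0 := by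
          rw [← h2]
          refine Finset.sum_congr (by simp) fun w _ => ?_
          have e2 : (sg w (∅ : Finset V) : ℤ) = 1 := by simp [sg]
          have e3 : (insert w ∅ : Finset V) = {w} := rfl
          rw [e2, one_smul, e3]
        rw [h3, mul_zero]
      · intro c hc
        rw [← exact_of_beta (by rw [hS.sph S hcl hne0 1, if_neg (by omega)])] at hc
        obtain ⟨y, hy, rfl⟩ := hc
        rw [SetLike.mem_coe, mem_KK_triv] at hy
        have hadj : ∀ w x : V, y {w, x} ≠ 0 → w ≠ x → Lv w z ≠ 0 → Lv x z ≠ 0 := by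
          intro w x hwx hne hw hx
          have h1 : G.IsClique (({w, x} : Finset V) : Set V) ∧ (({w, x} : Finset V) : Set V) ⊆ lk G S ∧
              ({w, x} : Finset V).card = 1 + 1 := by
            by_contra h
            exact hwx (hy _ h)
          have hwS : w ∈ lk G S := h1.2.1 (by simp)
          have hxS : x ∈ lk G S := h1.2.1 (by simp)
          have hA : G.Adj w x := h1.1 (by simp) (by simp) hne
          have hwn : w ∉ S := fun h => G.irrefl (hwS w h)
          have hcl2 : G.IsClique ((insert w S : Finset V) : Set V) := by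
            have h2 := ((lk_iff hcl {w}).1 ⟨by simp, by simpa using hwS⟩).2
            rwa [Finset.union_comm] at h2
          have h3 := ih (insert w S) (fun hh => hne0 ((Finset.coe_subset.2 (Finset.subset_insert w S)).trans hh)) hcl2 (by rw [Finset.card_insert_of_notMem hwn]; omega) (Lv w z)
            (Lv_mem w hz) hw x (by
              intro u hu
              rcases Finset.mem_insert.1 hu with rfl | hu
              · exact hA.symm
              · exact hxS u hu)
          refine h3 ?_
          funext R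
          by_cases hxR : x ∈ R
          · exact if_pos hxR
          · have e : Lv x (Lv w z) R = (sg x R : ℝ) * Lv w z (insert x R) := if_neg hxR
            rw [e]
            by_cases hwR : w ∈ R
            · have e2 : Lv w z (insert x R) = 0 := if_pos (Finset.mem_insert_of_mem hwR)
              rw [e2, mul_zero]
              rfl
            · have e2 : Lv w z (insert x R) = (sg w (insert x R) : ℝ) * z (insert w (insert x R)) := by
                refine if_neg ?_
                rw [Finset.mem_insert, not_or]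
                exact ⟨hne, hwR⟩
              have h4 := congrFun hx (insert w R)
              have e3 : Lv x z (insert w R) = (sg x (insert w R) : ℝ) * z (insert x (insert w R)) := by
                refine if_neg ?_
                rw [Finset.mem_insert, not_or]
                exact ⟨fun h => hne h.symm, hxR⟩
              rw [e3, Pi.zero_apply] at h4
              have h5 : z (insert x (insert w R)) = 0 := by
                rcases mul_eq_zero.1 h4 with h2 | h2
                · rcases sg_eq_or x (insert w R) with h3 | h3 <;> rw [h3] at h2 <;> norm_num at h2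
                · exact h2
              rw [e2, Finset.insert_comm w x R, h5, mul_zero, mul_zero]
              rfl
        have h1 : ∀ w : V, (if Lv w z ≠ 0 ∧ w ∈ lk G S then bd ℝ y {w} else 0) =
            ∑ x : V, (if Lv w z ≠ 0 ∧ w ≠ x then (sg x {w} : ℝ) * y {w, x} else 0) := by
          intro w
          split_ifs with h
          · rw [bd_apply, ← Finset.sum_subset (Finset.subset_univ ({w} : Finset V)ᶜ)]
            · refine Finset.sum_congr rfl fun x hx => ?_
              have hx' : x ≠ w := by simpa using hx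
              rw [if_pos ⟨h.1, hx'.symm⟩, zsmul_eq_mul, Finset.pair_comm w x]
            · intro x _ hx
              have hx' : x = w := by simpa using hx
              rw [if_neg]
              rintro ⟨_, h2⟩
              exact h2 hx'.symm
          · symm
            refine Finset.sum_eq_zero fun x _ => ?_
            split_ifs with h2
            · rw [hy {w, x}, mul_zero]
              rintro ⟨_, h3, _⟩
              exact h ⟨h2.1, h3 (by simp)⟩
            · rfl
        rw [Finset.sum_congr rfl fun w _ => h1 w]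
        have h2 : ∑ w : V, ∑ x : V, (if Lv w z ≠ 0 ∧ w ≠ x then (sg x {w} : ℝ) * y {w, x} else 0) =
            - ∑ w : V, ∑ x : V, (if Lv w z ≠ 0 ∧ w ≠ x then (sg x {w} : ℝ) * y {w, x} else 0) := by
          conv_lhs => rw [Finset.sum_comm]
          rw [← Finset.sum_neg_distrib]
          refine Finset.sum_congr rfl fun w _ => ?_
          rw [← Finset.sum_neg_distrib]
          refine Finset.sum_congr rfl fun x _ => ?_
          by_cases hxw : w = x
          · subst hxw
            simp
          · by_cases h0' : y {w, x} = 0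
            · have h0'' : y {x, w} = 0 := by rw [Finset.pair_comm]; exact h0'
              rw [h0', h0'']
              simp
            · have h4 : Lv w z ≠ 0 ↔ Lv x z ≠ 0 :=
                ⟨hadj w x h0' hxw, hadj x w (by rw [Finset.pair_comm]; exact h0') (fun h => hxw h.symm)⟩
              by_cases h5 : Lv w z ≠ 0
              · rw [if_pos ⟨h4.1 h5, fun h => hxw h.symm⟩, if_pos ⟨h5, hxw⟩, Finset.pair_comm x w]
                have h6 := sg_swap w x ∅ hxw (by simp) (by simp)
                have e1 : (sg w (∅ : Finset V) : ℤ) = 1 := by simp [sg]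
                have e2 : (sg x (∅ : Finset V) : ℤ) = 1 := by simp [sg]
                have e3 : (insert x ∅ : Finset V) = {x} := rfl
                have e4 : (insert w ∅ : Finset V) = {w} := rfl
                rw [e1, e2, e3, e4, mul_one, mul_one] at h6
                rw [h6]
                push_cast
                ring
              · rw [if_neg fun h => h5 (h4.2 h.1), if_neg fun h => h5 h.1, neg_zero]
        linarith
    have h1 := key (dv u v) hdv
    rw [Finset.sum_eq_single u] at h1
    · rw [if_pos ⟨hLu, hu2⟩] at h1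
      unfold dv at h1
      rw [if_neg, if_pos rfl] at h1
      · norm_num at h1
      · intro h
        exact huv (Finset.singleton_injective h)
    · intro w _ hw
      by_cases hwv : w = v
      · subst hwv
        exact if_neg fun h => h.1 hL
      · have h2 : dv u v {w} = 0 := by
          unfold dv
          rw [if_neg, if_neg]
          · exact fun h => hw (Finset.singleton_injective h)
          · exact fun h => hwv (Finset.singleton_injective h)
        rw [h2, ite_self]
    · intro h
      exact absurd (Finset.mem_univ _) h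


theorem Lv_smul (v : V) (r : ℝ) (c : Finset V → ℝ) : Lv v (r • c) = r • Lv v c := by
  funext R
  rw [Pi.smul_apply]
  unfold Lv
  split_ifs
  · rw [smul_zero]
  · rw [Pi.smul_apply, smul_eq_mul, smul_eq_mul]
    ring

/-- the boundary of the orientation of a link -/
theorem bd_oS (o : Finset V → ℝ) (S : Finset V) : bd ℝ (oS o S) = ((-1 : ℝ) ^ S.card) • oS (bd ℝ o) S := by
  induction S using Finset.induction_on with
  | empty =>
    rw [oS_empty, oS_empty, Finset.card_empty, pow_zero, one_smul]
  | insert s S hs ih =>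
    rw [oS_insert o hs, oS_insert (bd ℝ o) hs, map_smul, bd_Lv, ih, Lv_smul, Finset.card_insert_of_notMem hs,
      pow_succ, smul_neg, smul_smul, smul_smul, ← neg_smul]
    congr 1
    ring

theorem oS_supp' {n : ℕ} {o : Finset V → ℝ} (ho : o ∈ KK G (triv V) Set.univ ∅ n) {S R : Finset V}
    (h : oS o S R ≠ 0) : Disjoint S R ∧ G.IsClique ((S ∪ R : Finset V) : Set V) ∧ R.card + S.card = n := by
  obtain ⟨h1, h2⟩ := oS_ne_zero h
  rw [mem_KK_triv] at ho
  have h4 : G.IsClique ((S ∪ R : Finset V) : Set V) ∧ ((S ∪ R : Finset V) : Set V) ⊆ Set.univ ∧ (S ∪ R).card = n := by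
    by_contra hn
    exact h2 (ho _ hn)
  refine ⟨h1, h4.1, ?_⟩
  rw [← h4.2.2, Finset.card_union_of_disjoint h1, add_comm]

theorem oS_memB {n : ℕ} {o : Finset V → ℝ} (ho : OB n G B o) {S : Finset V} (hcl : G.IsClique (S : Set V))
    (hne : ¬ (S : Set V) ⊆ B) {d : ℕ} (hd : d + S.card = n) : oS o S ∈ ZZ G (triv V) (lk G S) ∅ d := by
  refine ⟨?_, ?_⟩
  · rw [SetLike.mem_coe, mem_KK_triv]
    intro R hR
    by_contra h
    obtain ⟨h1, h2, h3⟩ := oS_supp' ho.mem h
    have h4 := (lk_iff hcl R).2 ⟨h1, h2⟩
    exact hR ⟨h4.1, h4.2, by omega⟩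
  · show bd ℝ (oS o S) = 0
    rw [bd_oS]
    have h1 : oS (bd ℝ o) S = 0 := by
      funext R
      unfold oS
      split_ifs
      · rw [ho.bdy (S ∪ R), mul_zero]
        · rfl
        · intro hh
          refine hne (Set.Subset.trans ?_ hh)
          exact_mod_cast Finset.subset_union_left
      · rfl
    rw [h1, smul_zero]

theorem oS_neB {n : ℕ} (hS : MB n G B) {o : Finset V → ℝ} (ho : OB n G B o) {S : Finset V}
    (hcl : G.IsClique (S : Set V)) (hne : ¬ (S : Set V) ⊆ B) : oS o S ≠ 0 := by
  obtain ⟨v, hvS, hvB⟩ := Set.not_subset.1 hne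
  have key : ∀ S0 : Finset V, v ∉ S0 → G.IsClique ((insert v S0 : Finset V) : Set V) → oS o (insert v S0) ≠ 0 := by
    intro S0
    induction S0 using Finset.induction_on with
    | empty =>
      intro _ _
      rw [oS_insert o (Finset.notMem_empty v), oS_empty]
      exact smul_ne_zero (ep_ne _ _) (ho.ne v hvB)
    | insert s S0 hs ih =>
      intro hv hcl
      rw [Finset.mem_insert, not_or] at hv
      have hs' : s ∉ insert v S0 := by
        rw [Finset.mem_insert, not_or]
        exact ⟨fun e => hv.1 e.symm, hs⟩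
      rw [Finset.insert_comm] at hcl ⊢
      have hcl' : G.IsClique ((insert v S0 : Finset V) : Set V) := hcl.subset (by simp)
      have hne' : ¬ ((insert v S0 : Finset V) : Set V) ⊆ B := fun hh => hvB (hh (by simp))
      rw [oS_insert o hs']
      refine smul_ne_zero (ep_ne _ _) ?_
      have hcard := hS.big _ hcl
      rw [Finset.card_insert_of_notMem hs'] at hcard
      obtain ⟨d, hd⟩ := Nat.exists_eq_add_of_le hcard
      have hsl : s ∈ lk G (insert v S0) := fun u hu =>
        hcl (by simp) (by
          rw [Finset.mem_coe, Finset.mem_insert]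
          exact Or.inr hu) (fun e => hs' (e ▸ hu))
      exact Lv_neB hS (d + 1) _ hne' hcl' (by omega) _ (oS_memB ho hcl' hne' (by omega)) (ih hv.2 hcl') s hsl
  have e : S = insert v (S.erase v) := (Finset.insert_erase hvS).symm
  rw [e]
  refine key _ (Finset.notMem_erase v S) ?_
  rwa [← e]

/-! ### relative cochains -/

variable {X : Type} {a : V → X → X}

/-- the relative invariant cochains -/
def KPR (G : SimpleGraph V) (a : V → X → X) (B : Set V) (j : ℕ) : Submodule ℝ (Finset V → X → ℝ) where
  carrier := {m | m ∈ KP G a j ∧ ∀ T : Finset V, (T : Set V) ⊆ B → m T = 0}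
  add_mem' := by
    rintro m m' ⟨h1, h2⟩ ⟨h3, h4⟩
    refine ⟨Submodule.add_mem _ h1 h3, fun T hT => ?_⟩
    rw [Pi.add_apply, h2 T hT, h4 T hT, add_zero]
  zero_mem' := ⟨Submodule.zero_mem _, fun T _ => rfl⟩
  smul_mem' := by
    rintro r m ⟨h1, h2⟩
    refine ⟨Submodule.smul_mem _ r h1, fun T hT => ?_⟩
    rw [Pi.smul_apply, h2 T hT, smul_zero]

theorem mem_KPR {j : ℕ} {m : Finset V → X → ℝ} :
    m ∈ KPR G a B j ↔ m ∈ KP G a j ∧ ∀ T : Finset V, (T : Set V) ⊆ B → m T = 0 := Iff.rfl

theorem wm_lay' {n : ℕ} {o : Finset V → ℝ} (ho : o ∈ KK G (triv V) Set.univ ∅ n) {i j : ℕ} (hij : i + j = n)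
    {m : Finset V → X → ℝ} (hm : m ∈ KP G a j) : Lay G a j i (wm o m) := by
  rw [mem_KP] at hm
  refine ⟨fun S R hn => ?_, fun S R s hs => ?_⟩
  · unfold wm
    by_cases h1 : oS o S R = 0
    · rw [h1, zero_smul]
    · obtain ⟨h2, h3, h4⟩ := oS_supp' ho h1
      by_cases h5 : S.card = j
      · exact absurd ⟨h2, h3, h5, by omega⟩ hn
      · rw [hm.1 S fun h => h5 h.2, smul_zero]
  · unfold wm
    rw [map_smul, hm.2 S s hs]

theorem wm_D1B {n : ℕ} {o : Finset V → ℝ} (ho : OB n G B o) {i j : ℕ} (hij : i + j = n)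
    {m : Finset V → X → ℝ} (hm : m ∈ KPR G a B j) : D1 (wm o m) = 0 := by
  obtain ⟨hm, hmB⟩ := hm
  rw [mem_KP] at hm
  funext S R
  rw [D1_apply]
  by_cases h0 : (S : Set V) ⊆ B
  · refine Finset.sum_eq_zero fun v _ => ?_
    unfold wm
    rw [hmB S h0, smul_zero, smul_zero]
  by_cases h1 : G.IsClique (S : Set V) ∧ S.card = j
  · have h2 := (oS_memB ho h1.1 h0 (d := i) (by omega)).2
    have h3 := congrFun (show bd ℝ (oS o S) = 0 from h2) R
    rw [bd_apply, Pi.zero_apply] at h3
    have h4 : ∀ v ∈ Rᶜ, sg v R • wm o m S (insert v R) = (sg v R • oS o S (insert v R)) • m S := by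
      intro v _
      unfold wm
      rw [smul_assoc]
    rw [Finset.sum_congr rfl h4, ← Finset.sum_smul, h3, zero_smul]
    rfl
  · refine Finset.sum_eq_zero fun v _ => ?_
    unfold wm
    rw [hm.1 S h1, smul_zero, smul_zero]

theorem wm_D2' {n : ℕ} {o : Finset V → ℝ} (ho : o ∈ KK G (triv V) Set.univ ∅ n) {j : ℕ}
    {m : Finset V → X → ℝ} (hm : m ∈ KP G a j) : D2 a (wm o m) = ((-1 : ℤ) ^ j) • wm o (dd G a m) := by
  rw [mem_KP] at hm
  funext S R
  rw [D2_apply]
  have h1 : ∀ s ∈ S \ R, sg s R • pp a s (wm o m (S.erase s) (insert s R)) =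
      oS o S R • ep s S • pp a s (m (S.erase s)) := by
    intro s hs
    rw [Finset.mem_sdiff] at hs
    unfold wm
    have h2 := oS_step o hs.1 hs.2
    rw [map_smul, ← Int.cast_smul_eq_zsmul ℝ (sg s R), smul_smul, h2, mul_comm, ← smul_smul,
      Int.cast_smul_eq_zsmul]
  rw [Finset.sum_congr rfl h1]
  show _ = ((-1 : ℤ) ^ j) • (oS o S R • dd G a m S)
  by_cases h3 : oS o S R = 0
  · rw [h3, zero_smul, smul_zero]
    exact Finset.sum_eq_zero fun s _ => zero_smul _ _
  · obtain ⟨h4, h5, h6⟩ := oS_supp' ho h3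
    have h7 : S \ R = S := Finset.sdiff_eq_self_of_disjoint h4
    rw [h7, dd_pos (h5.subset (by simp)), smul_comm, Finset.smul_sum, Finset.smul_sum]
    refine Finset.sum_congr rfl fun s hs => ?_
    congr 1
    by_cases h8 : S.card = j + 1
    · unfold ep
      rw [h8, smul_smul, Nat.add_sub_cancel]
    · rw [hm.1 (S.erase s), map_zero, smul_zero, smul_zero, smul_zero]
      rintro ⟨_, h9⟩
      rw [Finset.card_erase_of_mem hs] at h9
      have := Finset.card_pos.2 ⟨s, hs⟩
      omega

theorem dd_KPR (hi : ∀ v x, a v (a v x) = x) (hc : ∀ u v, G.Adj u v → ∀ x, a u (a v x) = a v (a u x)) {j : ℕ}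
    {m : Finset V → X → ℝ} (hm : m ∈ KPR G a B j) : dd G a m ∈ KPR G a B (j + 1) := by
  refine ⟨dd_KP hi hc hm.1, fun T hT => ?_⟩
  by_cases h : G.IsClique (T : Set V)
  · rw [dd_pos h]
    refine Finset.sum_eq_zero fun s _ => ?_
    rw [hm.2 (T.erase s), map_zero, smul_zero]
    exact Set.Subset.trans (by exact_mod_cast Finset.erase_subset s T) hT
  · exact dd_neg h

theorem eq_of_wm {n : ℕ} (hS : MB n G B) {o : Finset V → ℝ} (ho : OB n G B o)
    {j : ℕ} {m : Finset V → X → ℝ} (hm : m ∈ KPR G a B j) (h : wm o m = 0) : m = 0 := by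
  funext S
  by_cases h0 : (S : Set V) ⊆ B
  · rw [hm.2 S h0]; rfl
  by_cases hcl : G.IsClique (S : Set V)
  · obtain ⟨R, hR⟩ : ∃ R, oS o S R ≠ 0 := by
      by_contra hn
      push Not at hn
      exact oS_neB hS ho hcl h0 (funext hn)
    have h2 : oS o S R • m S = 0 := congrFun (congrFun h S) R
    rcases smul_eq_zero.1 h2 with h5 | h5
    · exact absurd h5 hR
    · rw [h5]; rfl
  · rw [(mem_KP.1 hm.1).1 S fun hh => hcl hh.1]; rfl

/-- a family of top cycles is of the form `wm o m` -/
theorem exists_mB {n : ℕ} (hS : MB n G B) {o : Finset V → ℝ} (ho : OB n G B o)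
    {i j : ℕ} (hj : 1 ≤ j) (hij : i + j = n) {w : Finset V → Finset V → X → ℝ} (hw : Lay G a j i w) (h1 : D1 w = 0) :
    ∃ m ∈ KPR G a B j, w = wm o m := by
  classical
  have hZ : ∀ (S : Finset V) (x : X), G.IsClique (S : Set V) → (fun R => w S R x) ∈ ZZ G (triv V) (lk G S) ∅ i := by
    intro S x hcl
    refine ⟨?_, ?_⟩
    · rw [SetLike.mem_coe, mem_KK_triv]
      intro T hT
      rw [hw.1 S T, Pi.zero_apply]
      rintro ⟨h3, h4, _, h5⟩
      have h6 := (lk_iff hcl T).2 ⟨h3, h4⟩
      exact hT ⟨h6.1, h6.2, h5⟩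
    · show bd ℝ (fun R => w S R x) = 0
      funext R
      have h3 := congrFun (congrFun (congrFun h1 S) R) x
      rw [D1_apply] at h3
      rw [bd_apply, Pi.zero_apply]
      rw [Pi.zero_apply, Pi.zero_apply, Pi.zero_apply, Finset.sum_apply] at h3
      exact h3
  have hR : ∀ S : Finset V, G.IsClique (S : Set V) → ¬ (S : Set V) ⊆ B → ∃ R, oS o S R ≠ 0 := by
    intro S hcl hne
    have h2 := oS_neB hS ho hcl hne
    by_contra hn
    push Not at hn
    exact h2 (funext hn)
  choose! R hR using hR
  refine ⟨fun S => if G.IsClique (S : Set V) ∧ S.card = j ∧ ¬ (S : Set V) ⊆ B then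
    (oS o S (R S))⁻¹ • w S (R S) else 0, ⟨?_, fun T hT => if_neg fun hh => hh.2.2 hT⟩, ?_⟩
  · rw [mem_KP]
    refine ⟨fun S hn => if_neg fun hh => hn ⟨hh.1, hh.2.1⟩, fun S t ht => ?_⟩
    split_ifs with h
    · rw [map_smul, hw.2 _ _ t ht]
    · rw [map_zero]
  · funext S T
    show w S T = oS o S T •
      (if G.IsClique (S : Set V) ∧ S.card = j ∧ ¬ (S : Set V) ⊆ B then (oS o S (R S))⁻¹ • w S (R S) else 0)
    split_ifs with h
    · funext x
      rw [Pi.smul_apply, Pi.smul_apply, smul_eq_mul, smul_eq_mul]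
      obtain ⟨r, hr⟩ := top_spanB hS h.2.2 h.1 (by omega) (oS_memB ho h.1 h.2.2 (d := i) (by omega))
        (oS_neB hS ho h.1 h.2.2) (hZ S x h.1)
      have h4 : ∀ T, w S T x = r * oS o S T := fun T => congrFun hr T
      rw [h4 T, h4 (R S)]
      have h5 := hR S h.1 h.2.2
      field_simp
    · rw [smul_zero]
      by_cases hcl : G.IsClique (S : Set V) ∧ S.card = j
      · have hB : (S : Set V) ⊆ B := by
          by_contra hn
          exact h ⟨hcl.1, hcl.2, hn⟩
        funext x
        have h2 := hZ S x hcl.1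
        rw [← exact_of_beta (hS.col S (Finset.card_pos.1 (by omega)) hcl.1 hB i)] at h2
        have h3 : BB G (triv V) (lk G S) ∅ i = ⊥ := by
          unfold BB
          rw [top_KKB hS hcl.1 (by omega), Submodule.map_bot]
        rw [h3, Submodule.mem_bot] at h2
        exact congrFun h2 T
      · refine hw.1 S T ?_
        rintro ⟨_, h2, h3, _⟩
        exact hcl ⟨h2.subset (by simp), h3⟩

theorem lay_exactB {n : ℕ} (hS : MB n G B) {j i : ℕ} (hj : 1 ≤ j) (hij : i + j < n)
    {w : Fm V X} (h : Lay G a j i w) (h1 : D1 w = 0) :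
    ∃ y, Lay G a j (i + 1) y ∧ D1 y = w := by
  classical
  have hex : ∀ (S : Finset V) (x : X), G.IsClique (S : Set V) → S.card = j →
      ∃ y ∈ KK G (triv V) (lk G S) ∅ (i + 1), bd ℝ y = fun R => w S R x := by
    intro S x hcl hcard
    have h2 : (fun R => w S R x) ∈ ZZ G (triv V) (lk G S) ∅ i := by
      refine ⟨?_, ?_⟩
      · rw [SetLike.mem_coe, mem_KK_triv]
        intro T hT
        rw [h.1 S T, Pi.zero_apply]
        rintro ⟨h3, h4, _, h5⟩
        have h6 := (lk_iff hcl T).2 ⟨h3, h4⟩
        exact hT ⟨h6.1, h6.2, h5⟩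
      · show bd ℝ (fun R => w S R x) = 0
        funext R
        have h3 := congrFun (congrFun (congrFun h1 S) R) x
        rw [D1_apply] at h3
        rw [bd_apply, Pi.zero_apply]
        rw [Pi.zero_apply, Pi.zero_apply, Pi.zero_apply, Finset.sum_apply] at h3
        exact h3
    have hb : beta G (triv V) (lk G S) ∅ i = 0 := by
      by_cases hB : (S : Set V) ⊆ B
      · exact hS.col S (Finset.card_pos.1 (by omega)) hcl hB i
      · rw [hS.sph S hcl hB i, if_neg (by omega)]
    rw [← exact_of_beta hb] at h2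
    obtain ⟨y, hy, hy2⟩ := h2
    exact ⟨y, hy, hy2⟩
  refine ⟨primF G j i w, ⟨?_, ?_⟩, ?_⟩
  · intro S R hn
    funext x
    rw [Pi.zero_apply, primF_apply]
    by_cases hcl : G.IsClique (S : Set V) ∧ S.card = j
    · rw [if_pos hcl]
      have h2 := (prim_spec (hex S x hcl.1 hcl.2)).1
      rw [mem_KK_triv] at h2
      refine h2 R ?_
      rintro ⟨h3, h4, h5⟩
      have h6 := (lk_iff hcl.1 R).1 ⟨h3, h4⟩
      exact hn ⟨h6.1, h6.2, hcl.2, h5⟩
    · rw [if_neg hcl]
  · intro S R s hs
    funext x
    rw [pull_apply, primF_apply, primF_apply]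
    have h2 : (fun R => w S R (a s x)) = fun R => w S R x := by
      funext R
      have h3 := congrFun (h.2 S R s hs) x
      rwa [pull_apply] at h3
    rw [h2]
  · funext S R x
    rw [D1_apply, Finset.sum_apply]
    by_cases hcl : G.IsClique (S : Set V) ∧ S.card = j
    · have h2 := congrFun (prim_spec (hex S x hcl.1 hcl.2)).2 R
      rw [bd_apply] at h2
      rw [← h2]
      refine Finset.sum_congr rfl fun v _ => ?_
      rw [Pi.smul_apply, primF_apply, if_pos hcl]
    · rw [h.1 S R]
      · rw [Pi.zero_apply]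
        refine Finset.sum_eq_zero fun v _ => ?_
        rw [Pi.smul_apply, primF_apply, if_neg hcl, smul_zero]
      · rintro ⟨_, h3, h4, _⟩
        exact hcl ⟨h3.subset (by simp), h4⟩

end Abs

end Pool.Agent.H77CM
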