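import Pool.Agent.H77CM.A6

set_option autoImplicit false
set_option linter.unusedSectionVars false

/-!
# Lefschetz duality for homology manifolds with boundary
-/

namespace Pool.Agent.H77CM

open Pool.Agent.W907.SG Pool.Agent.W907.SM Pool.Agent.TH652.Dual Module
open Pool.Agent.W397.SG (rank_null)

section Abs

variable {V X : Type} [Fintype V] [LinearOrder V] {G : SimpleGraph V} {B : Set V} {a : V → X → X}

theorem DT_fam0 (hi : ∀ v x, a v (a v x) = x) (hc : ∀ u v, G.Adj u v → ∀ x, a u (a v x) = a v (a u x)) {i : ℕ}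
    {y : Finset V → X → ℝ} (hy : y ∈ KK G (trivX V X) Set.univ ∅ (i + 1)) : DT a (fam0 y) ∈ Tot G a i := by
  rw [DT_apply, D1_fam0]
  exact Submodule.add_mem _ (lay_Tot (fam0_lay' (bd_mem_KK hy))) (lay_Tot (lay_D2 hi hc (fam0_lay' hy)))

theorem DT_empty (Y : Fm V X) : (DT a Y) ∅ = bd ℝ (Y ∅) := by
  funext R
  show D1 Y ∅ R + D2 a Y ∅ R = bd ℝ (Y ∅) R
  rw [D2_apply, Finset.empty_sdiff, Finset.sum_empty, add_zero]
  rfl

/-- the reverse zigzag -/
theorem rev_zigzag {n : ℕ} (hS : MB n G B) (hi : ∀ v x, a v (a v x) = x)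
    (hc : ∀ u v, G.Adj u v → ∀ x, a u (a v x) = a v (a u x)) {i j : ℕ} (hij : i + (j + 1) = n) {w : Fm V X}
    (hw : Lay G a (j + 1) i w) :
    ∀ (p k : ℕ) (Y : Fm V X), 1 ≤ k → k + p = j → Y ∈ Tot G a (i + 1) → (∀ S R : Finset V, S.card < k → Y S R = 0) →
      DT a Y = w → ∃ Y', Lay G a j (i + 1) Y' ∧ D1 Y' = 0 ∧ D2 a Y' = w := by
  intro p
  induction p with
  | zero =>
    intro k Y hk hkj hY hlow hD
    rw [add_zero] at hkj
    subst hkj
    have hlay : Lay G a k (i + 1) Y := by
      refine ⟨fun S R hn => ?_, hY.2⟩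
      by_contra h0
      have h1 : Disjoint S R ∧ G.IsClique ((S ∪ R : Finset V) : Set V) ∧ R.card = i + 1 := by
        by_contra hh
        exact h0 (hY.1 S R hh)
      have h2 := hS.big _ h1.2.1
      rw [Finset.card_union_of_disjoint h1.1, h1.2.2] at h2
      have h3 : ¬ S.card < k := fun h => h0 (hlow S R h)
      exact hn ⟨h1.1, h1.2.1, by omega, h1.2.2⟩
    have hD1 : D1 Y = 0 := by
      funext S R
      by_cases h : S.card = k
      · have h1 : D1 Y S R + D2 a Y S R = w S R := congrFun (congrFun hD S) R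
        have h2 : D2 a Y S R = 0 := by
          rw [D2_apply]
          refine Finset.sum_eq_zero fun s hs => ?_
          have hsS := (Finset.mem_sdiff.1 hs).1
          rw [hlow (S.erase s), map_zero, smul_zero]
          rw [Finset.card_erase_of_mem hsS]
          have := Finset.card_pos.2 ⟨s, hsS⟩
          omega
        have h3 : w S R = 0 := by
          refine hw.1 S R ?_
          rintro ⟨_, _, h4, _⟩
          omega
        rw [h2, add_zero, h3] at h1
        exact h1
      · rw [D1_apply]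
        refine Finset.sum_eq_zero fun v _ => ?_
        rw [hlay.1, smul_zero]
        rintro ⟨_, _, h4, _⟩
        exact h h4
    refine ⟨Y, hlay, hD1, ?_⟩
    rw [← hD, DT_apply, hD1, zero_add]
  | succ p ih =>
    intro k Y hk hkj hY hlow hD
    have hl := cut_lay hY k
    have hD1 : D1 (cut k Y) = 0 := by
      funext S R
      by_cases h : S.card = k
      · have h1 : D1 Y S R + D2 a Y S R = w S R := congrFun (congrFun hD S) R
        have h2 : D2 a Y S R = 0 := by
          rw [D2_apply]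
          refine Finset.sum_eq_zero fun s hs => ?_
          have hsS := (Finset.mem_sdiff.1 hs).1
          rw [hlow (S.erase s), map_zero, smul_zero]
          rw [Finset.card_erase_of_mem hsS]
          have := Finset.card_pos.2 ⟨s, hsS⟩
          omega
        have h3 : w S R = 0 := by
          refine hw.1 S R ?_
          rintro ⟨_, _, h4, _⟩
          omega
        rw [h2, add_zero, h3] at h1
        have h4 : D1 (cut k Y) S R = D1 Y S R := by
          rw [D1_apply, D1_apply]
          refine Finset.sum_congr rfl fun v _ => ?_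
          unfold cut
          rw [if_pos h]
        rw [h4, h1]
        rfl
      · rw [D1_apply]
        refine Finset.sum_eq_zero fun v _ => ?_
        unfold cut
        rw [if_neg h, smul_zero]
    obtain ⟨y, hy, hy1⟩ := lay_exactB hS hk (by omega) hl hD1
    have hy2 := lay_D2 hi hc hy
    have hDT : DT a y ∈ Tot G a (i + 1) := by
      rw [DT_apply, hy1]
      exact Submodule.add_mem _ (lay_Tot hl) (lay_Tot hy2)
    refine ih (k + 1) (Y - DT a y) (by omega) (by omega) (Submodule.sub_mem _ hY hDT) (fun S R hk' => ?_) ?_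
    · have e : (Y - DT a y) S R = Y S R - (D1 y S R + D2 a y S R) := rfl
      have h3 : D2 a y S R = 0 := by
        refine hy2.1 S R ?_
        rintro ⟨_, _, h4, _⟩
        omega
      rw [e, h3, hy1, add_zero]
      unfold cut
      split_ifs with h4
      · rw [sub_self]
      · rw [hlow S R (by omega), sub_zero]
    · rw [map_sub, hD, DT_DT hc hy.good, sub_zero]

/-- the trivial action -/
abbrev a0 (V X : Type) : V → X → X := fun _ x => x

theorem a0_inv (v : V) (x : X) : a0 V X v (a0 V X v x) = x := rfl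

theorem a0_comm (u v : V) (_ : G.Adj u v) (x : X) : a0 V X u (a0 V X v x) = a0 V X v (a0 V X u x) := rfl

theorem C_zero {i : ℕ} (h0 : 1 ≤ i) {z : Finset V → X → ℝ} (hz : z ∈ ZZ G (pull ℝ (a0 V X)) Set.univ ∅ i) : z = 0 := by
  have hz1 := hz.1
  rw [SetLike.mem_coe, mem_KK] at hz1
  funext T
  by_cases h : G.IsClique (T : Set V) ∧ (T : Set V) ⊆ Set.univ ∧ T.card = i
  · obtain ⟨t, ht⟩ : T.Nonempty := Finset.card_pos.1 (by omega)
    funext x
    have h1 := congrFun (hz1.2 T t (Or.inl ht)) x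
    rw [pull_apply, Pi.neg_apply] at h1
    rw [Pi.zero_apply, Pi.zero_apply]
    have h2 : z T x = - z T x := h1
    linarith
  · rw [hz1.1 T h]; rfl

/-- the relative cocycles -/
noncomputable def AR (G : SimpleGraph V) (a : V → X → X) (B : Set V) (j : ℕ) : Submodule ℝ (Finset V → X → ℝ) :=
  KPR G a B j ⊓ LinearMap.ker (dd G a)

/-- the relative coboundaries -/
noncomputable def DR (G : SimpleGraph V) (a : V → X → X) (B : Set V) (j : ℕ) : Submodule ℝ (Finset V → X → ℝ) :=
  (KPR G a B j).map (dd G a)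

variable [Fintype X]

/-- Lefschetz duality -/
theorem lefschetz {n : ℕ} (hS : MB n G B) {o : Finset V → ℝ} (ho : OB n G B o) {i j : ℕ} (h0 : 1 ≤ i)
    (hij : i + (j + 1) = n) :
    finrank ℝ (AR G (a0 V X) B (j + 1)) + finrank ℝ (BB G (trivX V X) Set.univ ∅ (i + 1)) ≤
      finrank ℝ (ZZ G (trivX V X) Set.univ ∅ (i + 1)) + finrank ℝ (DR G (a0 V X) B j) := by
  set a := a0 V X with ha
  have hi : ∀ v x, a v (a v x) = x := a0_inv
  have hc : ∀ u v, G.Adj u v → ∀ x, a u (a v x) = a v (a u x) := a0_comm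
  set ev : Fm V X →ₗ[ℝ] (Finset V → X → ℝ) := LinearMap.proj ∅ with hev
  set T1 : Submodule ℝ (Fm V X × (Finset V → X → ℝ)) := (Tot G a (i + 1)).map ((DT a).prod ev) with hT1
  set R : Submodule ℝ ((Finset V → X → ℝ) × (Finset V → X → ℝ)) :=
    T1.comap ((wmL o).prodMap LinearMap.id) with hR
  have hRm : ∀ m y, (m, y) ∈ R ↔ ∃ Y ∈ Tot G a (i + 1), DT a Y = wm o m ∧ Y ∅ = y := by
    intro m y
    constructor
    · rintro ⟨Y, hY, hYe⟩
      exact ⟨Y, hY, congrArg Prod.fst hYe, congrArg Prod.snd hYe⟩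
    · rintro ⟨Y, hY, h1, h2⟩
      exact ⟨Y, hY, Prod.ext h1 h2⟩
  have h1 : ∀ m ∈ AR G a B (j + 1), ∃ y ∈ ZZ G (trivX V X) Set.univ ∅ (i + 1), (m, y) ∈ R := by
    rintro m ⟨hm1, hm2⟩
    have hl := wm_lay' (a := a) ho.mem hij hm1.1
    have hD : DT a (wm o m) = 0 := by
      have hm3 : dd G a m = 0 := hm2
      rw [DT_apply, wm_D1B ho hij hm1, wm_D2' ho.mem hm1.1, hm3, zero_add]
      have : wm o (0 : Finset V → X → ℝ) = 0 := map_zero (wmL o)
      rw [this, smul_zero]
    obtain ⟨Y, hY, z, hz, he⟩ := stair hi hc (lay_Tot hl) hD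
    rw [C_zero h0 hz, fam0_zero, add_zero] at he
    refine ⟨Y ∅, ⟨?_, ?_⟩, (hRm _ _).2 ⟨Y, hY, he.symm, rfl⟩⟩
    · rw [SetLike.mem_coe, mem_KX]
      intro T hT
      refine hY.1 ∅ T ?_
      rintro ⟨_, h4, h5⟩
      rw [Finset.empty_union] at h4
      exact hT ⟨h4, Set.subset_univ _, h5⟩
    · show bd ℝ (Y ∅) = 0
      rw [← DT_empty (a := a), ← he]
      funext R
      refine hl.1 ∅ R ?_
      rintro ⟨_, _, h5, _⟩
      rw [Finset.card_empty] at h5
      omega
  have h2 : ∀ m y, (m, y) ∈ R → m ∈ AR G a B (j + 1) → y ∈ BB G (trivX V X) Set.univ ∅ (i + 1) →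
      m ∈ DR G a B j := by
    rintro m _ hmy ⟨hm1, hm2⟩ ⟨y', hy', rfl⟩
    obtain ⟨Y, hY, hDY, hYy⟩ := (hRm _ _).1 hmy
    have hl := wm_lay' (a := a) ho.mem hij hm1.1
    have hl0 := fam0_lay' (a := a) hy'
    set Y1 := Y - DT a (fam0 y') with hY1
    have hY1T : Y1 ∈ Tot G a (i + 1) := Submodule.sub_mem _ hY (DT_fam0 hi hc hy')
    have hY1D : DT a Y1 = wm o m := by
      rw [hY1, map_sub, DT_DT hc hl0.good, sub_zero, hDY]
    have hY10 : Y1 ∅ = 0 := by
      rw [hY1, Pi.sub_apply, hYy, DT_empty]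
      have : (fam0 y' : Fm V X) ∅ = y' := by
        funext T
        exact if_pos rfl
      rw [this, sub_self]
    rcases Nat.eq_zero_or_pos j with hj | hj
    · subst hj
      have h3 : Y1 = 0 := by
        funext S T
        rcases S.eq_empty_or_nonempty with h4 | h4
        · rw [h4, hY10]; rfl
        · refine hY1T.1 S T ?_
          rintro ⟨h5, h6, h7⟩
          have h8 := hS.big _ h6
          rw [Finset.card_union_of_disjoint h5, h7] at h8
          have := Finset.card_pos.2 h4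
          omega
      rw [h3, map_zero] at hY1D
      rw [eq_of_wm hS ho hm1 hY1D.symm]
      exact Submodule.zero_mem _
    · obtain ⟨Y2, hY2, h3, h4⟩ := rev_zigzag hS hi hc hij hl (j - 1) 1 Y1 le_rfl (by omega) hY1T (fun S T hS1 => by
        have h5 : S = ∅ := Finset.card_eq_zero.1 (by omega)
        rw [h5, hY10]; rfl) hY1D
      obtain ⟨m', hm', rfl⟩ := exists_mB hS ho hj (by omega) hY2 h3
      rw [wm_D2' ho.mem hm'.1] at h4
      have h5 : wm o (((-1 : ℤ) ^ j) • dd G a m' - m) = 0 := by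
        have e1 : wm o (((-1 : ℤ) ^ j) • dd G a m' - m) = ((-1 : ℤ) ^ j) • wm o (dd G a m') - wm o m := by
          have e2 := map_sub (wmL (X := X) o) (((-1 : ℤ) ^ j) • dd G a m') m
          rw [map_zsmul] at e2
          exact e2
        rw [e1, h4, sub_self]
      have h6 : (((-1 : ℤ) ^ j) • dd G a m' - m) ∈ KPR G a B (j + 1) :=
        Submodule.sub_mem _ ((KPR G a B (j + 1)).toAddSubgroup.zsmul_mem (dd_KPR hi hc hm') _) hm1
      have h7 := eq_of_wm hS ho h6 h5
      refine ⟨((-1 : ℤ) ^ j) • m', (KPR G a B j).toAddSubgroup.zsmul_mem hm' _, ?_⟩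
      rw [map_zsmul]
      exact sub_eq_zero.1 h7
  have hD : BB G (trivX V X) Set.univ ∅ (i + 1) ≤ ZZ G (trivX V X) Set.univ ∅ (i + 1) := BB_le_ZZ _ _ _ _ _
  exact rel_dim _ _ _ _ R hD h1 h2

end Abs

end Pool.Agent.H77CM
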