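import Pool.Agent.H77CM.A7

set_option autoImplicit false
set_option linter.unusedSectionVars false

/-!
# The Betti numbers of a homology manifold with boundary and those of the boundary
-/

namespace Pool.Agent.H77CM

open Pool.Agent.W907.SG Pool.Agent.W907.SM Pool.Agent.TH652.Dual Module
open Pool.Agent.W397.SG (rank_null euler)

section Abs

variable {V X : Type} [Fintype V] [LinearOrder V] {G : SimpleGraph V} {B : Set V}

open Classical in
/-- restriction to the sets which are not contained in `B` -/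
noncomputable def piB (B : Set V) : (Finset V → X → ℝ) →ₗ[ℝ] (Finset V → X → ℝ) where
  toFun c T := if (T : Set V) ⊆ B then 0 else c T
  map_add' c d := by
    funext T
    rw [Pi.add_apply, Pi.add_apply]
    split_ifs
    · rw [add_zero]
    · rfl
  map_smul' r c := by
    funext T
    rw [RingHom.id_apply, Pi.smul_apply, Pi.smul_apply]
    split_ifs
    · rw [smul_zero]
    · rfl

theorem piB_pos {c : Finset V → X → ℝ} {T : Finset V} (h : (T : Set V) ⊆ B) : piB B c T = 0 := if_pos h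

theorem piB_neg {c : Finset V → X → ℝ} {T : Finset V} (h : ¬ (T : Set V) ⊆ B) : piB B c T = c T := if_neg h

theorem mem_KP0 {j : ℕ} {m : Finset V → X → ℝ} : m ∈ KP G (a0 V X) j ↔ m ∈ KK G (trivX V X) Set.univ ∅ j := by
  rw [mem_KP, mem_KX]
  constructor
  · rintro ⟨h1, _⟩ T hT
    exact h1 T fun hh => hT ⟨hh.1, Set.subset_univ _, hh.2⟩
  · intro h
    refine ⟨fun T hT => h T fun hh => hT ⟨hh.1, hh.2.2⟩, fun T t _ => rfl⟩

theorem map_piB (j : ℕ) : (KK G (trivX V X) Set.univ ∅ j).map (piB B) = KPR G (a0 V X) B j := by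
  ext m
  constructor
  · rintro ⟨c, hc, rfl⟩
    refine ⟨?_, fun T hT => piB_pos hT⟩
    rw [SetLike.mem_coe, mem_KX] at hc
    rw [mem_KP0, mem_KX]
    intro T hT
    by_cases h : (T : Set V) ⊆ B
    · exact piB_pos h
    · rw [piB_neg h, hc T hT]
  · rintro ⟨h1, h2⟩
    refine ⟨m, mem_KP0.1 h1, ?_⟩
    funext T
    by_cases h : (T : Set V) ⊆ B
    · rw [piB_pos h, h2 T h]
    · rw [piB_neg h]

theorem ker_piB (j : ℕ) : (KK G (trivX V X) Set.univ ∅ j ⊓ LinearMap.ker (piB B) : Submodule ℝ (Finset V → X → ℝ)) =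
    KK G (trivX V X) B ∅ j := by
  ext c
  rw [Submodule.mem_inf, mem_KX, mem_KX]
  constructor
  · rintro ⟨h1, h2⟩ T hT
    by_cases h : (T : Set V) ⊆ B
    · exact h1 T fun hh => hT ⟨hh.1, h, hh.2.2⟩
    · have h3 : piB B c T = 0 := congrFun h2 T
      rwa [piB_neg h] at h3
  · intro h
    refine ⟨fun T hT => h T fun hh => hT ⟨hh.1, Set.subset_univ _, hh.2.2⟩, ?_⟩
    show piB B c = 0
    funext T
    by_cases hT : (T : Set V) ⊆ B
    · rw [piB_pos hT]; rfl
    · rw [piB_neg hT, h T fun hh => hT hh.2.1]; rfl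

variable [Fintype X]

theorem dim_split (j : ℕ) : finrank ℝ (KK G (trivX V X) Set.univ ∅ j) =
    finrank ℝ (KPR G (a0 V X) B j) + finrank ℝ (KK G (trivX V X) B ∅ j) := by
  have h := rank_null (piB (X := X) B) (KK G (trivX V X) Set.univ ∅ j)
  rw [map_piB, ker_piB] at h
  omega

theorem prc_piB {m c : Finset V → X → ℝ} (hm : ∀ T : Finset V, (T : Set V) ⊆ B → m T = 0) :
    prc m (piB B c) = prc m c := by
  unfold prc
  refine Finset.sum_congr rfl fun T _ => Finset.sum_congr rfl fun x _ => ?_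
  by_cases h : (T : Set V) ⊆ B
  · rw [hm T h, Pi.zero_apply, zero_mul, zero_mul]
  · rw [piB_neg h]

/-- the ranks of the boundary maps -/
theorem rank_star (m : ℕ) : finrank ℝ (DR G (a0 V X) B m) + finrank ℝ (BB G (trivX V X) B ∅ m) ≤
    finrank ℝ (BB G (trivX V X) Set.univ ∅ m) := by
  have hi : ∀ v x, a0 V X v (a0 V X v x) = x := a0_inv
  have hc : ∀ u v, G.Adj u v → ∀ x, a0 V X u (a0 V X v x) = a0 V X v (a0 V X u x) := a0_comm
  set E := BB G (trivX V X) Set.univ ∅ m with hE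
  have r1 := rank_null (piB (X := X) B) E
  have h1 : BB G (trivX V X) B ∅ m ≤ E ⊓ LinearMap.ker (piB B) := by
    rintro _ ⟨c, hc', rfl⟩
    have hc1 : c ∈ KK G (trivX V X) B ∅ (m + 1) := hc'
    have h2 := bd_mem_KK hc1
    rw [← ker_piB] at hc' h2
    exact ⟨⟨c, hc'.1, rfl⟩, h2.2⟩
  have r2 := Submodule.finrank_mono h1
  set f : (Finset V → X → ℝ) →ₗ[ℝ] (Finset V → X → ℝ) := piB B ∘ₗ bd ℝ with hf
  have r3 := rank_null f (DR G (a0 V X) B m)
  have h2 : (DR G (a0 V X) B m ⊓ LinearMap.ker f : Submodule ℝ (Finset V → X → ℝ)) = ⊥ := by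
    rw [eq_bot_iff]
    rintro _ ⟨⟨y, hy, rfl⟩, hx⟩
    rw [Submodule.mem_bot]
    have h3 : piB B (bd ℝ (dd G (a0 V X) y)) = 0 := hx
    refine prc_self ?_
    rw [dd_adj hi y (dd_KP hi hc hy.1), ← prc_piB hy.2, h3]
    unfold prc
    simp
  have h3 : (DR G (a0 V X) B m).map f ≤ E.map (piB B) := by
    rintro _ ⟨_, ⟨y, hy, rfl⟩, rfl⟩
    exact ⟨bd ℝ (dd G (a0 V X) y), ⟨dd G (a0 V X) y, mem_KP0.1 (dd_KP hi hc hy.1), rfl⟩, rfl⟩
  have r4 := Submodule.finrank_mono h3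
  rw [h2, finrank_bot] at r3
  omega

theorem rank_KPR (j : ℕ) : finrank ℝ (DR G (a0 V X) B j) + finrank ℝ (AR G (a0 V X) B j) =
    finrank ℝ (KPR G (a0 V X) B j) := by
  have h := rank_null (dd G (a0 V X)) (KPR G (a0 V X) B j)
  unfold DR AR
  omega

theorem DR_le_AR {n : ℕ} (hS : MB n G B) {o : Finset V → ℝ} (ho : OB n G B o) {j : ℕ} (hj : j ≤ n) :
    DR G (a0 V X) B j ≤ AR G (a0 V X) B (j + 1) := by
  have hi : ∀ v x, a0 V X v (a0 V X v x) = x := a0_inv
  have hc : ∀ u v, G.Adj u v → ∀ x, a0 V X u (a0 V X v x) = a0 V X v (a0 V X u x) := a0_comm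
  rintro _ ⟨m, hm, rfl⟩
  refine ⟨dd_KPR hi hc hm, ?_⟩
  show dd G (a0 V X) (dd G (a0 V X) m) = 0
  obtain ⟨i, hi'⟩ := Nat.exists_eq_add_of_le hj
  have hgood := (wm_lay' (a := a0 V X) ho.mem (show i + j = n by omega) hm.1).good
  have h1 : D2 (a0 V X) (D2 (a0 V X) (wm o m)) = 0 := D2_D2 hc hgood
  rw [wm_D2' ho.mem hm.1] at h1
  have h2 := map_zsmul (D2L (V := V) (X := X) (a0 V X)) ((-1 : ℤ) ^ j) (wm o (dd G (a0 V X) m))
  rw [D2L_apply, D2L_apply, h1, wm_D2' ho.mem (dd_KP hi hc hm.1), smul_smul, ← pow_add] at h2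
  have h3 : wm o (dd G (a0 V X) (dd G (a0 V X) m)) = 0 := by
    rcases neg_one_pow_eq_or ℤ (j + (j + 1)) with h5 | h5
    · rw [h5, one_smul] at h2
      exact h2.symm
    · rw [h5, neg_smul, one_smul] at h2
      exact neg_eq_zero.1 h2.symm
  exact eq_of_wm hS ho (dd_KPR hi hc (dd_KPR hi hc hm)) h3

/-- the truncated alternating sum for the full subcomplex on `A` -/
noncomputable def tbA (G : SimpleGraph V) (A : Set V) (m : ℕ) : ℤ :=
  ∑ i ∈ Finset.range (m + 1), (-1 : ℤ) ^ (m + i) * (beta G (triv V) A ∅ i : ℤ)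

theorem tbA_eq (A : Set V) (m : ℕ) : (Fintype.card X : ℤ) * tbA G A m =
    ∑ i ∈ Finset.range (m + 1), (-1 : ℤ) ^ (m + i) * (finrank ℝ (KK G (trivX V X) A ∅ i) : ℤ) -
      (finrank ℝ (BB G (trivX V X) A ∅ m) : ℤ) := by
  have h := euler G (trivX V X) A ∅ m
  have h1 : (Fintype.card X : ℤ) * tbA G A m =
      (-1) ^ m * ∑ i ∈ Finset.range (m + 1), (-1 : ℤ) ^ i * (beta G (trivX V X) A ∅ i : ℤ) := by
    unfold tbA
    rw [Finset.mul_sum, Finset.mul_sum]
    refine Finset.sum_congr rfl fun i _ => ?_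
    rw [beta_trivX, pow_add]
    push_cast
    ring
  rw [h1, h, mul_sub, Finset.mul_sum, ← mul_assoc, ← mul_pow]
  congr 1
  · refine Finset.sum_congr rfl fun i _ => ?_
    rw [pow_add]
    ring
  · norm_num

theorem alt_shift (t s : ℕ → ℤ) (h0 : t 0 = 0) (m : ℕ) :
    ∑ i ∈ Finset.range (m + 1), (-1 : ℤ) ^ (m + i) * (t i + s i) =
      s m + ∑ i ∈ Finset.range m, (-1 : ℤ) ^ (m + (i + 1)) * (t (i + 1) - s i) := by
  induction m with
  | zero => simp [h0]
  | succ m ih =>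
    rw [Finset.sum_range_succ]
    have h1 : ∑ i ∈ Finset.range (m + 1), (-1 : ℤ) ^ (m + 1 + i) * (t i + s i) =
        - ∑ i ∈ Finset.range (m + 1), (-1 : ℤ) ^ (m + i) * (t i + s i) := by
      rw [← Finset.sum_neg_distrib]
      refine Finset.sum_congr rfl fun i _ => ?_
      rw [show m + 1 + i = m + i + 1 by omega, pow_succ]
      ring
    have h2 : ∑ i ∈ Finset.range m, (-1 : ℤ) ^ (m + 1 + (i + 1)) * (t (i + 1) - s i) =
        - ∑ i ∈ Finset.range m, (-1 : ℤ) ^ (m + (i + 1)) * (t (i + 1) - s i) := by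
      rw [← Finset.sum_neg_distrib]
      refine Finset.sum_congr rfl fun i _ => ?_
      rw [show m + 1 + (i + 1) = m + (i + 1) + 1 by omega, pow_succ]
      ring
    rw [h1, ih, Finset.sum_range_succ, h2]
    have h3 : (-1 : ℤ) ^ (m + 1 + (m + 1)) = 1 := Even.neg_one_pow ⟨m + 1, rfl⟩
    rw [h3]
    ring

/-- the truncated alternating sum of the Betti numbers of the boundary -/
theorem tb_boundary {m : ℕ} (hS : MB (2 * m + 1) G B) {o : Finset V → ℝ} (ho : OB (2 * m + 1) G B o) :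
    tbA G Set.univ m - ∑ i ∈ Finset.range m, (beta G (triv V) Set.univ ∅ (2 * m + 1 - i) : ℤ) ≤ tbA G B m := by
  have e1 := tbA_eq (X := Unit) (G := G) Set.univ m
  have e2 := tbA_eq (X := Unit) (G := G) B m
  rw [Fintype.card_unit, Nat.cast_one, one_mul] at e1 e2
  set t : ℕ → ℤ := fun i => (finrank ℝ (AR G (a0 V Unit) B i) : ℤ) with ht
  set s : ℕ → ℤ := fun i => (finrank ℝ (DR G (a0 V Unit) B i) : ℤ) with hs
  have h0 : t 0 = 0 := by
    have h1 : AR G (a0 V Unit) B 0 = ⊥ := by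
      rw [eq_bot_iff]
      rintro y ⟨⟨hy1, hy2⟩, _⟩
      rw [Submodule.mem_bot]
      funext T
      by_cases hT : T = ∅
      · rw [hy2 T (by rw [hT]; simp)]
        rfl
      · rw [(mem_KP.1 hy1).1 T fun hh => hT (Finset.card_eq_zero.1 hh.2)]
        rfl
    show (finrank ℝ (AR G (a0 V Unit) B 0) : ℤ) = 0
    rw [h1, finrank_bot]
    rfl
  have h1 := alt_shift t s h0 m
  have h2 : ∑ i ∈ Finset.range (m + 1), (-1 : ℤ) ^ (m + i) *
      (finrank ℝ (KK G (trivX V Unit) Set.univ ∅ i) : ℤ) =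
      ∑ i ∈ Finset.range (m + 1), (-1 : ℤ) ^ (m + i) * (finrank ℝ (KK G (trivX V Unit) B ∅ i) : ℤ) +
      ∑ i ∈ Finset.range (m + 1), (-1 : ℤ) ^ (m + i) * (t i + s i) := by
    rw [← Finset.sum_add_distrib]
    refine Finset.sum_congr rfl fun i _ => ?_
    rw [← mul_add]
    congr 1
    have h3 := dim_split (X := Unit) (G := G) (B := B) i
    have h4 := rank_KPR (X := Unit) (G := G) (B := B) i
    show (finrank ℝ (KK G (trivX V Unit) Set.univ ∅ i) : ℤ) = (finrank ℝ (KK G (trivX V Unit) B ∅ i) : ℤ) +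
      ((finrank ℝ (AR G (a0 V Unit) B i) : ℤ) + (finrank ℝ (DR G (a0 V Unit) B i) : ℤ))
    omega
  have h3 := rank_star (X := Unit) (G := G) (B := B) m
  have h4 : ∑ i ∈ Finset.range m, (-1 : ℤ) ^ (m + (i + 1)) * (t (i + 1) - s i) ≤
      ∑ i ∈ Finset.range m, (beta G (triv V) Set.univ ∅ (2 * m + 1 - i) : ℤ) := by
    refine Finset.sum_le_sum fun i hi => ?_
    rw [Finset.mem_range] at hi
    have h5 := Submodule.finrank_mono (DR_le_AR (X := Unit) hS ho (j := i) (by omega))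
    have h6 := lefschetz (X := Unit) hS ho (i := 2 * m - i) (j := i) (by omega) (by omega)
    have h7 := beta_trivX (X := Unit) (G := G) Set.univ (2 * m - i + 1)
    rw [Fintype.card_unit, one_mul] at h7
    have e : 2 * m + 1 - i = 2 * m - i + 1 := by omega
    rw [e, ← h7]
    have h8 : t (i + 1) - s i ≤ (beta G (trivX V Unit) Set.univ ∅ (2 * m - i + 1) : ℤ) := by
      show (finrank ℝ (AR G (a0 V Unit) B (i + 1)) : ℤ) - (finrank ℝ (DR G (a0 V Unit) B i) : ℤ) ≤ _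
      unfold beta
      omega
    have h9 : 0 ≤ t (i + 1) - s i := by
      show 0 ≤ (finrank ℝ (AR G (a0 V Unit) B (i + 1)) : ℤ) - (finrank ℝ (DR G (a0 V Unit) B i) : ℤ)
      omega
    rcases neg_one_pow_eq_or ℤ (m + (i + 1)) with h10 | h10
    · rw [h10, one_mul]
      exact h8
    · rw [h10]
      have h11 : (0 : ℤ) ≤ (beta G (trivX V Unit) Set.univ ∅ (2 * m - i + 1) : ℤ) := Nat.cast_nonneg _
      linarith
  have h5 : s m + (finrank ℝ (BB G (trivX V Unit) B ∅ m) : ℤ) ≤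
      (finrank ℝ (BB G (trivX V Unit) Set.univ ∅ m) : ℤ) := by
    show (finrank ℝ (DR G (a0 V Unit) B m) : ℤ) + _ ≤ _
    omega
  rw [e1, e2, h2, h1]
  linarith

end Abs

end Pool.Agent.H77CM
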