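import Pool.Agent.H77CM.A8

set_option autoImplicit false
set_option linter.unusedSectionVars false

/-!
# Passage to the full subcomplex
-/

namespace Pool.Agent.H77CM

open Pool.Agent.W907.SG Pool.Agent.W907.SM Pool.Agent.TH652.Dual Module

section Abs

variable {V : Type} [Fintype V] [LinearOrder V] {G : SimpleGraph V} {B : Set V} [Fintype ↥B]

/-- the inclusion -/
abbrev emb (B : Set V) : ↥B ↪ V := Function.Embedding.subtype _

open Classical in
/-- restriction of a finite set to the subset -/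
noncomputable def cap (B : Set V) (T : Finset V) : Finset ↥B := T.subtype (fun v => v ∈ B)

theorem mem_cap {T : Finset V} {v : ↥B} : v ∈ cap B T ↔ v.1 ∈ T := by
  classical
  unfold cap
  simp

theorem cap_map (T : Finset ↥B) : cap B (T.map (emb B)) = T := by
  ext v
  rw [mem_cap, Finset.mem_map]
  constructor
  · rintro ⟨u, hu, hv⟩
    have : u = v := Subtype.ext hv
    exact this ▸ hu
  · exact fun h => ⟨v, h, rfl⟩

theorem map_cap {T : Finset V} (h : (T : Set V) ⊆ B) : (cap B T).map (emb B) = T := by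
  ext v
  rw [Finset.mem_map]
  constructor
  · rintro ⟨u, hu, rfl⟩
    exact mem_cap.1 hu
  · exact fun hv => ⟨⟨v, h hv⟩, mem_cap.2 hv, rfl⟩

theorem map_sub (T : Finset ↥B) : ((T.map (emb B) : Finset V) : Set V) ⊆ B := by
  intro v hv
  rw [Finset.mem_coe, Finset.mem_map] at hv
  obtain ⟨u, _, rfl⟩ := hv
  exact u.2

theorem sg_map (v : ↥B) (T : Finset ↥B) : sg v.1 (T.map (emb B)) = sg v T := by
  unfold sg
  congr 1
  rw [Finset.filter_map, Finset.card_map]
  rfl

open Classical in
/-- extension by zero -/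
noncomputable def ext0 (B : Set V) : (Finset ↥B → ℝ) →ₗ[ℝ] (Finset V → ℝ) where
  toFun c T := if (T : Set V) ⊆ B then c (cap B T) else 0
  map_add' c d := by
    funext T
    rw [Pi.add_apply, Pi.add_apply]
    split_ifs
    · rfl
    · rw [add_zero]
  map_smul' r c := by
    funext T
    rw [RingHom.id_apply, Pi.smul_apply, Pi.smul_apply]
    split_ifs
    · rfl
    · rw [smul_zero]

theorem ext0_pos {c : Finset ↥B → ℝ} {T : Finset V} (h : (T : Set V) ⊆ B) : ext0 B c T = c (cap B T) := if_pos h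

theorem ext0_neg {c : Finset ↥B → ℝ} {T : Finset V} (h : ¬ (T : Set V) ⊆ B) : ext0 B c T = 0 := if_neg h

theorem ext0_inj : Function.Injective (ext0 (V := V) B) := by
  rw [injective_iff_map_eq_zero]
  intro c hc
  funext T
  have h := congrFun hc (T.map (emb B))
  rw [ext0_pos (map_sub T), cap_map] at h
  exact h

theorem bd_ext0 (c : Finset ↥B → ℝ) : bd ℝ (ext0 B c) = ext0 B (bd ℝ c) := by
  classical
  funext T
  rw [bd_apply]
  by_cases h : (T : Set V) ⊆ B
  · rw [ext0_pos h, bd_apply]
    symm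
    refine Finset.sum_bij_ne_zero (fun v _ _ => v.1) ?_ ?_ ?_ ?_
    · intro v hv _
      rw [Finset.mem_compl, mem_cap] at hv
      rwa [Finset.mem_compl]
    · intro v _ _ u _ _ huv
      exact Subtype.ext huv
    · intro v hv h0
      rw [Finset.mem_compl] at hv
      have hvB : v ∈ B := by
        by_contra hvB
        apply h0
        rw [ext0_neg, smul_zero]
        intro hh
        exact hvB (hh (by simp))
      refine ⟨⟨v, hvB⟩, ?_, ?_, rfl⟩
      · rw [Finset.mem_compl, mem_cap]
        exact hv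
      · intro h1
        apply h0
        rw [ext0_pos]
        · have e : cap B (insert v T) = insert ⟨v, hvB⟩ (cap B T) := by
            ext u
            rw [mem_cap, Finset.mem_insert, Finset.mem_insert, mem_cap, Subtype.ext_iff]
          have e2 : sg v T = sg (⟨v, hvB⟩ : ↥B) (cap B T) := by
            rw [← sg_map, map_cap h]
          rw [e, e2]
          exact h1
        · intro u hu
          rw [Finset.mem_coe, Finset.mem_insert] at hu
          rcases hu with rfl | hu
          · exact hvB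
          · exact h hu
    · intro v hv _
      have e : cap B (insert v.1 T) = insert v (cap B T) := by
        ext u
        rw [mem_cap, Finset.mem_insert, Finset.mem_insert, mem_cap, Subtype.ext_iff]
      have e2 : sg v.1 T = sg v (cap B T) := by
        rw [← sg_map, map_cap h]
      have h' : ((insert v.1 T : Finset V) : Set V) ⊆ B := by
        intro u hu
        rw [Finset.mem_coe, Finset.mem_insert] at hu
        rcases hu with rfl | hu
        · exact v.2
        · exact h hu
      rw [ext0_pos h', e, e2]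
      rfl
  · rw [ext0_neg h]
    refine Finset.sum_eq_zero fun v _ => ?_
    rw [ext0_neg, smul_zero]
    intro hh
    exact h (Set.Subset.trans (by simp) hh)

theorem clique_map (T : Finset ↥B) :
    G.IsClique ((T.map (emb B) : Finset V) : Set V) ↔ (G.induce B).IsClique (T : Set ↥B) := by
  constructor
  · intro h u hu v hv huv
    exact h (Finset.mem_coe.2 (Finset.mem_map_of_mem _ hu)) (Finset.mem_coe.2 (Finset.mem_map_of_mem _ hv))
      (fun e => huv (Subtype.ext e))
  · intro h u hu v hv huv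
    rw [Finset.mem_coe, Finset.mem_map] at hu hv
    obtain ⟨u, hu, rfl⟩ := hu
    obtain ⟨v, hv, rfl⟩ := hv
    exact h hu hv (fun e => huv (congrArg Subtype.val e))

theorem clique_cap {T : Finset V} (h : (T : Set V) ⊆ B) :
    (G.induce B).IsClique ((cap B T : Finset ↥B) : Set ↥B) ↔ G.IsClique (T : Set V) := by
  rw [← clique_map, map_cap h]

theorem card_cap {T : Finset V} (h : (T : Set V) ⊆ B) : (cap B T).card = T.card := by
  conv_rhs => rw [← map_cap h]
  rw [Finset.card_map]

theorem KK_ext0 (i : ℕ) : KK G (triv V) B ∅ i = (KK (G.induce B) (triv ↥B) Set.univ ∅ i).map (ext0 B) := by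
  ext c
  constructor
  · intro hc
    rw [mem_KK_triv] at hc
    refine ⟨fun T => c (T.map (emb B)), ?_, ?_⟩
    · rw [SetLike.mem_coe, mem_KK_triv]
      intro T hT
      refine hc _ ?_
      rintro ⟨h1, _, h3⟩
      rw [Finset.card_map] at h3
      exact hT ⟨clique_map T |>.1 h1, Set.subset_univ _, h3⟩
    · funext T
      by_cases h : (T : Set V) ⊆ B
      · rw [ext0_pos h, map_cap h]
      · rw [ext0_neg h, hc T fun hh => h hh.2.1]
  · rintro ⟨c, hc, rfl⟩
    rw [SetLike.mem_coe, mem_KK_triv] at hc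
    rw [mem_KK_triv]
    intro T hT
    by_cases h : (T : Set V) ⊆ B
    · rw [ext0_pos h]
      refine hc _ ?_
      rintro ⟨h1, _, h3⟩
      rw [card_cap h] at h3
      exact hT ⟨(clique_cap h).1 h1, h, h3⟩
    · exact ext0_neg h

theorem ZZ_ext0 (i : ℕ) : ZZ G (triv V) B ∅ i = (ZZ (G.induce B) (triv ↥B) Set.univ ∅ i).map (ext0 B) := by
  ext c
  constructor
  · rintro ⟨h1, h2⟩
    rw [SetLike.mem_coe, KK_ext0] at h1
    obtain ⟨d, hd, rfl⟩ := h1
    refine ⟨d, ⟨hd, ?_⟩, rfl⟩
    have h3 : bd ℝ (ext0 B d) = 0 := h2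
    rw [bd_ext0] at h3
    exact (map_eq_zero_iff _ ext0_inj).1 h3
  · rintro ⟨d, ⟨h1, h2⟩, rfl⟩
    refine ⟨?_, ?_⟩
    · rw [SetLike.mem_coe, KK_ext0]
      exact ⟨d, h1, rfl⟩
    · have h3 : bd ℝ d = 0 := h2
      show bd ℝ (ext0 B d) = 0
      rw [bd_ext0, h3, map_zero]

theorem BB_ext0 (i : ℕ) : BB G (triv V) B ∅ i = (BB (G.induce B) (triv ↥B) Set.univ ∅ i).map (ext0 B) := by
  unfold BB
  rw [KK_ext0]
  ext c
  simp only [Submodule.mem_map]
  constructor
  · rintro ⟨_, ⟨d, hd, rfl⟩, rfl⟩
    exact ⟨bd ℝ d, ⟨d, hd, rfl⟩, (bd_ext0 d).symm⟩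
  · rintro ⟨_, ⟨d, hd, rfl⟩, rfl⟩
    exact ⟨ext0 B d, ⟨d, hd, rfl⟩, bd_ext0 d⟩

theorem beta_induce (i : ℕ) : beta (G.induce B) (triv ↥B) Set.univ ∅ i = beta G (triv V) B ∅ i := by
  unfold beta
  rw [ZZ_ext0 (G := G) (B := B), BB_ext0 (G := G) (B := B),
    (Submodule.equivMapOfInjective (ext0 (V := V) B) ext0_inj _).finrank_eq,
    (Submodule.equivMapOfInjective (ext0 (V := V) B) ext0_inj _).finrank_eq]

theorem lk_empty (G : SimpleGraph V) : lk G ∅ = Set.univ := by
  ext v
  exact iff_of_true (fun u hu => absurd hu (Finset.notMem_empty u)) trivial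

/-- the orientation of the boundary -/
theorem ori_boundary {n : ℕ} {o : Finset V → ℝ} (ho : OB (n + 1) G B o)
    (hne : ∀ v ∈ B, ∃ T : Finset V, v ∈ T ∧ bd ℝ o T ≠ 0) :
    Ori n (G.induce B) (fun T => bd ℝ o (T.map (emb B))) := by
  set c : Finset ↥B → ℝ := fun T => bd ℝ o (T.map (emb B)) with hc
  have he : ext0 B c = bd ℝ o := by
    funext T
    by_cases h : (T : Set V) ⊆ B
    · rw [ext0_pos h]
      show bd ℝ o ((cap B T).map (emb B)) = _
      rw [map_cap h]
    · rw [ext0_neg h, ho.bdy T h]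
  refine ⟨?_, ?_⟩
  · rw [lk_empty]
    have h1 : bd ℝ o ∈ ZZ G (triv V) B ∅ n := by
      refine ⟨?_, bd_bd o⟩
      have h2 := bd_mem_KK ho.mem
      rw [SetLike.mem_coe, mem_KK_triv]
      rw [mem_KK_triv] at h2
      intro T hT
      by_cases h : (T : Set V) ⊆ B
      · exact h2 T fun hh => hT ⟨hh.1, h, hh.2.2⟩
      · exact ho.bdy T h
    rw [ZZ_ext0, ← he] at h1
    obtain ⟨d, hd, hde⟩ := h1
    rw [← ext0_inj hde]
    exact hd
  · intro v hv
    obtain ⟨T, hvT, hT⟩ := hne v.1 v.2
    have hTB : (T : Set V) ⊆ B := by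
      by_contra h
      exact hT (ho.bdy T h)
    have h1 := congrFun hv ((cap B T).erase v)
    have e : Lv v c ((cap B T).erase v) = (sg v ((cap B T).erase v) : ℝ) * c (insert v ((cap B T).erase v)) :=
      if_neg (Finset.notMem_erase _ _)
    rw [e, Finset.insert_erase (mem_cap.2 hvT), Pi.zero_apply] at h1
    have h2 : c (cap B T) = bd ℝ o T := by
      show bd ℝ o ((cap B T).map (emb B)) = _
      rw [map_cap hTB]
    rw [h2] at h1
    rcases mul_eq_zero.1 h1 with h3 | h3
    · rcases sg_eq_or v ((cap B T).erase v) with h4 | h4 <;> rw [h4] at h3 <;> norm_num at h3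
    · exact hT h3

end Abs

end Pool.Agent.H77CM
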